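import Pool.Agent.Helper19.Sign.Weil

/-!
# Irreducibility of `T ^ g h(T + c / T)`
-/

open Polynomial

namespace Pool.Agent.Helper19.Sign

/-- If `β` lies in `ℚ(a)`, `a = β + c / β` a root of `h`, then `Res(h, X ^ 2 - 4 c)` is a square. -/
theorem isSquare_of_mem {k : Type} [Field k] [CharZero k] (h : k[X]) (hm : h.Monic)
    (hirr : Irreducible h) (c : k) {Ω : Type} [Field Ω] [Algebra k Ω] [IsAlgClosed Ω]
    (a β : Ω) (hβ0 : β ≠ 0) (ha : a = β + algebraMap k Ω c / β) (hroot : aeval a h = 0)
    (hβ : β ∈ IntermediateField.adjoin k {a}) : IsSquare (h.resultant (X ^ 2 - C (4 * c))) := by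
  classical
  have halg : IsAlgebraic k a := ⟨h, hm.ne_zero, hroot⟩
  have h1 : β ∈ Algebra.adjoin k {a} := by
    rw [← IntermediateField.adjoin_simple_toSubalgebra_of_isAlgebraic halg]
    exact hβ
  rw [Algebra.adjoin_singleton_eq_range_aeval] at h1
  obtain ⟨f, hf⟩ := h1
  have hf' : aeval a f = β := hf
  -- `(2 f - X) ^ 2 ≡ X ^ 2 - 4 c` mod `h`
  have hmin : minpoly k a = h := (minpoly.eq_of_irreducible_of_monic hirr hroot hm).symm
  have h2 : h ∣ (2 * f - X) ^ 2 - (X ^ 2 - C (4 * c)) := by
    rw [← hmin, minpoly.dvd_iff]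
    rw [map_sub, map_pow, map_sub, map_mul, map_sub, map_pow, aeval_X, aeval_C, hf', map_ofNat,
      ha, map_mul, map_ofNat]
    field_simp
    ring
  have hs : (h.map (algebraMap k Ω)).Splits := IsAlgClosed.splits _
  have key : ∀ p : k[X], algebraMap k Ω (h.resultant p) =
      ((h.map (algebraMap k Ω)).roots.map fun z => (p.map (algebraMap k Ω)).eval z).prod := by
    intro p
    have h3 := resultant_map_map h p h.natDegree p.natDegree (algebraMap k Ω)
    rw [← h3]
    have h4 : h.natDegree = (h.map (algebraMap k Ω)).natDegree := (natDegree_map _).symm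
    rw [h4, resultant_eq_prod_eval _ _ p.natDegree (natDegree_map_le) hs,
      (hm.map (algebraMap k Ω)).leadingCoeff, one_pow, one_mul]
  refine ⟨h.resultant (2 * f - X), ?_⟩
  apply (algebraMap k Ω).injective
  have hmm : algebraMap k Ω (h.resultant (2 * f - X) * h.resultant (2 * f - X)) =
      algebraMap k Ω (h.resultant (2 * f - X)) * algebraMap k Ω (h.resultant (2 * f - X)) :=
    map_mul _ _ _
  rw [hmm, key, key, ← Multiset.prod_map_mul]
  congr 1
  refine Multiset.map_congr rfl fun z hz => ?_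
  have hz' : eval z (h.map (algebraMap k Ω)) = 0 := (mem_roots'.1 hz).2
  obtain ⟨s, hs⟩ := h2
  have h3 := congrArg (fun p : k[X] => (p.map (algebraMap k Ω)).eval z) hs
  rw [Polynomial.map_mul, eval_mul, hz', zero_mul, Polynomial.map_sub, eval_sub,
    Polynomial.map_pow, eval_pow] at h3
  rw [← sq]
  exact (sub_eq_zero.1 h3).symm

theorem irreducible_weil (h : ℚ[X]) (hm : h.Monic) (hirr : Irreducible h) (c : ℚ) (hc : c ≠ 0)
    (hns : ¬ IsSquare (h.resultant (X ^ 2 - C (4 * c)))) : Irreducible (weil c h) := by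
  classical
  obtain ⟨hwm, hwd⟩ := weil_monic c h hm
  have hg : 0 < h.natDegree := hirr.natDegree_pos
  let Ω := AlgebraicClosure ℚ
  set P := weil c h with hP
  have hdeg : P.degree ≠ 0 := by
    intro h0
    have := natDegree_eq_zero_iff_degree_le_zero.2 h0.le
    omega
  obtain ⟨β, hβ⟩ := IsAlgClosed.exists_aeval_eq_zero Ω P hdeg
  have hmapP : P.map (algebraMap ℚ Ω) = weil (algebraMap ℚ Ω c) (h.map (algebraMap ℚ Ω)) :=
    weil_map _ _ _ (natDegree_map _)
  have hβ0 : β ≠ 0 := by
    rintro rfl
    have h1 : P.coeff 0 = 0 := by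
      rw [aeval_def, eval₂_at_zero, map_eq_zero] at hβ
      exact hβ
    have h2 : P.coeff 0 = c ^ h.natDegree := by
      rw [hP, weil, finsetSum_coeff, Finset.sum_eq_single h.natDegree]
      · rw [hm.coeff_natDegree, Nat.sub_self, pow_zero, map_one, one_mul, one_mul]
        simp [coeff_zero_eq_eval_zero]
      · intro j hj hj'
        rw [Finset.mem_range] at hj
        have h3 : h.natDegree - j ≠ 0 := by omega
        simp [coeff_zero_eq_eval_zero, h3]
      · intro h3
        exact absurd (Finset.mem_range.2 (Nat.lt_succ_self _)) h3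
    rw [h1] at h2
    exact pow_ne_zero _ hc h2.symm
  set a : Ω := β + algebraMap ℚ Ω c / β with ha
  have hroot : aeval a h = 0 := by
    have h1 : eval β (P.map (algebraMap ℚ Ω)) = 0 := by
      rw [eval_map, ← aeval_def]; exact hβ
    rw [hmapP, eval_weil _ _ _ hβ0, mul_eq_zero, or_iff_right (pow_ne_zero _ hβ0), eval_map,
      ← aeval_def] at h1
    exact h1
  have hintβ : IsIntegral ℚ β := ⟨P, hwm, hβ⟩
  have hinta : IsIntegral ℚ a := ⟨h, hm, hroot⟩
  have hmina : minpoly ℚ a = h := (minpoly.eq_of_irreducible_of_monic hirr hroot hm).symm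
  have hfa : Module.finrank ℚ (IntermediateField.adjoin ℚ {a}) = h.natDegree := by
    rw [IntermediateField.adjoin.finrank hinta, hmina]
  have hfβ : Module.finrank ℚ (IntermediateField.adjoin ℚ {β}) = (minpoly ℚ β).natDegree :=
    IntermediateField.adjoin.finrank hintβ
  have hle : IntermediateField.adjoin ℚ {a} ≤ IntermediateField.adjoin ℚ {β} := by
    rw [IntermediateField.adjoin_simple_le_iff, ha]
    have h1 := IntermediateField.mem_adjoin_simple_self ℚ β
    exact add_mem h1 (div_mem (IntermediateField.algebraMap_mem _ _) h1)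
  have : FiniteDimensional ℚ (IntermediateField.adjoin ℚ {β}) :=
    IntermediateField.adjoin.finiteDimensional hintβ
  have hdvd := IntermediateField.finrank_dvd_of_le_right hle
  rw [hfa, hfβ] at hdvd
  have hdvdP : minpoly ℚ β ∣ P := minpoly.dvd _ _ hβ
  have hle2 : (minpoly ℚ β).natDegree ≤ 2 * h.natDegree := by
    rw [← hwd]
    exact natDegree_le_of_dvd hdvdP hwm.ne_zero
  have hne : (minpoly ℚ β).natDegree ≠ h.natDegree := by
    intro h1
    apply hns
    have h2 := IntermediateField.eq_of_le_of_finrank_eq hle (by rw [hfa, hfβ, h1])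
    refine isSquare_of_mem h hm hirr c a β hβ0 ha hroot ?_
    rw [h2]
    exact IntermediateField.mem_adjoin_simple_self ℚ β
  have hpos : 0 < (minpoly ℚ β).natDegree := minpoly.natDegree_pos hintβ
  obtain ⟨t, ht⟩ := hdvd
  have ht2 : (minpoly ℚ β).natDegree = 2 * h.natDegree := by
    have h1 : t ≠ 0 := by rintro rfl; omega
    have h2 : t ≠ 1 := by rintro rfl; omega
    have h3 : 2 ≤ t := by omega
    have h4 : h.natDegree * 2 ≤ h.natDegree * t := Nat.mul_le_mul_left _ h3
    omega
  have hEq : minpoly ℚ β = P :=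
    (eq_of_monic_of_dvd_of_natDegree_le (minpoly.monic hintβ) hwm hdvdP (by rw [hwd, ht2])).symm
  rw [← hEq]
  exact minpoly.irreducible hintβ

end Pool.Agent.Helper19.Sign
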