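import Pool.Agent.Helper19.Sign.ThmB
import Pool.Agent.Helper19.Sign.Irr

/-!
# The arithmetic core: one prime is enough, final form

`theoremB'`: several polynomials.  `arith_core`: one polynomial of degree at least two, no torsion
hypothesis.  `arith_core_r`: the version with a square root `r` of `c` mod `ℓ ^ 2`.
-/

open Polynomial Finset

namespace Pool.Agent.Helper19.Sign

open Disc (roots Rt mem_roots' stab_roots roots_map_eq exists_conj)

theorem not_isSquare_of_odd {ℓ : ℕ} (hℓ : ℓ.Prime) {r : ℤ} (hodd : Odd (padicValInt ℓ r)) :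
    ¬ IsSquare (r : ℚ) := by
  have hF : Fact ℓ.Prime := ⟨hℓ⟩
  rintro ⟨y, hy⟩
  have hr : r ≠ 0 := by
    rintro rfl
    simp at hodd
  have hy0 : y ≠ 0 := by
    rintro rfl
    rw [mul_zero] at hy
    exact hr (by exact_mod_cast hy)
  have h1 := congrArg (padicValRat ℓ) hy
  rw [padicValRat.mul hy0 hy0, padicValRat.of_int] at h1
  obtain ⟨t, ht⟩ := hodd
  omega

theorem irreducible_qw {c : ℤ} (hc : c ≠ 0) {h : ℤ[X]} (hm : h.Monic)
    (hirr : Irreducible (h.map (Int.castRingHom ℚ))) {ℓ : ℕ} (hℓ : ℓ.Prime)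
    (hodd : Odd (padicValInt ℓ (h.resultant (X ^ 2 - C (4 * c))))) : Irreducible (qw c h) := by
  rw [qw_eq c h hm]
  refine irreducible_weil _ (hm.map _) hirr _ (by exact_mod_cast hc) ?_
  have hd : (X ^ 2 - C (4 * c) : ℤ[X]).natDegree = 2 := natDegree_X_pow_sub_C
  have hdK : (X ^ 2 - C (4 * (c : ℚ)) : ℚ[X]).natDegree = 2 := natDegree_X_pow_sub_C
  have h3 := resultant_map_map h (X ^ 2 - C (4 * c)) h.natDegree
    (X ^ 2 - C (4 * c) : ℤ[X]).natDegree (Int.castRingHom ℚ)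
  have hmap : (X ^ 2 - C (4 * c) : ℤ[X]).map (Int.castRingHom ℚ) = X ^ 2 - C (4 * (c : ℚ)) := by
    rw [Polynomial.map_sub, Polynomial.map_pow, map_X, map_C, map_mul]
    simp
  rw [hmap, hd] at h3
  rw [hm.natDegree_map, hdK, h3]
  have h4 := not_isSquare_of_odd hℓ hodd
  rw [hd] at h4
  exact h4

theorem sq_ne_of_degree {L : Type} [Field L] [NumberField L] {c : ℤ} {h : ℤ[X]} (hm : h.Monic)
    (hirr : Irreducible (qw c h)) (hdeg : 2 ≤ h.natDegree) {β : L}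
    (hβ : β ∈ roots (qw c h) L) (e : ℤ) : β ^ 2 ≠ (e : L) := by
  intro h1
  have h2 : aeval β (qw c h) = 0 := (mem_roots' hirr.ne_zero).1 hβ
  have h3 : minpoly ℚ β = qw c h := by
    have hqm : (qw c h).Monic := (weil_monic c h hm).1.map _
    exact (minpoly.eq_of_irreducible_of_monic hirr h2 hqm).symm
  have h4 : minpoly ℚ β ∣ X ^ 2 - C (e : ℚ) := by
    rw [minpoly.dvd_iff, map_sub, map_pow, aeval_X, aeval_C, h1]
    simp
  have h5 : (X ^ 2 - C (e : ℚ) : ℚ[X]).natDegree = 2 := natDegree_X_pow_sub_C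
  have h6 := natDegree_le_of_dvd h4 (by
    intro h0
    rw [h0, natDegree_zero] at h5
    omega)
  rw [h3, h5, qw, (weil_monic c h hm).1.natDegree_map, (weil_monic c h hm).2] at h6
  omega

theorem theoremB' (I : Type) [Fintype I] (c : I → ℤ) (hc : ∀ i, c i ≠ 0) (h : I → ℤ[X])
    (hm : ∀ i, (h i).Monic) (hirr' : ∀ i, Irreducible ((h i).map (Int.castRingHom ℚ)))
    (hℓ : ∀ i, ∃ ℓ : ℕ, ℓ.Prime ∧ (∀ j, ((h j).map (Int.castRingHom (ZMod ℓ))).Separable) ∧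
      Odd (padicValInt ℓ ((h i).resultant (X ^ 2 - C (4 * c i)))) ∧
      ∀ j, j ≠ i → ¬ (ℓ : ℤ) ∣ (h j).resultant (X ^ 2 - C (4 * c j)))
    (L : Type) [Field L] [NumberField L] [IsGalois ℚ L]
    (hsplit : ∀ i, ((qw (c i) (h i)).map (algebraMap ℚ L)).Splits)
    (htors : ∀ i, (h i).natDegree = 1 → ∀ β ∈ roots (qw (c i) (h i)) L, ∀ k : ℕ, 0 < k →
      β ^ (2 * k) ≠ (c i : L) ^ k)
    (n : I → L → ℤ) (N : ℕ) (hN : N ≠ 0) (e : ℚ)
    (hrel : (∏ i, ∏ β ∈ roots (qw (c i) (h i)) L, β ^ n i β) ^ N = algebraMap ℚ L e) :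
    ∀ i, ∀ β ∈ roots (qw (c i) (h i)) L, n i β = n i ((c i : L) / β) := by
  classical
  have hirr : ∀ i, Irreducible (qw (c i) (h i)) := by
    intro i
    obtain ⟨ℓ, hℓp, _, hodd, _⟩ := hℓ i
    exact irreducible_qw (hc i) (hm i) (hirr' i) hℓp hodd
  have hdeg1 : ∀ i, (h i).natDegree = 1 ∨ 2 ≤ (h i).natDegree := by
    intro i
    have h1 := (hirr' i).natDegree_pos
    rw [(hm i).natDegree_map] at h1
    omega
  refine theoremB I c hc h hm hirr hℓ L hsplit ?_ n N hN e hrel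
  intro i β hβ k hk hβk
  rcases hdeg1 i with hdi | hdi
  · exact htors i hdi β hβ k hk hβk
  -- the set with its action
  have hPne : ∀ i, qw (c i) (h i) ≠ 0 := fun i => (hirr i).ne_zero
  let S : Type := Σ i, Rt L (qw (c i) (h i))
  let act' : MulAction (L ≃ₐ[ℚ] L) S := Disc.actSigma hPne
  have hSext : ∀ x y : S, x.1 = y.1 → x.2.1 = y.2.1 → x = y := by
    rintro ⟨i, x, hx⟩ ⟨j, y, hy⟩ h1 h2
    obtain rfl : i = j := h1
    obtain rfl : x = y := h2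
    rfl
  have hx0 : ∀ x : S, x.2.1 ≠ 0 := fun x => qw_root_ne_zero (hm x.1) (hirr x.1) x.2.2
  have hcL : ∀ i, (c i : L) ≠ 0 := fun i => by exact_mod_cast hc i
  have hsym : ∀ i, ∀ β ∈ roots (qw (c i) (h i)) L, (c i : L) / β ∈ roots (qw (c i) (h i)) L := by
    intro i β hβ
    have h1 := qw_root_ne_zero (hm i) (hirr i) hβ
    rw [mem_qw (hm i) (hPne i) (div_ne_zero (hcL i) h1), div_div_cancel₀ (hcL i), add_comm]
    exact (mem_qw (hm i) (hPne i) h1).1 hβ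
  have hact : ∀ (σ : L ≃ₐ[ℚ] L) (x : S), (σ • x).1 = x.1 ∧ (σ • x).2.1 = σ x.2.1 :=
    fun _ _ => ⟨rfl, rfl⟩
  let ι : S → S := fun x => ⟨x.1, ⟨(c x.1 : L) / x.2.1, hsym x.1 x.2.1 x.2.2⟩⟩
  have hι' : ∀ x : S, (ι x).1 = x.1 ∧ (ι x).2.1 = (c x.1 : L) / x.2.1 := fun _ => ⟨rfl, rfl⟩
  have hι : ∀ x : S, ι (ι x) = x := by
    intro x
    refine hSext (ι (ι x)) x rfl ?_
    show (c x.1 : L) / ((c x.1 : L) / x.2.1) = x.2.1
    rw [div_div_cancel₀ (hcL x.1)]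
  have hcomm : ∀ (g : L ≃ₐ[ℚ] L) (x : S), g • ι x = ι (g • x) := by
    intro g x
    refine hSext (g • ι x) (ι (g • x)) rfl ?_
    show g ((c x.1 : L) / x.2.1) = (c x.1 : L) / g x.2.1
    rw [map_div₀, map_intCast]
  have hfix' : ∀ x : S, x.2.1 ^ 2 ≠ (c x.1 : L) := by
    intro x
    rcases hdeg1 x.1 with hd | hd
    · have := htors x.1 hd x.2.1 x.2.2 1 one_pos
      rwa [mul_one, pow_one] at this
    · exact sq_ne_of_degree (hm x.1) (hirr x.1) hd x.2.2 (c x.1)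
  have hfix : ∀ x : S, ι x ≠ x := by
    intro x h1
    apply hfix' x
    have h2 : (c x.1 : L) / x.2.1 = x.2.1 := congrArg (fun y : S => y.2.1) h1
    rw [div_eq_iff (hx0 x)] at h2
    rw [h2]; ring
  obtain ⟨ℓ, hℓp, hsep, hodd, hndvd⟩ := hℓ i
  obtain ⟨x₁, hx₁, hcard, _⟩ := exists_small_block I c hc h hm hirr L hsplit hact ι hι'
    hfix' i ℓ hℓp hsep hodd hndvd
  subst hx₁
  -- another pair
  have hroots : 2 < (roots (qw (c x₁.1) (h x₁.1)) L).card := by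
    rw [(roots_map_eq (hirr x₁.1) (hsplit x₁.1)).2, qw,
      (weil_monic (c x₁.1) (h x₁.1) (hm x₁.1)).1.natDegree_map,
      (weil_monic (c x₁.1) (h x₁.1) (hm x₁.1)).2]
    omega
  obtain ⟨γ, hγ, hγ'⟩ : ∃ γ ∈ roots (qw (c x₁.1) (h x₁.1)) L,
      γ ∉ ({x₁.2.1, (c x₁.1 : L) / x₁.2.1} : Finset L) := by
    apply exists_mem_notMem_of_card_lt_card
    exact lt_of_le_of_lt card_le_two hroots
  rw [mem_insert, mem_singleton, not_or] at hγ'
  let y₁ : S := ⟨x₁.1, ⟨γ, hγ⟩⟩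
  have hy₁ : y₁ ∉ blk (L ≃ₐ[ℚ] L) ι x₁ := by
    have hB : ({x₁, ι x₁} : Finset S) = blk (L ≃ₐ[ℚ] L) ι x₁ := by
      apply Finset.eq_of_subset_of_card_le
      · intro y hy
        rcases mem_insert.1 hy with rfl | hy
        · exact self_mem_blk _
        · rw [mem_singleton] at hy
          rw [hy]; exact ι_mem_blk hι hcomm (self_mem_blk _)
      · rw [hcard, card_pair (hfix x₁).symm]
    rw [← hB, mem_insert, mem_singleton]
    rintro (h1 | h1)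
    · exact hγ'.1 (by
        have h2 : y₁.2.1 = x₁.2.1 := by rw [h1]
        exact h2)
    · exact hγ'.2 (by
        have h2 : y₁.2.1 = (ι x₁).2.1 := by rw [h1]
        exact h2)
  -- the key computation
  have key : ∀ α γ : L, α ∈ roots (qw (c x₁.1) (h x₁.1)) L → γ ∈ roots (qw (c x₁.1) (h x₁.1)) L →
      ∀ σ : L ≃ₐ[ℚ] L, σ α = α → σ γ = (c x₁.1 : L) / γ → False := by
    intro α γ hα hγ σ hσα hσγ
    have hc1 := hcL x₁.1
    have hα0 := qw_root_ne_zero (hm x₁.1) (hirr x₁.1) hα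
    have hγ0 := qw_root_ne_zero (hm x₁.1) (hirr x₁.1) hγ
    obtain ⟨τ, hτ⟩ := exists_conj (hirr x₁.1) (⟨α, hα⟩ : Rt L _) ⟨γ, hγ⟩
    obtain ⟨τ', hτ'⟩ := exists_conj (hirr x₁.1) (⟨β, hβ⟩ : Rt L _) ⟨α, hα⟩
    have hτ1 : τ α = γ := hτ
    have hτ2 : τ' β = α := hτ'
    set ζ : L := α ^ 2 / (c x₁.1 : L) with hζ
    have hζk : ζ ^ k = 1 := by
      have h1 : α ^ (2 * k) = (c x₁.1 : L) ^ k := by
        rw [← hτ2, ← map_pow, hβk, map_pow, map_intCast]
      rw [hζ, div_pow, ← pow_mul, h1, div_self (pow_ne_zero k hc1)]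
    have hfin : IsOfFinOrder ζ := isOfFinOrder_iff_pow_eq_one.2 ⟨k, hk, hζk⟩
    have hprim : IsPrimitiveRoot ζ (orderOf ζ) := IsPrimitiveRoot.orderOf ζ
    have : NeZero (orderOf ζ) := ⟨hfin.orderOf_pos.ne'⟩
    have hζ' : (γ ^ 2 / (c x₁.1 : L)) ^ orderOf ζ = 1 := by
      have h1 : γ ^ 2 / (c x₁.1 : L) = τ ζ := by
        rw [hζ, map_div₀, map_pow, map_intCast, hτ1]
      rw [h1, ← map_pow, pow_orderOf_eq_one, map_one]
    obtain ⟨s, _, hs⟩ := hprim.eq_pow_of_pow_eq_one hζ'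
    have h2 : σ ζ = ζ := by
      rw [hζ, map_div₀, map_pow, map_intCast, hσα]
    have h3 : σ (γ ^ 2 / (c x₁.1 : L)) = γ ^ 2 / (c x₁.1 : L) := by
      rw [← hs, map_pow, h2]
    rw [map_div₀, map_pow, map_intCast, hσγ] at h3
    have h4 : (γ ^ 2 - (c x₁.1 : L)) * (γ ^ 2 + (c x₁.1 : L)) = 0 := by
      field_simp at h3
      linear_combination -h3
    rcases mul_eq_zero.1 h4 with h5 | h5
    · exact sq_ne_of_degree (hm x₁.1) (hirr x₁.1) hdi hγ (c x₁.1) (sub_eq_zero.1 h5)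
    · refine sq_ne_of_degree (hm x₁.1) (hirr x₁.1) hdi hγ (-c x₁.1) ?_
      push_cast
      exact eq_neg_of_add_eq_zero_left h5
  apply hy₁
  rw [mem_blk]
  intro σ hσ
  have hcase : ∀ x : S, σ • x = x → σ x.2.1 = x.2.1 := by
    intro x h1
    have h2 : (σ • x).2.1 = x.2.1 := by rw [h1]
    exact h2
  have hcase' : ∀ x : S, σ • x ≠ x → σ x.2.1 = (c x.1 : L) / x.2.1 := by
    intro x h1
    have h2 := (hσ x).resolve_left h1
    have h3 : (σ • x).2.1 = (ι x).2.1 := by rw [h2]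
    exact h3
  constructor
  · intro h1
    by_contra h2
    exact key x₁.2.1 γ x₁.2.2 hγ σ (hcase x₁ h1) (hcase' y₁ h2)
  · intro h1
    by_contra h2
    exact key γ x₁.2.1 hγ x₁.2.2 σ (hcase y₁ h1) (hcase' x₁ h2)

theorem arith_core (h : ℤ[X]) (hm : h.Monic) (hirr : Irreducible (h.map (Int.castRingHom ℚ)))
    (hdeg : 2 ≤ h.natDegree) (q : ℤ) (hq : q ≠ 0) (ℓ : ℕ) (hℓ : ℓ.Prime)
    (hsep : (h.map (Int.castRingHom (ZMod ℓ))).Separable)
    (hodd : Odd (padicValInt ℓ (h.resultant (X ^ 2 - C (4 * q))))) :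
    Irreducible (qw q h) ∧ ∀ (L : Type) [Field L] [NumberField L] [IsGalois ℚ L],
      ((qw q h).map (algebraMap ℚ L)).Splits → ∀ (n : L → ℤ) (N : ℕ) (e : ℚ), N ≠ 0 →
      (∏ β ∈ roots (qw q h) L, β ^ n β) ^ N = algebraMap ℚ L e →
      ∀ β ∈ roots (qw q h) L, n β = n ((q : L) / β) := by
  refine ⟨irreducible_qw hq hm hirr hℓ hodd, ?_⟩
  intro L _ _ _ hsplit n N e hN hrel
  have h1 := theoremB' Unit (fun _ => q) (fun _ => hq) (fun _ => h) (fun _ => hm) (fun _ => hirr)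
    (fun _ => ⟨ℓ, hℓ, fun _ => hsep, hodd, fun j hj => absurd rfl hj⟩) L (fun _ => hsplit)
    (fun _ hd => by exfalso; omega) (fun _ => n) N hN e
    (by simpa using hrel)
  exact h1 ()

theorem resultant_sq_aux (AC : Type) [Field AC] [CharZero AC] [IsAlgClosed AC] (h : ℤ[X])
    (hm : h.Monic) (r : ℤ) :
    h.resultant (X ^ 2 - C (4 * r ^ 2)) = h.eval (2 * r) * h.eval (-(2 * r)) := by
  have hinj : Function.Injective (Int.castRingHom AC) := by
    intro a b hab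
    have : ((a : ℤ) : AC) = ((b : ℤ) : AC) := hab
    exact_mod_cast this
  apply hinj
  have hd : (X ^ 2 - C (4 * r ^ 2) : ℤ[X]).natDegree = 2 := natDegree_X_pow_sub_C
  have hdK : (X ^ 2 - C (4 * ((r : AC) ^ 2)) : AC[X]).natDegree = 2 := natDegree_X_pow_sub_C
  have hs : (h.map (Int.castRingHom AC)).Splits := IsAlgClosed.splits _
  have h2 := resultant_eq_prod (h.map (Int.castRingHom AC)) (hm.map _) hs ((r : AC) ^ 2)
  have h3 := resultant_map_map h (X ^ 2 - C (4 * r ^ 2)) h.natDegree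
    (X ^ 2 - C (4 * r ^ 2) : ℤ[X]).natDegree (Int.castRingHom AC)
  have hmap : (X ^ 2 - C (4 * r ^ 2) : ℤ[X]).map (Int.castRingHom AC) =
      X ^ 2 - C (4 * ((r : AC) ^ 2)) := by
    rw [Polynomial.map_sub, Polynomial.map_pow, map_X, map_C]
    simp
  rw [hmap, hd] at h3
  rw [hm.natDegree_map, hdK, h3] at h2
  rw [hd, h2, map_mul]
  have h4 : ∀ z : ℤ, Int.castRingHom AC (h.eval z) =
      ((h.map (Int.castRingHom AC)).roots.map fun a => (z : AC) - a).prod := by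
    intro z
    have h5 := Polynomial.Splits.eval_eq_prod_roots hs (z : AC)
    rw [(hm.map (Int.castRingHom AC)).leadingCoeff, one_mul] at h5
    rw [← h5]
    have h6 := Polynomial.eval_map_apply (p := h) (f := Int.castRingHom AC) z
    rw [← h6]
    rfl
  rw [h4, h4, ← Multiset.prod_map_mul]
  have h7 : ∀ a : AC, a ^ 2 - 4 * (r : AC) ^ 2 =
      (((2 * r : ℤ) : AC) - a) * (((-(2 * r) : ℤ) : AC) - a) := by
    intro a
    push_cast
    ring
  congr 1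
  exact Multiset.map_congr rfl fun a _ => h7 a

theorem resultant_sq (h : ℤ[X]) (hm : h.Monic) (r : ℤ) :
    h.resultant (X ^ 2 - C (4 * r ^ 2)) = h.eval (2 * r) * h.eval (-(2 * r)) :=
  resultant_sq_aux (AlgebraicClosure ℚ) h hm r

/-- The version with a square root `r` of `q` mod `ℓ ^ 2`. -/
theorem arith_core_r (h : ℤ[X]) (hm : h.Monic) (hirr : Irreducible (h.map (Int.castRingHom ℚ)))
    (hdeg : 2 ≤ h.natDegree) (q : ℤ) (hq : q ≠ 0) (ℓ : ℕ) (hℓ : ℓ.Prime) (r : ℤ)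
    (hr : (ℓ : ℤ) ^ 2 ∣ r ^ 2 - q) (h1 : (ℓ : ℤ) ∣ h.eval (2 * r))
    (h2 : ¬ (ℓ : ℤ) ^ 2 ∣ h.eval (2 * r)) (h3 : ¬ (ℓ : ℤ) ∣ h.eval (-(2 * r)))
    (hsep : (h.map (Int.castRingHom (ZMod ℓ))).Separable) :
    Irreducible (qw q h) ∧ ∀ (L : Type) [Field L] [NumberField L] [IsGalois ℚ L],
      ((qw q h).map (algebraMap ℚ L)).Splits → ∀ (n : L → ℤ) (N : ℕ) (e : ℚ), N ≠ 0 →
      (∏ β ∈ roots (qw q h) L, β ^ n β) ^ N = algebraMap ℚ L e →
      ∀ β ∈ roots (qw q h) L, n β = n ((q : L) / β) := by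
  have hF : Fact ℓ.Prime := ⟨hℓ⟩
  refine arith_core h hm hirr hdeg q hq ℓ hℓ hsep ?_
  set R := h.resultant (X ^ 2 - C (4 * q)) with hR
  -- the resultants agree mod `ℓ ^ 2`
  have hmod : (ℓ : ℤ) ^ 2 ∣ R - h.eval (2 * r) * h.eval (-(2 * r)) := by
    rw [← resultant_sq h hm r]
    have hcast : ∀ z : ℤ, ((ℓ : ℤ) ^ 2 ∣ z) ↔ ((z : ℤ) : ZMod (ℓ ^ 2)) = 0 := by
      intro z
      rw [ZMod.intCast_zmod_eq_zero_iff_dvd]
      push_cast
      rfl
    rw [hcast]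
    have h4 : ∀ z : ℤ, ((h.resultant (X ^ 2 - C z : ℤ[X]) : ℤ) : ZMod (ℓ ^ 2)) =
        (h.map (Int.castRingHom (ZMod (ℓ ^ 2)))).resultant
          (X ^ 2 - C ((z : ℤ) : ZMod (ℓ ^ 2))) h.natDegree 2 := by
      intro z
      have hd : (X ^ 2 - C z : ℤ[X]).natDegree = 2 := natDegree_X_pow_sub_C
      have h5 := resultant_map_map h (X ^ 2 - C z) h.natDegree
        (X ^ 2 - C z : ℤ[X]).natDegree (Int.castRingHom (ZMod (ℓ ^ 2)))
      rw [hd] at h5
      rw [hd]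
      have hmap : (X ^ 2 - C z : ℤ[X]).map (Int.castRingHom (ZMod (ℓ ^ 2))) =
          X ^ 2 - C ((z : ℤ) : ZMod (ℓ ^ 2)) := by
        rw [Polynomial.map_sub, Polynomial.map_pow, map_X, map_C]
        rfl
      rw [hmap] at h5
      rw [h5]
      rfl
    rw [Int.cast_sub, hR, h4, h4]
    have h6 : (((4 * q : ℤ) : ℤ) : ZMod (ℓ ^ 2)) = ((4 * r ^ 2 : ℤ) : ZMod (ℓ ^ 2)) := by
      have h7 : ((4 * r ^ 2 - 4 * q : ℤ) : ZMod (ℓ ^ 2)) = 0 := by
        rw [← hcast]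
        have h8 : (4 * r ^ 2 - 4 * q : ℤ) = 4 * (r ^ 2 - q) := by ring
        rw [h8]
        exact hr.mul_left 4
      rw [Int.cast_sub, sub_eq_zero] at h7
      exact h7.symm
    rw [h6, sub_self]
  have hne : ¬ (ℓ : ℤ) ^ 2 ∣ R := by
    intro h4
    have h5 : (ℓ : ℤ) ^ 2 ∣ h.eval (2 * r) * h.eval (-(2 * r)) := by
      have := dvd_sub h4 hmod
      rwa [sub_sub_cancel] at this
    have hp : Prime (ℓ : ℤ) := Nat.prime_iff_prime_int.1 hℓ
    have h6 : IsCoprime ((ℓ : ℤ) ^ 2) (h.eval (-(2 * r))) :=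
      IsCoprime.pow_left ((Prime.coprime_iff_not_dvd hp).2 h3)
    exact h2 (h6.dvd_of_dvd_mul_right h5)
  have hdv : (ℓ : ℤ) ∣ R := by
    have h4 : (ℓ : ℤ) ∣ R - h.eval (2 * r) * h.eval (-(2 * r)) :=
      (dvd_pow_self _ two_ne_zero).trans hmod
    have h5 := dvd_add h4 (h1.mul_right (h.eval (-(2 * r))))
    rwa [sub_add_cancel] at h5
  have hR0 : R ≠ 0 := by
    intro h0
    rw [h0] at hne
    exact hne (dvd_zero _)
  have hval : padicValInt ℓ R = 1 := by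
    have h4 : 1 ≤ padicValInt ℓ R := by
      have := (padicValInt_dvd_iff (p := ℓ) 1 R).1 (by rwa [pow_one])
      exact this.resolve_left hR0
    have h5 : ¬ 2 ≤ padicValInt ℓ R := by
      intro h6
      exact hne ((padicValInt_dvd_iff (p := ℓ) 2 R).2 (Or.inr h6))
    omega
  rw [hval]
  exact odd_one

end Pool.Agent.Helper19.Sign
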