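import Pool.Agent.Helper19.Sign.Core

/-!
# The module of relations between the Frobenius eigenvalues
-/

open Finset

namespace Pool.Agent.Helper19.Sign

section

variable {E L S : Type} [Field E] [Field L] [Algebra E L] [Fintype S]
  [MulAction (L ≃ₐ[E] L) S] {ι : S → S} (val : S → Lˣ)

/-- Galois action on units. -/
noncomputable def gu (g : L ≃ₐ[E] L) : Lˣ →* Lˣ := Units.map (g : L →* L)

omit [Fintype S] in
theorem gu_val (hval : ∀ (g : L ≃ₐ[E] L) (x : S), ((val (g • x) : Lˣ) : L) = g (val x : L))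
    (g : L ≃ₐ[E] L) (x : S) : gu g (val x) = val (g • x) := by
  apply Units.ext
  rw [hval]
  rfl

theorem prod_smul_zpow (hval : ∀ (g : L ≃ₐ[E] L) (x : S), ((val (g • x) : Lˣ) : L) = g (val x : L))
    (g : L ≃ₐ[E] L) (n : S → ℤ) : ∏ x, val x ^ n (g⁻¹ • x) = gu g (∏ x, val x ^ n x) := by
  rw [map_prod]
  refine Fintype.prod_equiv (MulAction.toPerm g⁻¹) _ _ fun x => ?_
  rw [map_zpow, MulAction.toPerm_apply, gu_val val hval, smul_inv_smul]

theorem act_mem (hval : ∀ (g : L ≃ₐ[E] L) (x : S), ((val (g • x) : Lˣ) : L) = g (val x : L))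
    (g : L ≃ₐ[E] L) (m : S → ℚ) (hm : m ∈ relMod val) : act g m ∈ relMod val := by
  obtain ⟨k, hk, n, hn, h1⟩ := hm
  refine ⟨k, hk, fun x => n (g⁻¹ • x), fun x => ?_, ?_⟩
  · rw [hn, act_apply]
  · rw [prod_smul_zpow val hval, h1, map_one]

theorem rel_mem (hval : ∀ (g : L ≃ₐ[E] L) (x : S), ((val (g • x) : Lˣ) : L) = g (val x : L))
    (n : S → ℤ) (N : ℕ) (hN : N ≠ 0) (e : E)
    (hrel : (∏ x, (val x : L) ^ n x) ^ N = algebraMap E L e) (g : L ≃ₐ[E] L) :
    (fun x => (n x : ℚ) - n (g • x)) ∈ relMod val := by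
  have h1 : ∏ x, val x ^ n (g • x) = gu g⁻¹ (∏ x, val x ^ n x) := by
    have := prod_smul_zpow val hval g⁻¹ n
    rwa [inv_inv] at this
  have h2 : (((∏ x, val x ^ n x) ^ N : Lˣ) : L) = algebraMap E L e := by
    rw [← hrel, Units.val_pow_eq_pow_val, Units.coe_prod]
    simp only [Units.val_zpow_eq_zpow_val]
  have h3 : (∏ x, val x ^ n (g • x)) ^ N = (∏ x, val x ^ n x) ^ N := by
    rw [h1, ← map_pow]
    apply Units.ext
    show g⁻¹ (((∏ x, val x ^ n x) ^ N : Lˣ) : L) = _
    rw [h2, AlgEquiv.commutes]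
  refine ⟨N, hN, fun x => N * (n x - n (g • x)), fun x => by push_cast; ring, ?_⟩
  have h4 : ∀ x, val x ^ ((N : ℤ) * (n x - n (g • x))) =
      (val x ^ n x) ^ N * ((val x ^ n (g • x)) ^ N)⁻¹ := by
    intro x
    rw [mul_comm, zpow_mul, zpow_sub, zpow_natCast, mul_pow, inv_pow]
  rw [Finset.prod_congr rfl fun x _ => h4 x, Finset.prod_mul_distrib, Finset.prod_pow,
    Finset.prod_inv_distrib, Finset.prod_pow, h3, mul_inv_cancel]

theorem ev_sub_mem {x y : S} (h : ev x - ev y ∈ relMod val) :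
    ∃ k : ℕ, k ≠ 0 ∧ (val x) ^ k = (val y) ^ k := by
  classical
  by_cases hxy : x = y
  · exact ⟨1, one_ne_zero, by rw [hxy]⟩
  obtain ⟨k, hk, n, hn, h1⟩ := h
  refine ⟨k, hk, ?_⟩
  have h2 : ∀ z, n z = if z = x then (k : ℤ) else if z = y then -(k : ℤ) else 0 := by
    intro z
    have h3 := hn z
    rw [Pi.sub_apply, ev_apply, ev_apply] at h3
    by_cases h4 : z = x
    · rw [if_pos h4, if_neg (by rw [h4]; exact hxy)] at h3
      rw [if_pos h4]
      rw [sub_zero, mul_one] at h3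
      exact_mod_cast h3
    · by_cases h5 : z = y
      · rw [if_neg h4, if_pos h5] at h3
        rw [if_neg h4, if_pos h5]
        have h6 : (n z : ℚ) = ((-(k : ℤ) : ℤ) : ℚ) := by rw [h3]; push_cast; ring
        exact_mod_cast h6
      · rw [if_neg h4, if_neg h5] at h3
        rw [if_neg h4, if_neg h5]
        rw [sub_zero, mul_zero] at h3
        exact_mod_cast h3
  have h3 : ∏ z, val z ^ n z = val x ^ (k : ℤ) * val y ^ (-(k : ℤ)) := by
    rw [← Finset.prod_subset (Finset.subset_univ {x, y}), Finset.prod_pair hxy, h2, h2, if_pos rfl,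
      if_neg (fun h => hxy h.symm), if_pos rfl]
    intro z _ hz
    simp only [Finset.mem_insert, Finset.mem_singleton, not_or] at hz
    rw [h2, if_neg hz.1, if_neg hz.2, zpow_zero]
  rw [h3, zpow_neg, zpow_natCast, zpow_natCast, mul_inv_eq_one] at h1
  exact h1

theorem ev_sum_mem {x x' y y' : S} (h : val x * val x' = val y * val y') :
    ev x + ev x' - ev y - ev y' ∈ relMod val := by
  classical
  have h0 : ∀ z : S, ∏ t, val t ^ (Pi.single z (1 : ℤ) : S → ℤ) t = val z := by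
    intro z
    rw [Finset.prod_eq_single z]
    · rw [Pi.single_eq_same, zpow_one]
    · intro t _ ht
      rw [Pi.single_eq_of_ne ht, zpow_zero]
    · intro h; exact absurd (Finset.mem_univ z) h
  have h00 : ∀ z t : S, (((Pi.single z (1 : ℤ) : S → ℤ) t : ℤ) : ℚ) = ev z t := by
    intro z t
    rw [ev_apply, Pi.single_apply]
    split_ifs <;> simp
  refine ⟨1, one_ne_zero, Pi.single x 1 + Pi.single x' 1 - Pi.single y 1 - Pi.single y' 1,
    fun z => ?_, ?_⟩
  · simp only [Pi.add_apply, Pi.sub_apply, Int.cast_sub, Int.cast_add, h00]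
    ring
  · have h4 : ∀ t, val t ^ ((Pi.single x (1 : ℤ) + Pi.single x' 1 - Pi.single y 1 - Pi.single y' 1 :
        S → ℤ) t) = val t ^ (Pi.single x (1 : ℤ) : S → ℤ) t * val t ^ (Pi.single x' (1 : ℤ) : S → ℤ) t *
        (val t ^ (Pi.single y (1 : ℤ) : S → ℤ) t)⁻¹ * (val t ^ (Pi.single y' (1 : ℤ) : S → ℤ) t)⁻¹ := by
      intro t
      simp only [Pi.add_apply, Pi.sub_apply, zpow_sub, zpow_add]
    rw [Finset.prod_congr rfl fun t _ => h4 t, Finset.prod_mul_distrib, Finset.prod_mul_distrib,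
      Finset.prod_mul_distrib, Finset.prod_inv_distrib, Finset.prod_inv_distrib, h0, h0, h0, h0, h,
      mul_assoc (val y * val y'), ← mul_inv, mul_inv_cancel]

theorem sum_val_eq_zero (v : L → ℚ) (hv : ∀ x y : L, x ≠ 0 → y ≠ 0 → v (x * y) = v x + v y)
    {u : S → ℚ} (hu : u ∈ relMod val) : ∑ x, u x * v (val x : L) = 0 := by
  obtain ⟨k, hk, n, hn, h1⟩ := hu
  let φ : Lˣ →* Multiplicative ℚ :=
    { toFun := fun x => Multiplicative.ofAdd (v (x : L))
      map_one' := by
        have h4 := hv 1 1 one_ne_zero one_ne_zero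
        rw [mul_one] at h4
        have h5 : v 1 = 0 := by linarith
        rw [Units.val_one, h5]; rfl
      map_mul' := by
        intro x y
        rw [Units.val_mul, hv _ _ x.ne_zero y.ne_zero]; rfl }
  have h2 := congrArg φ h1
  rw [map_prod, map_one] at h2
  have h3 : ∑ x, (n x : ℚ) * v (val x : L) = 0 := by
    have h4 : Multiplicative.toAdd (∏ x, φ (val x ^ n x)) = 0 := by rw [h2]; rfl
    rw [toAdd_prod] at h4
    rw [← h4]
    refine Finset.sum_congr rfl fun x _ => ?_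
    rw [map_zpow, toAdd_zpow, zsmul_eq_mul]
    rfl
  have h5 : (k : ℚ) * ∑ x, u x * v (val x : L) = 0 := by
    rw [← h3, Finset.mul_sum]
    refine Finset.sum_congr rfl fun x _ => ?_
    rw [hn]; ring
  have h6 : (k : ℚ) ≠ 0 := by exact_mod_cast hk
  exact (mul_eq_zero.1 h5).resolve_left h6

end

end Pool.Agent.Helper19.Sign
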