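import Pool.Agent.Helper19.Sign.Abs
import Pool.Agent.Helper19.Sign.Rel
import Pool.Agent.Helper19.Disc.Main

/-!
# Theorem A: exotic classes force a small Galois group
-/

open Polynomial Finset

namespace Pool.Agent.Helper19.Sign

section parity

variable {G S : Type} [Group G] [MulAction G S] [Fintype S] {ι : S → S}

open Classical in
theorem four_dvd (b : ℕ) (hb : Even b) (hcard : ∀ x : S, (blk G ι x).card = 2 * b)
    (σ : G) (hσ : InCore ι σ) : 4 ∣ (univ.filter fun x : S => σ • x ≠ x).card := by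
  set F := univ.filter fun x : S => σ • x ≠ x with hF
  have h1 : ∀ B ∈ F.image (blk G ι), (F.filter fun x => blk G ι x = B).card = 2 * b := by
    intro B hB
    obtain ⟨x, hx, rfl⟩ := mem_image.1 hB
    rw [← hcard x]
    congr 1
    ext y
    rw [mem_filter]
    constructor
    · rintro ⟨_, h⟩
      rw [← h]; exact self_mem_blk y
    · intro h
      refine ⟨?_, blk_eq_of_mem h⟩
      rw [hF, mem_filter] at hx ⊢
      refine ⟨mem_univ _, fun h2 => hx.2 ?_⟩
      exact ((mem_blk.1 h) σ hσ).2 h2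
  have h2 : F.card = (F.image (blk G ι)).card * (2 * b) := by
    rw [card_eq_sum_card_image (blk G ι) F, sum_congr rfl h1, sum_const, smul_eq_mul]
  rw [h2]
  obtain ⟨b', hb'⟩ := hb
  exact ⟨(F.image (blk G ι)).card * b', by rw [hb']; ring⟩

theorem exists_sgn (hι : ∀ x, ι (ι x) = x) (hfix : ∀ x, ι x ≠ x) :
    ∃ U : S → ℤ, (∀ x, U x ≠ 0) ∧ ∀ x, U (ι x) = - U x := by
  classical
  obtain ⟨e⟩ : Nonempty (S ≃ Fin (Fintype.card S)) := ⟨Fintype.equivFin S⟩
  refine ⟨fun x => if e x < e (ι x) then 1 else -1, fun x => ?_, fun x => ?_⟩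
  · show (if e x < e (ι x) then (1 : ℤ) else -1) ≠ 0
    split_ifs <;> norm_num
  · simp only [hι]
    have h1 : e x ≠ e (ι x) := fun h => hfix x (e.injective h).symm
    rcases lt_or_gt_of_ne h1 with h | h
    · rw [if_neg (not_lt.2 h.le), if_pos h]
    · rw [if_pos h, if_neg (not_lt.2 h.le)]; norm_num

open Classical in
/-- If the blocks have `2 b` elements, `b` even, the product of an odd function over representatives
of the pairs is fixed by the core. -/
theorem prod_fixed (hι : ∀ x, ι (ι x) = x)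
    (hcomm : ∀ (g : G) (x : S), g • ι x = ι (g • x)) (b : ℕ) (hb : Even b)
    (hcard : ∀ x : S, (blk G ι x).card = 2 * b) (U : S → ℤ) (hU0 : ∀ x, U x ≠ 0)
    (hUι : ∀ x, U (ι x) = - U x) {A : Type} [CommRing A] (F : S → A)
    (hF : ∀ x, F (ι x) = - F x) (σ : G) (hσ : InCore ι σ) :
    ∏ x ∈ univ.filter (fun x => 0 < U x), F (σ • x) = ∏ x ∈ univ.filter (fun x => 0 < U x), F x := by
  have h1 : ∀ x, F (σ • x) = (if σ • x ≠ x then (-1 : A) else 1) * F x := by
    intro x
    by_cases h : σ • x = x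
    · rw [if_neg (by simpa using h), h, one_mul]
    · rw [if_pos h, (hσ x).resolve_left h, hF]; ring
  rw [prod_congr rfl fun x _ => h1 x, prod_mul_distrib]
  have h2 : ∏ x ∈ univ.filter (fun x => 0 < U x), (if σ • x ≠ x then (-1 : A) else 1) = 1 := by
    rw [prod_ite, prod_const, prod_const_one, mul_one]
    have h3 : ((univ.filter fun x : S => σ • x ≠ x)).card =
        2 * ((univ.filter fun x : S => σ • x ≠ x).filter (fun x => 0 < U x)).card := by
      refine Disc.card_pair hι U hU0 hUι _ ?_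
      intro x hx
      rw [mem_filter] at hx ⊢
      refine ⟨mem_univ _, fun h => hx.2 ?_⟩
      rw [hcomm] at h
      have := congrArg ι h
      rwa [hι, hι] at this
    have h4 : ((univ.filter fun x : S => 0 < U x).filter (fun x => σ • x ≠ x)) =
        ((univ.filter fun x : S => σ • x ≠ x).filter (fun x => 0 < U x)) := by
      ext x
      simp only [mem_filter, mem_univ, true_and]
      tauto
    rw [h4]
    have h5 := four_dvd b hb hcard σ hσ
    rw [h3] at h5
    apply Even.neg_one_pow
    obtain ⟨t, ht⟩ := h5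
    exact ⟨t, by omega⟩
  rw [h2, one_mul]

end parity

section

open Disc (roots Rt mem_roots' stab_roots roots_map_eq exists_conj)

theorem theoremA (E L : Type) [Field E] [CharZero E] [Field L] [Algebra E L]
    [FiniteDimensional E L] [IsGalois E L] (Q : E[X]) (hirr : Irreducible Q)
    [Q.IsSplittingField E L] (g : ℕ) (hdeg : Q.natDegree = 2 * g) (c : E) (hc : c ≠ 0)
    (hsym : ∀ β ∈ roots Q L, algebraMap E L c / β ∈ roots Q L)
    (hsimple : ∀ β ∈ roots Q L, ∀ β' ∈ roots Q L, ∀ N : ℕ, 0 < N → β ^ N = β' ^ N → β = β')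
    (K : IntermediateField E L)
    (hK : K = IntermediateField.adjoin E {a | ∃ β ∈ roots Q L, a = β + algebraMap E L c / β})
    (hd1 : 1 < Module.finrank K L)
    (hcase : ∀ b, b ∣ g → b = 1 ∨ b = 2 ∨ (b.Prime ∧ ∃ (v : L → ℚ) (ρ : ℚ), ρ ≠ 0 ∧
      (∀ x y : L, x ≠ 0 → y ≠ 0 → v (x * y) = v x + v y) ∧
      ∀ β ∈ roots Q L, padicNorm 2 (v β - v (algebraMap E L c) / 2) = ρ) ∨
      2 ^ (g / b) < Module.finrank K L ∨
      (Even b ∧ ¬ ∃ y ∈ K, y ^ 2 = algebraMap E L ((-c) ^ g * Q.resultant (X ^ 2 - C c))))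
    (n : L → ℤ) (N : ℕ) (hN : N ≠ 0) (e : E)
    (hrel : (∏ β ∈ roots Q L, β ^ n β) ^ N = algebraMap E L e) :
    ∀ β ∈ roots Q L, n β = n (algebraMap E L c / β) := by
  classical
  intro β₀ hβ₀
  have hPne : Q ≠ 0 := hirr.ne_zero
  have hsplit : (Q.map (algebraMap E L)).Splits := IsSplittingField.splits L Q
  set c' : L := algebraMap E L c with hc'
  have hc0 : c' ≠ 0 := by
    rw [hc']
    intro h
    exact hc ((map_eq_zero _).1 h)
  have hg0 : 0 < g := by
    have := hirr.natDegree_pos
    omega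
  have hne0 : ∀ β ∈ roots Q L, β ≠ 0 := by
    rintro β hβ rfl
    have h1 : aeval (0 : L) Q = 0 := (mem_roots' hPne).1 hβ
    rw [aeval_def, eval₂_at_zero, map_eq_zero] at h1
    have h2 : X ∣ Q := X_dvd_iff.2 h1
    have h3 : Associated X Q := (irreducible_X.associated_of_dvd hirr h2)
    have h4 := Polynomial.degree_eq_degree_of_associated h3
    have h5 : Q.natDegree = 1 := by
      rw [← natDegree_X (R := E)]
      exact (natDegree_eq_natDegree h4).symm
    omega
  let S : Type := Rt L Q
  let G : Type := L ≃ₐ[E] L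
  let act' : MulAction G S := Disc.actRt hPne
  have hact : ∀ (σ : G) (x : S), (σ • x).1 = σ x.1 := fun _ _ => rfl
  have hx0 : ∀ x : S, x.1 ≠ 0 := fun x => hne0 x.1 x.2
  let ι : S → S := fun x => ⟨c' / x.1, hsym x.1 x.2⟩
  have hι' : ∀ x : S, (ι x).1 = c' / x.1 := fun _ => rfl
  have hι : ∀ x : S, ι (ι x) = x := by
    intro x
    apply Subtype.ext
    show c' / (c' / x.1) = x.1
    rw [div_div_cancel₀ hc0]
  have hcomm : ∀ (g : G) (x : S), g • ι x = ι (g • x) := by
    intro g x
    apply Subtype.ext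
    show g (c' / x.1) = c' / g x.1
    rw [map_div₀, hc', AlgEquiv.commutes]
  have htr : ∀ x y : S, ∃ σ : G, σ • x = y := by
    intro x y
    obtain ⟨σ, hσ⟩ := exists_conj hirr x y
    exact ⟨σ, Subtype.ext hσ⟩
  have hcardS : Fintype.card S = 2 * g := by
    rw [← hdeg, ← (roots_map_eq hirr hsplit).2]
    exact Fintype.card_coe (roots Q L)
  have hfix : ∀ x : S, ι x ≠ x := by
    intro x hx
    have h1 : x.1 ^ 2 = c' := by
      have h2 := congrArg Subtype.val hx
      rw [hι'] at h2
      rw [div_eq_iff (hx0 x)] at h2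
      rw [h2]; ring
    have h3 : ∀ y : S, y = x := by
      intro y
      obtain ⟨σ, hσ⟩ := htr x y
      apply Subtype.ext
      refine hsimple _ y.2 _ x.2 2 (by norm_num) ?_
      rw [h1, ← hσ, hact, ← map_pow, h1, hc', AlgEquiv.commutes]
    have h4 : Fintype.card S ≤ 1 := Fintype.card_le_one_iff.2 fun a b => by rw [h3 a, h3 b]
    omega
  have hfaith : ∀ σ : G, (∀ x : S, σ • x = x) → σ = 1 := by
    intro σ hσ
    have h1 : Algebra.adjoin E (Q.rootSet L) = ⊤ := IsSplittingField.adjoin_rootSet L Q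
    have h2 : (σ : L →ₐ[E] L) = AlgHom.id E L := by
      apply AlgHom.ext_of_adjoin_eq_top h1
      intro β hβ
      have h3 : β ∈ roots Q L := by
        rw [mem_roots' hPne]
        exact (mem_rootSet.1 hβ).2
      exact congrArg Subtype.val (hσ ⟨β, h3⟩)
    ext x
    exact DFunLike.congr_fun h2 x
  -- the core
  have hcore : ∀ σ : G, InCore ι σ ↔ σ ∈ K.fixingSubgroup := by
    intro σ
    constructor
    · intro h
      rw [IntermediateField.mem_fixingSubgroup_iff]
      have h1 : K ≤ IntermediateField.fixedField (Subgroup.zpowers σ) := by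
        rw [hK, IntermediateField.adjoin_le_iff]
        rintro a ⟨β, hβ, rfl⟩
        rw [SetLike.mem_coe, IntermediateField.mem_fixedField_iff]
        intro τ hτ
        have h2 : σ (β + c' / β) = β + c' / β := by
          have h3 := h ⟨β, hβ⟩
          have hb0 := hne0 β hβ
          rcases h3 with h3 | h3
          · have h4 : σ β = β := congrArg Subtype.val h3
            rw [map_add, map_div₀, h4, hc', AlgEquiv.commutes]
          · have h4 : σ β = c' / β := congrArg Subtype.val h3
            rw [map_add, map_div₀, h4, hc', AlgEquiv.commutes, ← hc', div_div_cancel₀ hc0]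
            ring
        have h5 : σ ∈ MulAction.stabilizer G (β + c' / β) := h2
        exact (Subgroup.zpowers_le.2 h5) hτ
      intro x hx
      exact (IntermediateField.mem_fixedField_iff _ _).1 (h1 hx) σ (Subgroup.mem_zpowers σ)
    · intro h x
      rw [IntermediateField.mem_fixingSubgroup_iff] at h
      have h1 : x.1 + c' / x.1 ∈ K := by
        rw [hK]
        exact IntermediateField.subset_adjoin _ _ ⟨x.1, x.2, rfl⟩
      have h2 := h _ h1
      rw [map_add, map_div₀, hc', AlgEquiv.commutes, ← hc'] at h2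
      have hx := hx0 x
      have hx' : σ x.1 ≠ 0 := (map_ne_zero σ).2 hx
      have h3 : (σ x.1 - x.1) * (σ x.1 - c' / x.1) = 0 := by
        field_simp at h2 ⊢
        linear_combination h2
      rcases mul_eq_zero.1 h3 with h4 | h4
      · exact Or.inl (Subtype.ext (sub_eq_zero.1 h4))
      · exact Or.inr (Subtype.ext (sub_eq_zero.1 h4))
  have hcardcore : Nat.card {σ : G // InCore ι σ} = Module.finrank K L := by
    rw [← IsGalois.card_fixingSubgroup_eq_finrank K]
    exact Nat.card_congr (Equiv.subtypeEquivRight hcore)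
  -- a core element which moves `x₀`
  let x₀ : S := ⟨β₀, hβ₀⟩
  obtain ⟨σ₀, hσ₀, hσx⟩ : ∃ σ₀ : G, InCore ι σ₀ ∧ σ₀ • x₀ ≠ x₀ := by
    by_contra hcon
    push Not at hcon
    have h1 : ∀ σ : G, InCore ι σ → σ = 1 := by
      intro σ hσ
      apply hfaith
      intro x
      obtain ⟨τ, hτ⟩ := htr x x₀
      have h2 := hcon _ (inCore_conj hcomm hσ τ)
      rw [← hτ, smul_smul, inv_mul_cancel_right, mul_smul] at h2
      exact MulAction.injective τ h2
    have h3 : Nat.card {σ : G // InCore ι σ} ≤ 1 := by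
      have : Subsingleton {σ : G // InCore ι σ} := by
        refine ⟨fun a b => Subtype.ext ?_⟩
        rw [h1 a.1 a.2, h1 b.1 b.2]
      exact Finite.card_le_one_iff_subsingleton.2 inferInstance
    rw [hcardcore] at h3
    omega
  -- counting
  obtain ⟨k, hk1, hk2⟩ := count hι hcomm htr hfaith x₀
  obtain ⟨U, hU0, hUι⟩ := exists_sgn hι hfix
  have hBι : ∀ x ∈ blk G ι x₀, ι x ∈ blk G ι x₀ := fun x hx => ι_mem_blk hι hcomm hx
  have hev := Disc.card_pair hι U hU0 hUι (blk G ι x₀) hBι
  set b := ((blk G ι x₀).filter (fun x => 0 < U x)).card with hb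
  have hbk : g = k * b := by
    rw [hcardS, hev] at hk1
    have : 2 * g = 2 * (k * b) := by rw [hk1]; ring
    omega
  have hb0 : 0 < b := by
    rcases Nat.eq_zero_or_pos b with h | h
    · rw [h, mul_zero] at hbk; omega
    · exact h
  have hbg : b ∣ g := ⟨k, by rw [hbk]; ring⟩
  have hgb : g / b = k := by
    rw [hbk, Nat.mul_div_cancel _ hb0]
  have hcardall : ∀ x : S, (blk G ι x).card = 2 * b := by
    intro x
    obtain ⟨τ, hτ⟩ := htr x₀ x
    rw [← hτ, card_blk_smul hcomm, hev]
  -- the relations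
  let val : S → Lˣ := fun x => Units.mk0 x.1 (hx0 x)
  have hval : ∀ (g : G) (x : S), ((val (g • x) : Lˣ) : L) = g (val x : L) := fun _ _ => rfl
  have hprodS : ∏ β ∈ roots Q L, β ^ n β = ∏ x : S, (val x : L) ^ n x.1 := by
    exact (Finset.prod_coe_sort (roots Q L) fun β => β ^ n β).symm
  rw [hprodS] at hrel
  have hW : ∀ g : G, ∀ m ∈ relMod val, act g m ∈ relMod val := fun g m hm =>
    act_mem val hval g m hm
  have hn := rel_mem val hval (fun x => n x.1) N hN e hrel
  have hsum : ∀ x y, ev x + ev (ι x) - ev y - ev (ι y) ∈ relMod val := by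
    intro x y
    apply ev_sum_mem
    apply Units.ext
    show x.1 * (c' / x.1) = y.1 * (c' / y.1)
    rw [mul_div_cancel₀ _ (hx0 x), mul_div_cancel₀ _ (hx0 y)]
  have habs : ∀ x y, ev x - ev y ∈ relMod val → x = y := by
    intro x y h
    obtain ⟨k, hk, h1⟩ := ev_sub_mem val h
    apply Subtype.ext
    refine hsimple _ x.2 _ y.2 k (Nat.pos_of_ne_zero hk) ?_
    exact congrArg Units.val h1
  have hgoal : ∀ _h : b = 1 ∨ b = 2 ∨ (b.Prime ∧ ∃ w : S → ℚ, (∀ x, w (ι x) = - w x) ∧
      (∀ u ∈ relMod val, (∀ x, u (ι x) = - u x) → ∑ x, u x * w x = 0) ∧ ∃ ρ : ℚ, ρ ≠ 0 ∧ ∀ x, padicNorm 2 (w x) = ρ),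
      n β₀ = n (c' / β₀) := by
    intro h
    have h1 := abs_main hι hfix hcomm htr hW hsum habs (fun x => (n x.1 : ℚ)) hn x₀ σ₀ hσ₀ hσx b
      hev h
    exact_mod_cast h1
  rcases hcase b hbg with h | h | ⟨h, v, ρ, hρ, hv, hvρ⟩ | h | ⟨h, h'⟩
  · exact hgoal (Or.inl h)
  · exact hgoal (Or.inr (Or.inl h))
  · refine hgoal (Or.inr (Or.inr ⟨h, fun x => v x.1 - v c' / 2, ?_, ?_, ρ, hρ, ?_⟩))
    · intro x
      have h4 := hv (c' / x.1) x.1 (div_ne_zero hc0 (hx0 x)) (hx0 x)
      rw [div_mul_cancel₀ _ (hx0 x)] at h4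
      show v (c' / x.1) - v c' / 2 = -(v x.1 - v c' / 2)
      linarith
    · intro u hu hanti
      have h1 := sum_val_eq_zero val v hv hu
      have h2 : ∑ x, u x = 0 := by
        have h3 : ∑ x, u x = ∑ x, u (ι x) :=
          (Fintype.sum_equiv ⟨ι, ι, hι, hι⟩ _ _ fun x => rfl).symm
        have h4 : ∑ x, u (ι x) = - ∑ x, u x := by
          rw [← Finset.sum_neg_distrib]
          exact Finset.sum_congr rfl fun x _ => hanti x
        rw [h4] at h3
        linarith
      have h3 : ∑ x, u x * (v x.1 - v c' / 2) = ∑ x, u x * v (val x : L) -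
          (∑ x, u x) * (v c' / 2) := by
        rw [Finset.sum_mul, ← Finset.sum_sub_distrib]
        refine Finset.sum_congr rfl fun x _ => ?_
        show u x * (v x.1 - v c' / 2) = u x * v x.1 - u x * (v c' / 2)
        ring
      rw [h3, h1, h2]
      ring
    · intro x
      exact hvρ x.1 x.2
  · exfalso
    rw [hgb, ← hcardcore] at h
    omega
  · exfalso
    apply h'
    let F : S → L := fun x => x.1 - c' / x.1
    have hF : ∀ x, F (ι x) = - F x := by
      intro x
      show c' / x.1 - c' / (c' / x.1) = -(x.1 - c' / x.1)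
      rw [div_div_cancel₀ hc0]; ring
    have hFg : ∀ (g : G) (x : S), F (g • x) = g (F x) := by
      intro g x
      show g x.1 - c' / g x.1 = g (x.1 - c' / x.1)
      rw [map_sub, map_div₀, hc', AlgEquiv.commutes]
    let δ : L := ∏ x ∈ univ.filter (fun x : S => 0 < U x), F x
    have hδ : δ ∈ K := by
      have h1 : δ ∈ IntermediateField.fixedField K.fixingSubgroup := by
        rw [IntermediateField.mem_fixedField_iff]
        intro σ hσ
        have h2 := prod_fixed hι hcomm b h hcardall U hU0 hUι F hF σ ((hcore σ).2 hσ)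
        show σ (∏ x ∈ univ.filter (fun x : S => 0 < U x), F x) =
          ∏ x ∈ univ.filter (fun x : S => 0 < U x), F x
        rw [map_prod]
        refine Eq.trans ?_ h2
        exact Finset.prod_congr rfl fun x _ => (hFg σ x).symm
      rwa [IsGalois.fixedField_fixingSubgroup] at h1
    have hlead : algebraMap E L (Q.leadingCoeff * c ^ g) ∈ K := K.algebraMap_mem _
    refine ⟨algebraMap E L (Q.leadingCoeff * c ^ g) * δ, K.mul_mem hlead hδ, ?_⟩
    have h3 := Disc.card_pair hι U hU0 hUι univ fun x _ => mem_univ _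
    have h4 : (univ.filter (fun x : S => 0 < U x)).card = g := by
      rw [card_univ, hcardS] at h3
      omega
    have h5 : ∏ β ∈ roots Q L, (β ^ 2 - c') = ∏ x : S, (x.1 ^ 2 - c') :=
      (Finset.prod_coe_sort (roots Q L) fun β => β ^ 2 - c').symm
    have h6 := Disc.map_resultant hirr hsplit c
    rw [← hc', h5, Disc.prod_pair hι U hU0 hUι univ (fun x _ => mem_univ _)
      (fun x => x.1 ^ 2 - c')] at h6
    have h7 : algebraMap E L ((-c) ^ g * Q.resultant (X ^ 2 - C c)) =
        (-c') ^ g * algebraMap E L (Q.resultant (X ^ 2 - C c)) := by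
      rw [map_mul, map_pow, map_neg, ← hc']
    have h8 : algebraMap E L (Q.leadingCoeff * c ^ g) = algebraMap E L Q.leadingCoeff * c' ^ g := by
      rw [map_mul, map_pow, ← hc']
    rw [h7, h6, h8, ← h4, ← Finset.prod_const, ← Finset.prod_const, mul_assoc, mul_pow,
      mul_left_comm]
    congr 1
    rw [← Finset.prod_mul_distrib, ← Finset.prod_mul_distrib, ← Finset.prod_pow]
    refine Finset.prod_congr rfl fun x _ => ?_
    show (c' * (x.1 - c' / x.1)) ^ 2 = -c' * ((x.1 ^ 2 - c') * ((c' / x.1) ^ 2 - c'))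
    have h8 := hx0 x
    field_simp
    ring

end

end Pool.Agent.Helper19.Sign
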