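import Pool.Agent.Helper19.Sign.Core

/-!
# The abstract theorem
-/

open Finset

namespace Pool.Agent.Helper19.Sign

variable {G S : Type} [Group G] [MulAction G S] [Fintype S] {ι : S → S}
  {W : Submodule ℚ (S → ℚ)}

open Classical in
/-- The relation restricted to the block of `x₀`. -/
theorem exists_block_rel [Finite G] (hι : ∀ x, ι (ι x) = x)
    (hcomm : ∀ (g : G) (x : S), g • ι x = ι (g • x)) (hW : ∀ g : G, ∀ m ∈ W, act g m ∈ W)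
    (n : S → ℚ) (hn : ∀ g : G, (fun x => n x - n (g • x)) ∈ W) (x₀ : S) (σ₀ : G)
    (hσ₀ : InCore ι σ₀) (hx₀ : σ₀ • x₀ ≠ x₀) :
    ∃ u ∈ W, (∀ x, u (ι x) = - u x) ∧ (∀ x, x ∉ blk G ι x₀ → u x = 0) ∧
      u x₀ = n x₀ - n (ι x₀) := by
  refine ⟨_, blk_mem W hι hcomm hW n hn x₀ σ₀ hσ₀ hx₀, ?_, ?_, ?_⟩
  · intro x
    have h1 : ι x ∈ blk G ι x₀ ↔ x ∈ blk G ι x₀ := by
      constructor
      · intro h
        have := ι_mem_blk hι hcomm h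
        rwa [hι] at this
      · intro h
        exact ι_mem_blk hι hcomm h
    simp only [h1, hι]
    split_ifs
    · ring
    · ring
  · intro x hx
    exact if_neg hx
  · exact if_pos (self_mem_blk x₀)

/-- Blocks with two elements. -/
theorem abs_one [Finite G] (hι : ∀ x, ι (ι x) = x) (hfix : ∀ x, ι x ≠ x)
    (hcomm : ∀ (g : G) (x : S), g • ι x = ι (g • x)) (hW : ∀ g : G, ∀ m ∈ W, act g m ∈ W)
    (n : S → ℚ) (hn : ∀ g : G, (fun x => n x - n (g • x)) ∈ W) (x₀ : S) (σ₀ : G)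
    (hσ₀ : InCore ι σ₀) (hx₀ : σ₀ • x₀ ≠ x₀) (hcard : (blk G ι x₀).card = 2)
    (habs : av ι x₀ ∉ W) : n x₀ = n (ι x₀) := by
  obtain ⟨u, hu, hanti, hsupp, hu0⟩ := exists_block_rel hι hcomm hW n hn x₀ σ₀ hσ₀ hx₀
  have := case_one hι hfix (blk G ι x₀) x₀ (self_mem_blk x₀) (fun x hx => ι_mem_blk hι hcomm hx)
    hcard u hu hanti hsupp habs
  rw [hu0] at this
  linarith

/-- Small and prime blocks. -/
theorem abs_main [Finite G] (hι : ∀ x, ι (ι x) = x) (hfix : ∀ x, ι x ≠ x)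
    (hcomm : ∀ (g : G) (x : S), g • ι x = ι (g • x)) (htr : ∀ x y : S, ∃ g : G, g • x = y)
    (hW : ∀ g : G, ∀ m ∈ W, act g m ∈ W)
    (hsum : ∀ x y, ev x + ev (ι x) - ev y - ev (ι y) ∈ W)
    (habs : ∀ x y, ev x - ev y ∈ W → x = y)
    (n : S → ℚ) (hn : ∀ g : G, (fun x => n x - n (g • x)) ∈ W) (x₀ : S) (σ₀ : G)
    (hσ₀ : InCore ι σ₀) (hx₀ : σ₀ • x₀ ≠ x₀) (b : ℕ) (hb : (blk G ι x₀).card = 2 * b)
    (hcase : b = 1 ∨ b = 2 ∨ (b.Prime ∧ ∃ w : S → ℚ, (∀ x, w (ι x) = - w x) ∧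
      (∀ u ∈ W, (∀ x, u (ι x) = - u x) → ∑ x, u x * w x = 0) ∧ ∃ ρ : ℚ, ρ ≠ 0 ∧ ∀ x, padicNorm 2 (w x) = ρ)) :
    n x₀ = n (ι x₀) := by
  classical
  obtain ⟨u, hu, hanti, hsupp, hu0⟩ := exists_block_rel hι hcomm hW n hn x₀ σ₀ hσ₀ hx₀
  have hBι : ∀ x ∈ blk G ι x₀, ι x ∈ blk G ι x₀ := fun x hx => ι_mem_blk hι hcomm hx
  have hBg : ∀ g : G, g • x₀ ∈ blk G ι x₀ → ∀ x ∈ blk G ι x₀, g • x ∈ blk G ι x₀ := by
    intro g hg x hx
    have h1 := smul_mem_blk hcomm hx g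
    rwa [blk_eq_of_mem hg] at h1
  have key : u x₀ = 0 := by
    by_cases h1 : b = 1
    · exact case_one hι hfix _ x₀ (self_mem_blk x₀) hBι (by rw [hb, h1]) u hu hanti hsupp
        (av_notMem hfix habs x₀)
    · by_cases h2 : b = 2
      · exact case_two hι hfix hcomm hW hsum habs _ x₀ (self_mem_blk x₀) hBι hBg
          (fun y _ => htr x₀ y) (by rw [hb, h2]) u hu hanti hsupp
      · obtain ⟨hr, w, hw, hwW, ρ, hρ, hwρ⟩ := (hcase.resolve_left h1).resolve_left h2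
        exact case_prime hι hfix hcomm hW hsum habs _ x₀ (self_mem_blk x₀) hBι hBg
          (fun y _ => htr x₀ y) b hr h2 hb w hw hwW ρ hρ (fun x _ => hwρ x) u hu hanti hsupp
  rw [hu0] at key
  linarith

end Pool.Agent.Helper19.Sign
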