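import Pool.Agent.Helper19.Sign.Count
import Pool.Agent.Helper19.Disc.Core
import Pool.Agent.Helper19.Disc.Scale
import Pool.Agent.Helper66.NT.Half

/-!
# SG-17: blocks of 2-power size (MP_de89cc_ag, sign codes)

PROOF.  Let `B = blk G ι x₀`, `G_B` its stabiliser: the subgroup of the `g` with
`g • x₀ ∈ B` (then `g` maps `B` onto `B`: `smul_mem_blk`, `blk_eq_of_mem`, see `Abs.abs_main`).
`G_B` is transitive on `B` (`htr`: `g • x₀ = y` for `y ∈ B`, then `g ∈ G_B`).  Let `P` be a Sylow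
2-subgroup of `G_B`: transitive on `B`, `B` has `2 ^ (k + 1)` elements
(`Pool.Agent.Helper66.NT.sylow_transitive`, used in `Disc.Main.sylow_conj`).
Scaling as in the hand-in DiscriminantCriterion: `Disc.exists_odd_scaling` (file Disc/Scale.lean)
applied to the group `P` and the `P`-set `B` (the subtype), `w` restricted to `B`, gives odd
integers `U x` (`x ∈ B`) and `m'`; `Disc.exists_even_set` gives `Y ⊆ B` nonempty, stable under `ι` and
`P`, such that every `g ∈ P` acts evenly on `Y`; `Y = B` because `P` is transitive.  (The hypothesis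
`u ≠ 0`, `u` antisymmetric, supported on `B`, `∑ u x * w (g • x) = 0`.)
Let `T = {x ∈ B : U x > 0}`, `δ = ∏ x ∈ T, F x`.  By `Disc.prod_even` (for the `P`-set `B`)
`g • δ = δ` for `g ∈ P`.  For `g ∈ G_B`, `(g • δ) ^ 2 = δ ^ 2`, so `g • δ = ± δ`; the elements of
`G_B` fixing `δ` form a subgroup of index at most 2 containing `P`, and the index of `P` is odd.
For every block `B' = blk G ι y` choose `g_{B'}` with `g_{B'} • x₀ ∈ B'` (`htr`) and put
`γ = ∏ over the blocks B' of g_{B'} • δ`.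
-/

open Finset

namespace Pool.Agent.Helper19.Sign

namespace PowTwo

theorem padicVal_eq {a b : ℚ} {ρ : ℚ} (hρ : ρ ≠ 0) (ha : padicNorm 2 a = ρ)
    (hb : padicNorm 2 b = ρ) : padicValRat 2 a = padicValRat 2 b := by
  have ha0 : a ≠ 0 := by
    rintro rfl
    rw [padicNorm.zero] at ha
    exact hρ ha.symm
  have hb0 : b ≠ 0 := by
    rintro rfl
    rw [padicNorm.zero] at hb
    exact hρ hb.symm
  rw [padicNorm.eq_zpow_of_nonzero ha0] at ha
  rw [padicNorm.eq_zpow_of_nonzero hb0, ← ha] at hb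
  have h1 := zpow_right_injective₀ (a := ((2 : ℕ) : ℚ)) (by norm_num) (by norm_num) hb
  have h2 : - padicValRat 2 b = - padicValRat 2 a := h1
  omega

/-- The block: a transitive set of `2 * 2 ^ k` elements. -/
theorem block {K B : Type} [Group K] [Finite K] [MulAction K B] [Fintype B] {ι : B → B}
    (hι : ∀ x, ι (ι x) = x)
    (hcomm : ∀ (g : K) (x : B), g • ι x = ι (g • x)) (htr : ∀ x y : B, ∃ g : K, g • x = y)
    (k : ℕ) (hcard : Fintype.card B = 2 * 2 ^ k)
    (w : B → ℚ) (hw : ∀ x, w (ι x) = - w x) (ρ : ℚ) (hρ : ρ ≠ 0)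
    (hwρ : ∀ x, padicNorm 2 (w x) = ρ)
    (u : B → ℤ) (hu : u ≠ 0) (hanti : ∀ x, u (ι x) = - u x)
    (hrel : ∀ g : K, ∑ x, (u x : ℚ) * w (g • x) = 0)
    {A : Type} [Field A] [MulSemiringAction K A]
    (F : B → A) (hF : ∀ x, F (ι x) = - F x) (hF0 : ∀ x, F x ≠ 0)
    (hFg : ∀ (g : K) (x : B), F (g • x) = g • F x) :
    ∃ δ : A, (∀ g : K, g • δ = δ) ∧ δ ^ 2 = (-1) ^ (2 ^ k) * ∏ x, F x := by
  classical
  obtain ⟨P⟩ : Nonempty (Sylow 2 K) := inferInstance
  have : MulAction.IsPretransitive K B := ⟨htr⟩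
  have hcard' : Nat.card B = 2 ^ (k + 1) := by
    rw [Nat.card_eq_fintype_card, hcard, pow_succ, mul_comm]
  have hw0 : ∀ x, w x ≠ 0 := by
    intro x hx
    have h1 := hwρ x
    rw [hx, padicNorm.zero] at h1
    exact hρ h1.symm
  obtain ⟨U, m', hUodd, hUι, hm'ι, hm'0, hm'rel⟩ := Disc.exists_odd_scaling
    (G := (P : Subgroup K)) (ι := ι) w hw hw0
    (fun g x => padicVal_eq hρ (hwρ _) (hwρ _)) u hu hanti (fun g => hrel g.1)
  have hU0 : ∀ x, U x ≠ 0 := by
    intro x h
    have := hUodd x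
    rw [h] at this
    exact absurd this (by decide)
  obtain ⟨Y, hYne, hYι, hYP, hYev⟩ := Disc.exists_even_set (P := (P : Subgroup K)) P.isPGroup' hι
    (fun g x => hcomm g.1 x) U hUodd hUι m' hm'ι hm'0 hm'rel
  have hY : Y = univ := by
    apply eq_univ_of_forall
    intro y
    obtain ⟨x, hx⟩ := hYne
    obtain ⟨g, hg, h⟩ := Pool.Agent.Helper66.NT.sylow_transitive hcard' P x y
    have h3 := hYP ⟨g, hg⟩ x hx
    have h4 : (⟨g, hg⟩ : (P : Subgroup K)) • x = y := h
    rwa [h4] at h3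
  subst hY
  let T : Finset B := univ.filter fun x => 0 < U x
  let δ : A := ∏ x ∈ T, F x
  have hgδ : ∀ g : K, g • δ = ∏ x ∈ T, F (g • x) := by
    intro g
    show g • (∏ x ∈ T, F x) = _
    rw [Finset.smul_prod']
    exact Finset.prod_congr rfl fun x _ => (hFg g x).symm
  have hPfix : ∀ g ∈ P, g • δ = δ := by
    intro g hg
    rw [hgδ]
    have h3 := Disc.prod_even (P := (P : Subgroup K)) hι (fun g x => hcomm g.1 x) U hU0 hUι univ
      hYι hYP F hF ⟨g, hg⟩ (hYev ⟨g, hg⟩)
    exact h3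
  have hT : T.card = 2 ^ k := by
    have h3 := Disc.sum_half_on (A := ℤ) hι U hU0 hUι univ (fun x _ => mem_univ _)
      (fun _ => 1) (fun _ => rfl)
    rw [Finset.sum_const, Finset.sum_const, card_univ, hcard] at h3
    simp only [nsmul_eq_mul, mul_one] at h3
    have h4 : ((2 * 2 ^ k : ℕ) : ℤ) = (T.card : ℤ) + T.card := h3
    have h5 : (2 * 2 ^ k : ℕ) = T.card + T.card := by exact_mod_cast h4
    omega
  have hprod : ∏ x, F x = (-1) ^ (2 ^ k) * δ ^ 2 := by
    have h3 : ∏ x ∈ univ.filter (fun x => ¬ 0 < U x), F x = ∏ x ∈ T, F (ι x) := by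
      refine Finset.prod_nbij' ι ι ?_ ?_ ?_ ?_ ?_
      · intro x hx
        rw [mem_filter] at hx
        refine mem_filter.mpr ⟨mem_univ _, ?_⟩
        rw [hUι]
        have := hU0 x
        omega
      · intro x hx
        have hx' : x ∈ univ.filter fun x => 0 < U x := hx
        rw [mem_filter] at hx'
        refine mem_filter.mpr ⟨mem_univ _, ?_⟩
        rw [hUι]
        omega
      · intro x _
        exact hι x
      · intro x _
        exact hι x
      · intro x _
        rw [hι]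
    have h4 : ∏ x ∈ T, F (ι x) = (-1) ^ (2 ^ k) * δ := by
      have h5 : ∀ x ∈ T, F (ι x) = (-1) * F x := by
        intro x _
        rw [hF]
        ring
      rw [Finset.prod_congr rfl h5, Finset.prod_mul_distrib, Finset.prod_const, hT]
    rw [← Finset.prod_filter_mul_prod_filter_not univ (fun x => 0 < U x), h3, h4]
    show δ * _ = _
    ring
  have hδ2 : δ ^ 2 = (-1) ^ (2 ^ k) * ∏ x, F x := by
    rw [hprod, ← mul_assoc, ← mul_pow]
    simp
  have hδ0 : δ ≠ 0 := Finset.prod_ne_zero_iff.mpr fun x _ => hF0 x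
  have hsq : ∀ g : K, g • δ = δ ∨ g • δ = - δ := by
    intro g
    have h3 : (g • δ) ^ 2 = δ ^ 2 := by
      rw [← smul_pow', hδ2, smul_mul', smul_pow', smul_neg, smul_one, Finset.smul_prod']
      congr 1
      rw [Finset.prod_congr rfl fun x _ => (hFg g x).symm]
      exact Fintype.prod_equiv (MulAction.toPerm g) _ _ fun x => rfl
    exact sq_eq_sq_iff_eq_or_eq_neg.1 h3
  refine ⟨δ, ?_, hδ2⟩
  intro g
  by_contra hne
  have hneg : g • δ = - δ := (hsq g).resolve_left hne
  have hnd : δ ≠ - δ := by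
    intro h
    apply hne
    rw [hneg]
    exact h.symm
  have horb : MulAction.orbit K δ = {δ, - δ} := by
    ext a
    constructor
    · rintro ⟨h, rfl⟩
      rcases hsq h with h3 | h3
      · left; exact h3
      · right; exact h3
    · rintro (rfl | h)
      · exact MulAction.mem_orbit_self _
      · rw [Set.mem_singleton_iff] at h
        rw [h]
        exact ⟨g, hneg⟩
  have hidx : (MulAction.stabilizer K δ).index = 2 := by
    rw [MulAction.index_stabilizer, horb, Set.ncard_pair hnd]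
  have hle : (P : Subgroup K) ≤ MulAction.stabilizer K δ := by
    intro h hh
    rw [MulAction.mem_stabilizer_iff]
    exact hPfix h hh
  have hdvd := Subgroup.index_dvd_of_le hle
  rw [hidx] at hdvd
  exact P.not_dvd_index hdvd

end PowTwo

theorem pow_two_block {G S : Type} [Group G] [Finite G] [MulAction G S] [Fintype S] {ι : S → S}
    (hι : ∀ x, ι (ι x) = x) (hfix : ∀ x, ι x ≠ x)
    (hcomm : ∀ (g : G) (x : S), g • ι x = ι (g • x)) (htr : ∀ x y : S, ∃ g : G, g • x = y)
    (x₀ : S) (k : ℕ) (hcard : (blk G ι x₀).card = 2 * 2 ^ k)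
    (w : S → ℚ) (hw : ∀ x, w (ι x) = - w x) (ρ : ℚ) (hρ : ρ ≠ 0)
    (hwρ : ∀ x, padicNorm 2 (w x) = ρ)
    (u : S → ℤ) (hu : u ≠ 0) (hanti : ∀ x, u (ι x) = - u x)
    (hsupp : ∀ x, x ∉ blk G ι x₀ → u x = 0)
    (hrel : ∀ g : G, ∑ x, (u x : ℚ) * w (g • x) = 0)
    {A : Type} [Field A] (h2 : (2 : A) ≠ 0) [MulSemiringAction G A]
    (F : S → A) (hF : ∀ x, F (ι x) = - F x) (hF0 : ∀ x, F x ≠ 0)
    (hFg : ∀ (g : G) (x : S), F (g • x) = g • F x) :
    ∃ γ : A, (∀ g : G, g • γ = γ) ∧ γ ^ 2 = (-1) ^ (Fintype.card S / 2) * ∏ x, F x := by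
  classical
  set B : Finset S := blk G ι x₀ with hB
  -- the stabiliser of the block
  let K : Subgroup G :=
    { carrier := {g | g • x₀ ∈ B}
      one_mem' := by
        show (1 : G) • x₀ ∈ B
        rw [one_smul]
        exact self_mem_blk x₀
      mul_mem' := by
        intro a b ha hb
        have ha' : a • x₀ ∈ B := ha
        have hb' : b • x₀ ∈ B := hb
        show (a * b) • x₀ ∈ B
        rw [mul_smul]
        have h1 := smul_mem_blk hcomm hb' a
        rwa [blk_eq_of_mem ha'] at h1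
      inv_mem' := by
        intro a ha
        have ha' : a • x₀ ∈ B := ha
        show a⁻¹ • x₀ ∈ B
        have h1 : x₀ ∈ blk G ι (a • x₀) := by
          rw [blk_eq_of_mem ha']
          exact self_mem_blk x₀
        have h2 := smul_mem_blk hcomm h1 a⁻¹
        rwa [inv_smul_smul] at h2 }
  have hKmem : ∀ g : G, g ∈ K ↔ g • x₀ ∈ B := fun _ => Iff.rfl
  have hKB : ∀ g ∈ K, ∀ y ∈ B, g • y ∈ B := by
    intro g hg y hy
    have h1 := smul_mem_blk hcomm hy g
    rwa [blk_eq_of_mem ((hKmem g).1 hg)] at h1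
  let act : MulAction K {x // x ∈ B} :=
    { smul := fun g y => ⟨g.1 • y.1, hKB g.1 g.2 y.1 y.2⟩
      one_smul := fun y => Subtype.ext (one_smul G y.1)
      mul_smul := fun g h y => Subtype.ext (mul_smul g.1 h.1 y.1) }
  have hact : ∀ (g : K) (y : {x // x ∈ B}), (g • y).1 = g.1 • y.1 := fun _ _ => rfl
  let ι' : {x // x ∈ B} → {x // x ∈ B} := fun y => ⟨ι y.1, ι_mem_blk hι hcomm y.2⟩
  have hKA : ∀ (g : K) (a : A), g • a = g.1 • a := fun _ _ => rfl
  obtain ⟨δ, hδ, hδ2⟩ := PowTwo.block (K := K) (B := {x // x ∈ B}) (ι := ι')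
    (fun y => Subtype.ext (hι y.1))
    (fun g y => Subtype.ext (hcomm g.1 y.1))
    (by
      intro y z
      obtain ⟨g, hg⟩ := htr y.1 z.1
      refine ⟨⟨g, ?_⟩, Subtype.ext hg⟩
      rw [hKmem]
      have h1 : x₀ ∈ blk G ι y.1 := by
        rw [blk_eq_of_mem y.2]
        exact self_mem_blk x₀
      have h3 := smul_mem_blk hcomm h1 g
      rw [hg, blk_eq_of_mem z.2] at h3
      exact h3)
    k (by rw [Fintype.card_coe]; exact hcard)
    (fun y => w y.1) (fun y => hw y.1) ρ hρ (fun y => hwρ y.1)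
    (fun y => u y.1)
    (by
      intro h
      apply hu
      funext x
      by_cases hx : x ∈ B
      · exact congrFun h ⟨x, hx⟩
      · exact hsupp x hx)
    (fun y => hanti y.1)
    (by
      intro g
      have h1 := hrel g.1
      rw [← Finset.sum_subset (Finset.subset_univ B)
        (fun x _ hx => by rw [hsupp x hx, Int.cast_zero, zero_mul])] at h1
      rw [← h1, ← Finset.sum_coe_sort B (fun x => (u x : ℚ) * w (g.1 • x))]
      rfl)
    (fun y => F y.1) (fun y => hF y.1) (fun y => hF0 y.1) (fun g y => hFg g.1 y.1)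
  have hδ2' : δ ^ 2 = (-1) ^ (2 ^ k) * ∏ x ∈ B, F x := by
    rw [hδ2, ← Finset.prod_coe_sort B F]
  -- the blocks
  choose c hc using fun y : S => htr x₀ y
  let E : S → A := fun y => c y • δ
  have hE : ∀ (g : G) (y : S), y ∈ blk G ι (g • x₀) → E y = g • δ := by
    intro g y hy
    have h1 : g⁻¹ * c y ∈ K := by
      rw [hKmem, mul_smul, hc]
      have h3 := smul_mem_blk hcomm hy g⁻¹
      rwa [inv_smul_smul] at h3
    have h4 : (g⁻¹ * c y) • δ = δ := hδ ⟨_, h1⟩
    rw [mul_smul, inv_smul_eq_iff] at h4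
    exact h4
  have hEblk : ∀ y z : S, z ∈ blk G ι y → E z = E y := by
    intro y z hz
    have h1 : z ∈ blk G ι (c y • x₀) := by rw [hc]; exact hz
    exact hE (c y) z h1
  have hEg : ∀ (g : G) (y : S), E (g • y) = g • E y := by
    intro g y
    have h1 : g • y ∈ blk G ι ((g * c y) • x₀) := by
      rw [mul_smul, hc]
      exact self_mem_blk _
    rw [hE _ _ h1]
    exact mul_smul g (c y) δ
  let 𝓑 : Finset (Finset S) := Finset.univ.image (blk G ι)
  have hmem𝓑 : ∀ y : S, blk G ι y ∈ 𝓑 := fun y => Finset.mem_image_of_mem _ (Finset.mem_univ y)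
  have hex : ∀ C : Finset S, ∃ y : S, C ∈ 𝓑 → blk G ι y = C := by
    intro C
    by_cases hC : C ∈ 𝓑
    · obtain ⟨y, -, hy⟩ := Finset.mem_image.1 hC
      exact ⟨y, fun _ => hy⟩
    · exact ⟨x₀, fun h => absurd h hC⟩
  choose r hr using hex
  have hrmem : ∀ C ∈ 𝓑, r C ∈ C := by
    intro C hC
    have h1 := self_mem_blk (G := G) (ι := ι) (r C)
    rwa [hr C hC] at h1
  let φ : G → Finset S → Finset S := fun g C => blk G ι (g • r C)
  have hφmem : ∀ (g : G), ∀ C ∈ 𝓑, φ g C ∈ 𝓑 := fun g C _ => hmem𝓑 _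
  have hφinv : ∀ (g : G), ∀ C ∈ 𝓑, φ g⁻¹ (φ g C) = C := by
    intro g C hC
    show blk G ι (g⁻¹ • r (φ g C)) = C
    have h1 : r (φ g C) ∈ blk G ι (g • r C) := hrmem _ (hφmem g C hC)
    have h3 := smul_mem_blk hcomm h1 g⁻¹
    rw [inv_smul_smul, hr C hC] at h3
    rw [← hr C hC] at h3 ⊢
    rw [hr C hC] at h3
    exact blk_eq_of_mem (by rw [hr C hC]; exact h3)
  let γ : A := ∏ C ∈ 𝓑, E (r C)
  refine ⟨γ, ?_, ?_⟩
  · intro g
    show g • (∏ C ∈ 𝓑, E (r C)) = ∏ C ∈ 𝓑, E (r C)
    rw [Finset.smul_prod']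
    refine Finset.prod_nbij' (φ g) (φ g⁻¹) (hφmem g) (hφmem g⁻¹) (hφinv g) ?_ ?_
    · intro C hC
      have h1 := hφinv g⁻¹ C hC
      rwa [inv_inv] at h1
    · intro C hC
      rw [← hEg]
      exact (hEblk _ _ (hrmem _ (hφmem g C hC))).symm
  · have h1 : ∀ C ∈ 𝓑, E (r C) ^ 2 = (-1) ^ (2 ^ k) * ∏ x ∈ C, F x := by
      intro C hC
      show (c (r C) • δ) ^ 2 = _
      rw [← smul_pow', hδ2', smul_mul', smul_pow', smul_neg, smul_one, Finset.smul_prod']
      congr 1
      refine Finset.prod_nbij' (fun x => c (r C) • x) (fun x => (c (r C))⁻¹ • x) ?_ ?_ ?_ ?_ ?_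
      · intro x hx
        have h3 := smul_mem_blk hcomm hx (c (r C))
        rwa [hc, hr C hC] at h3
      · intro x hx
        rw [← hr C hC] at hx
        have h3 := smul_mem_blk hcomm hx (c (r C))⁻¹
        have h4 : (c (r C))⁻¹ • r C = x₀ := by
          rw [inv_smul_eq_iff, hc]
        rwa [h4] at h3
      · intro x _
        exact inv_smul_smul _ _
      · intro x _
        exact smul_inv_smul _ _
      · intro x _
        exact (hFg _ _).symm
    have hfib : ∀ C ∈ 𝓑, (Finset.univ.filter fun y => blk G ι y = C) = C := by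
      intro C hC
      obtain ⟨x, -, rfl⟩ := Finset.mem_image.1 hC
      ext y
      rw [Finset.mem_filter]
      constructor
      · rintro ⟨-, h4⟩
        rw [← h4]
        exact self_mem_blk y
      · intro h4
        exact ⟨Finset.mem_univ y, blk_eq_of_mem h4⟩
    have hcardS : Fintype.card S = 𝓑.card * (2 * 2 ^ k) := by
      have h5 : (Finset.univ : Finset S).card =
          ∑ C ∈ 𝓑, ((Finset.univ : Finset S).filter fun x => blk G ι x = C).card :=
        Finset.card_eq_sum_card_fiberwise fun x _ => hmem𝓑 x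
      have h6 : ∀ C ∈ 𝓑, ((Finset.univ : Finset S).filter fun x => blk G ι x = C).card =
          2 * 2 ^ k := by
        intro C hC
        rw [hfib C hC]
        obtain ⟨x, -, rfl⟩ := Finset.mem_image.1 hC
        obtain ⟨g, hg⟩ := htr x₀ x
        rw [← hg, card_blk_smul hcomm x₀ g]
        exact hcard
      rw [← Finset.card_univ, h5, Finset.sum_congr rfl h6, Finset.sum_const, smul_eq_mul]
    have hhalf : Fintype.card S / 2 = 2 ^ k * 𝓑.card := by
      rw [hcardS]
      have : 𝓑.card * (2 * 2 ^ k) = 2 * (2 ^ k * 𝓑.card) := by ring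
      rw [this]
      exact Nat.mul_div_cancel_left _ (by norm_num)
    show (∏ C ∈ 𝓑, E (r C)) ^ 2 = _
    rw [← Finset.prod_pow, Finset.prod_congr rfl h1, Finset.prod_mul_distrib, Finset.prod_const,
      ← pow_mul, hhalf]
    congr 1
    rw [← Finset.prod_fiberwise_of_maps_to (s := Finset.univ) (t := 𝓑) (g := blk G ι)
      (fun x _ => hmem𝓑 x) F]
    exact Finset.prod_congr rfl fun C hC => by rw [hfib C hC]

end Pool.Agent.Helper19.Sign
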