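import Pool.Agent.Helper19.Sign.Abs
import Pool.Agent.Helper19.Sign.Rel
import Pool.Agent.Helper19.Sign.PowTwo

/-!
# The relations and the size of the blocks
-/

open Finset

namespace Pool.Agent.Helper19.Sign

theorem theoremC {E L : Type} [Field E] [CharZero E] [Field L] [Algebra E L]
    [FiniteDimensional E L] [IsGalois E L] {S : Type} [Fintype S] [MulAction (L ≃ₐ[E] L) S]
    {ι : S → S} (val : S → Lˣ)
    (hval : ∀ (g : L ≃ₐ[E] L) (x : S), ((val (g • x) : Lˣ) : L) = g (val x : L))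
    (hι : ∀ x, ι (ι x) = x) (hfix : ∀ x, ι x ≠ x)
    (hcomm : ∀ (g : L ≃ₐ[E] L) (x : S), g • ι x = ι (g • x))
    (htr : ∀ x y : S, ∃ g : L ≃ₐ[E] L, g • x = y)
    (c : L) (hc : ∀ x, (val x : L) * (val (ι x) : L) = c)
    (habs : ∀ x y : S, ∀ k : ℕ, 0 < k → (val x : L) ^ k = (val y : L) ^ k → x = y)
    (σ₀ : L ≃ₐ[E] L) (hσ₀ : ∀ x : S, σ₀ • x = ι x)
    (b : ℕ) (hb : ∀ x, (blk (L ≃ₐ[E] L) ι x).card = 2 * b)
    (hcase : b ≤ 2 ∨ ((∃ (v : L → ℚ) (ρ : ℚ), ρ ≠ 0 ∧
      (∀ x y : L, x ≠ 0 → y ≠ 0 → v (x * y) = v x + v y) ∧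
      ∀ x : S, padicNorm 2 (v (val x) - v c / 2) = ρ) ∧
      (b.Prime ∨ ((∃ k, b = 2 ^ k) ∧ ¬ ∃ e : E, (algebraMap E L e) ^ 2 =
        (-1) ^ (Fintype.card S / 2) * ∏ x : S, ((val x : L) - val (ι x))))))
    (n : S → ℤ) (N : ℕ) (hN : N ≠ 0) (e : E)
    (hrel : (∏ x, (val x : L) ^ n x) ^ N = algebraMap E L e) (x₀ : S) : n x₀ = n (ι x₀) := by
  classical
  have hchar : CharZero L := charZero_of_injective_algebraMap (algebraMap E L).injective
  have hW : ∀ g : L ≃ₐ[E] L, ∀ m ∈ relMod val, act g m ∈ relMod val := fun g m hm =>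
    act_mem val hval g m hm
  have hn := rel_mem val hval n N hN e hrel
  have hsum : ∀ x y, ev x + ev (ι x) - ev y - ev (ι y) ∈ relMod val := by
    intro x y
    apply ev_sum_mem
    apply Units.ext
    rw [Units.val_mul, Units.val_mul, hc, hc]
  have habs' : ∀ x y, ev x - ev y ∈ relMod val → x = y := by
    intro x y h
    obtain ⟨k, hk, h1⟩ := ev_sub_mem val h
    refine habs x y k (Nat.pos_of_ne_zero hk) ?_
    have := congrArg Units.val h1
    rwa [Units.val_pow_eq_pow_val, Units.val_pow_eq_pow_val] at this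
  have hcore : InCore ι σ₀ := fun x => Or.inr (hσ₀ x)
  have hx₀ : σ₀ • x₀ ≠ x₀ := by
    rw [hσ₀]; exact hfix x₀
  have hgoal : ∀ _h : b = 1 ∨ b = 2 ∨ (b.Prime ∧ ∃ w : S → ℚ, (∀ x, w (ι x) = - w x) ∧
      (∀ u ∈ relMod val, (∀ x, u (ι x) = - u x) → ∑ x, u x * w x = 0) ∧
      ∃ ρ : ℚ, ρ ≠ 0 ∧ ∀ x, padicNorm 2 (w x) = ρ), n x₀ = n (ι x₀) := by
    intro h
    have h1 := abs_main hι hfix hcomm htr hW hsum habs' (fun x => (n x : ℚ)) hn x₀ σ₀ hcore hx₀ b
      (hb x₀) h
    exact_mod_cast h1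
  rcases hcase with h | ⟨⟨v, ρ, hρ, hv, hvρ⟩, h⟩
  · apply hgoal
    have h1 : 0 < (blk (L ≃ₐ[E] L) ι x₀).card := card_pos.2 ⟨x₀, self_mem_blk x₀⟩
    rw [hb] at h1
    omega
  -- slopes
  let w : S → ℚ := fun x => v (val x) - v c / 2
  have hw : ∀ x, w (ι x) = - w x := by
    intro x
    have h4 := hv (val x : L) (val (ι x) : L) (Units.ne_zero _) (Units.ne_zero _)
    rw [hc] at h4
    show v (val (ι x)) - v c / 2 = -(v (val x) - v c / 2)
    linarith
  have hworth : ∀ u ∈ relMod val, (∀ x, u (ι x) = - u x) → ∑ x, u x * w x = 0 := by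
    intro u hu hanti
    have h1 := sum_val_eq_zero val v hv hu
    have h2 : ∑ x, u x = 0 := by
      have h3 : ∑ x, u x = ∑ x, u (ι x) :=
        (Fintype.sum_equiv ⟨ι, ι, hι, hι⟩ _ _ fun x => rfl).symm
      have h4 : ∑ x, u (ι x) = - ∑ x, u x := by
        rw [← Finset.sum_neg_distrib]
        exact Finset.sum_congr rfl fun x _ => hanti x
      rw [h4] at h3
      linarith
    have h3 : ∑ x, u x * w x = ∑ x, u x * v (val x : L) - (∑ x, u x) * (v c / 2) := by
      rw [Finset.sum_mul, ← Finset.sum_sub_distrib]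
      refine Finset.sum_congr rfl fun x _ => ?_
      show u x * (v (val x) - v c / 2) = u x * v (val x) - u x * (v c / 2)
      ring
    rw [h3, h1, h2]
    ring
  rcases h with h | ⟨⟨k, rfl⟩, h⟩
  · exact hgoal (Or.inr (Or.inr ⟨h, w, hw, hworth, ρ, hρ, hvρ⟩))
  -- blocks of 2-power size
  by_contra hne
  apply h
  obtain ⟨u, hu, hanti, hsupp, hu0⟩ := exists_block_rel hι hcomm hW (fun x => (n x : ℚ)) hn x₀ σ₀
    hcore hx₀
  have hu0' : u x₀ ≠ 0 := by
    rw [hu0]
    intro h1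
    apply hne
    have h2 := sub_eq_zero.1 h1
    exact_mod_cast h2
  obtain ⟨k', hk', m, hm, hm1⟩ := mem_relMod.1 hu
  have hk0 : (k' : ℚ) ≠ 0 := by exact_mod_cast hk'
  have hmu : ∀ g : L ≃ₐ[E] L, act g (fun x => (m x : ℚ)) ∈ relMod val := by
    intro g
    apply hW
    have h1 : (fun x => (m x : ℚ)) = (k' : ℚ) • u := by
      funext x
      rw [hm]; rfl
    rw [h1]
    exact (relMod val).smul_mem _ hu
  have hmanti : ∀ x, m (ι x) = - m x := by
    intro x
    have h1 : (m (ι x) : ℚ) = ((- m x : ℤ) : ℚ) := by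
      push_cast
      rw [hm, hm, hanti]; ring
    exact_mod_cast h1
  obtain ⟨γ, hγ, hγ2⟩ := pow_two_block (G := L ≃ₐ[E] L) hι hfix hcomm htr x₀ k (hb x₀) w hw ρ hρ
    hvρ m (by
      intro h1
      have h2 := hm x₀
      rw [h1, Pi.zero_apply, Int.cast_zero] at h2
      exact mul_ne_zero hk0 hu0' h2.symm) hmanti
    (by
      intro x hx
      have h2 := hm x
      rw [hsupp x hx, mul_zero] at h2
      exact_mod_cast h2)
    (by
      intro g
      have h1 := hworth _ (hmu g) (by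
        intro x
        rw [act_apply, act_apply, hcomm, hmanti]
        push_cast; rfl)
      rw [← h1]
      refine Fintype.sum_equiv (MulAction.toPerm g) _ _ fun x => ?_
      rw [act_apply, MulAction.toPerm_apply, inv_smul_smul])
    (A := L) two_ne_zero (fun x => (val x : L) - val (ι x))
    (by
      intro x
      show (val (ι x) : L) - val (ι (ι x)) = -((val x : L) - val (ι x))
      rw [hι]; ring)
    (by
      intro x h1
      have h2 : (val x : L) = val (ι x) := sub_eq_zero.1 h1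
      exact hfix x (habs x (ι x) 1 one_pos (by rw [pow_one, pow_one]; exact h2)).symm)
    (by
      intro g x
      show (val (g • x) : L) - val (ι (g • x)) = g ((val x : L) - val (ι x))
      rw [← hcomm, hval, hval, map_sub])
  obtain ⟨e', he'⟩ := (IsGalois.mem_range_algebraMap_iff_fixed (F := E) (E := L) γ).2 hγ
  exact ⟨e', by rw [he', hγ2]⟩

end Pool.Agent.Helper19.Sign
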