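import Mathlib

/-!
# SG-3: two lemmas (MP_de89cc_ag, sign codes).  Mathlib only.

`const_of_relation`.  For `f ∈ ℚ[X]` let `J` be the set of the `f` with `aeval T f e ∈ W`.  `J` is
closed under addition and under multiplication by polynomials (`aeval T (g * f) e =
aeval T g (aeval T f e)` and `aeval T g` maps `W` to `W`: induction on `g`,
`Polynomial.induction_on` or `Submodule` invariance), and `X ^ r - 1 ∈ J`.  Let
`u = ∑ i < r, m i X ^ i ∈ J` and `Φ = cyclotomic r ℚ = ∑ i < r, X ^ i` (`Polynomial.cyclotomic_prime`),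
irreducible (`Polynomial.cyclotomic.irreducible_rat`), `(X - 1) Φ = X ^ r - 1`.  If `Φ ∤ u` then
`s u + t Φ = 1` (`IsCoprime`, `Irreducible.coprime_iff_not_dvd`), so
`X - 1 = (X - 1) s u + t (X ^ r - 1) ∈ J`, i.e. `T e - e ∈ W`: contradiction.  So `Φ ∣ u`; as
`natDegree u < r` and `natDegree Φ = r - 1`, `u = C a * Φ`, so all the coefficients `m i`, `i < r`,
are equal to `a`.

`sum_ne_zero_of_padicNorm`.  `s` is nonempty; let `i₀ ∈ s`, `t i = w i / w i₀`, of 2-adic norm `1`.
Then `padicNorm 2 (t i - 1) < 1` (numerator and denominator of `t i` are odd, so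
`t i - 1 = (num - den) / den` with even numerator and odd denominator), so
`∑ t i = card s + ∑ (t i - 1)` has norm `1` (`padicNorm.add_eq_max_of_ne`, `padicNorm 2 (card s) = 1`).
-/

namespace Pool.Agent.Helper19.Sign

theorem const_of_relation {V : Type} [AddCommGroup V] [Module ℚ V] (W : Submodule ℚ V)
    (T : V →ₗ[ℚ] V) (hT : ∀ v ∈ W, T v ∈ W) (e : V) (r : ℕ) (hr : r.Prime)
    (hTr : (T ^ r) e = e) (hne : T e - e ∉ W) (m : ℕ → ℚ)
    (hm : ∑ i ∈ Finset.range r, m i • (T ^ i) e ∈ W) : ∀ i < r, m i = m 0 := by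
  classical
  haveI : Fact r.Prime := ⟨hr⟩
  have hW : ∀ (g : Polynomial ℚ), ∀ v ∈ W, (Polynomial.aeval T g : Module.End ℚ V) v ∈ W := by
    intro g v hv
    induction g using Polynomial.induction_on' with
    | add p q hp hq =>
      rw [map_add, LinearMap.add_apply]
      exact W.add_mem hp hq
    | monomial n a =>
      have hpow : ∀ n : ℕ, (T ^ n) v ∈ W := by
        intro n
        induction n with
        | zero => simpa using hv
        | succ n ih =>
          rw [pow_succ']
          exact hT _ ih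
      rw [Polynomial.aeval_monomial, Module.End.mul_apply, Module.algebraMap_end_apply]
      exact W.smul_mem _ (hpow n)
  set u : Polynomial ℚ := ∑ i ∈ Finset.range r, Polynomial.C (m i) * Polynomial.X ^ i with hu
  have huJ : (Polynomial.aeval T u : Module.End ℚ V) e ∈ W := by
    have h1 : (Polynomial.aeval T u : Module.End ℚ V) e =
        ∑ i ∈ Finset.range r, m i • (T ^ i) e := by
      rw [hu, map_sum, LinearMap.sum_apply]
      refine Finset.sum_congr rfl fun i _ => ?_
      rw [map_mul, Polynomial.aeval_C, map_pow, Polynomial.aeval_X, Module.End.mul_apply,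
        Module.algebraMap_end_apply]
    rw [h1]
    exact hm
  have hrJ : (Polynomial.aeval T (Polynomial.X ^ r - 1 : Polynomial ℚ) : Module.End ℚ V) e ∈ W := by
    have h1 : (Polynomial.aeval T (Polynomial.X ^ r - 1 : Polynomial ℚ) : Module.End ℚ V) e = 0 := by
      rw [map_sub, map_pow, Polynomial.aeval_X, map_one, LinearMap.sub_apply, hTr,
        Module.End.one_apply, sub_self]
    rw [h1]
    exact W.zero_mem
  have hΦ : Polynomial.cyclotomic r ℚ * (Polynomial.X - 1) = Polynomial.X ^ r - 1 :=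
    Polynomial.cyclotomic_prime_mul_X_sub_one ℚ r
  have hirr : Irreducible (Polynomial.cyclotomic r ℚ) :=
    Polynomial.cyclotomic.irreducible_rat hr.pos
  have hdvd : Polynomial.cyclotomic r ℚ ∣ u := by
    by_contra hnd
    obtain ⟨a, b, hab⟩ := (hirr.coprime_iff_not_dvd).2 hnd
    apply hne
    have h1 : (Polynomial.X - 1 : Polynomial ℚ) =
        a * (Polynomial.X ^ r - 1) + ((Polynomial.X - 1) * b) * u := by
      rw [← hΦ]
      calc (Polynomial.X - 1 : Polynomial ℚ) = (Polynomial.X - 1) * (a * Polynomial.cyclotomic r ℚ + b * u) := by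
            rw [hab, mul_one]
        _ = _ := by ring
    have h2 : (Polynomial.aeval T (Polynomial.X - 1 : Polynomial ℚ) : Module.End ℚ V) e =
        T e - e := by
      rw [map_sub, Polynomial.aeval_X, map_one, LinearMap.sub_apply, Module.End.one_apply]
    rw [← h2, h1, map_add, LinearMap.add_apply, map_mul, map_mul, Module.End.mul_apply,
      Module.End.mul_apply]
    exact W.add_mem (hW _ _ hrJ) (hW _ _ huJ)
  obtain ⟨c, hc⟩ := hdvd
  have hcoeffu : ∀ i < r, u.coeff i = m i := by
    intro i hi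
    rw [hu, Polynomial.finsetSum_coeff]
    simp only [Polynomial.coeff_C_mul, Polynomial.coeff_X_pow]
    rw [Finset.sum_eq_single i]
    · simp
    · intro j _ hji
      rw [if_neg (Ne.symm hji), mul_zero]
    · intro h
      exact absurd (Finset.mem_range.2 hi) h
  have hcoeffΦ : ∀ i < r, (Polynomial.cyclotomic r ℚ).coeff i = 1 := by
    intro i hi
    rw [Polynomial.cyclotomic_prime, Polynomial.finsetSum_coeff]
    simp only [Polynomial.coeff_X_pow]
    rw [Finset.sum_eq_single i]
    · simp
    · intro j _ hji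
      rw [if_neg (Ne.symm hji)]
    · intro h
      exact absurd (Finset.mem_range.2 hi) h
  have hdegΦ : (Polynomial.cyclotomic r ℚ).natDegree = r - 1 := by
    rw [Polynomial.natDegree_cyclotomic, Nat.totient_prime hr]
  have hdegu : u.natDegree ≤ r - 1 := by
    rw [hu]
    refine Polynomial.natDegree_sum_le_of_forall_le _ _ fun i hi => ?_
    refine (Polynomial.natDegree_C_mul_X_pow_le _ _).trans ?_
    have := Finset.mem_range.1 hi
    omega
  have hc0 : c.natDegree = 0 := by
    by_cases hcz : c = 0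
    · rw [hcz, Polynomial.natDegree_zero]
    · have h1 : u.natDegree = (r - 1) + c.natDegree := by
        rw [hc, Polynomial.natDegree_mul hirr.ne_zero hcz, hdegΦ]
      omega
  obtain ⟨a, ha⟩ : ∃ a, c = Polynomial.C a := ⟨_, Polynomial.eq_C_of_natDegree_eq_zero hc0⟩
  have hma : ∀ i < r, m i = a := by
    intro i hi
    rw [← hcoeffu i hi, hc, ha, Polynomial.coeff_mul_C, hcoeffΦ i hi, one_mul]
  intro i hi
  rw [hma i hi, hma 0 hr.pos]

theorem sum_ne_zero_of_padicNorm {α : Type} (s : Finset α) (w : α → ℚ) (ρ : ℚ) (hρ : ρ ≠ 0)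
    (hw : ∀ i ∈ s, padicNorm 2 (w i) = ρ) (hs : Odd s.card) : ∑ i ∈ s, w i ≠ 0 := by
  classical
  have key : ∀ q : ℚ, padicNorm 2 q = 1 → padicNorm 2 (q - 1) < 1 := by
    intro q hq
    have hqd : (q.num : ℚ) / (q.den : ℚ) = q := q.num_div_den
    have hd0 : (q.den : ℚ) ≠ 0 := by exact_mod_cast q.den_ne_zero
    have hnorm : padicNorm 2 (q.num : ℚ) = padicNorm 2 (q.den : ℚ) := by
      have h1 : (q.num : ℚ) = q * q.den := (Rat.mul_den_eq_num q).symm
      rw [h1, padicNorm.mul, hq, one_mul]
    have hden : ¬ 2 ∣ q.den := by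
      intro h2
      have h3 : padicNorm 2 (q.den : ℚ) < 1 := (padicNorm.nat_lt_one_iff q.den).2 h2
      rw [← hnorm] at h3
      have h4 : (2 : ℤ) ∣ q.num := by exact_mod_cast (padicNorm.int_lt_one_iff q.num).1 h3
      have h5 : 2 ∣ q.num.natAbs := by
        have := Int.natAbs_dvd_natAbs.2 h4
        simpa using this
      have h6 := Nat.dvd_gcd h5 h2
      have h7 : Nat.gcd q.num.natAbs q.den = 1 := q.reduced
      rw [h7] at h6
      omega
    have hden1 : padicNorm 2 (q.den : ℚ) = 1 := (padicNorm.nat_eq_one_iff q.den).2 hden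
    have hnum : ¬ (2 : ℤ) ∣ q.num := by
      rw [hden1] at hnorm
      exact_mod_cast (padicNorm.int_eq_one_iff q.num).1 hnorm
    have hsub : q - 1 = ((q.num - q.den : ℤ) : ℚ) / (q.den : ℚ) := by
      push_cast
      rw [sub_div, hqd, div_self hd0]
    have h8 : (2 : ℤ) ∣ q.num - q.den := by omega
    rw [hsub, padicNorm.div, hden1, div_one]
    exact (padicNorm.int_lt_one_iff _).2 (by exact_mod_cast h8)
  intro hsum
  have hne : s.Nonempty := by
    rw [← Finset.card_pos]
    exact hs.pos
  obtain ⟨i₀, hi₀⟩ := hne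
  have hw0 : w i₀ ≠ 0 := by
    intro h
    have := hw i₀ hi₀
    rw [h, padicNorm.zero] at this
    exact hρ this.symm
  have ht : ∀ i ∈ s, padicNorm 2 (w i / w i₀) = 1 := by
    intro i hi
    rw [padicNorm.div, hw i hi, hw i₀ hi₀, div_self hρ]
  have hsum2 : ∑ i ∈ s, w i / w i₀ = 0 := by
    rw [← Finset.sum_div, hsum, zero_div]
  have h1 : (s.card : ℚ) = - ∑ i ∈ s, (w i / w i₀ - 1) := by
    rw [Finset.sum_sub_distrib, hsum2]
    simp
  have h2 : padicNorm 2 (∑ i ∈ s, (w i / w i₀ - 1)) < 1 :=
    padicNorm.sum_lt' (fun i hi => key _ (ht i hi)) one_pos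
  have h3 : padicNorm 2 (s.card : ℚ) = 1 := by
    rw [padicNorm.nat_eq_one_iff]
    intro h4
    rw [← even_iff_two_dvd] at h4
    exact (Nat.not_even_iff_odd.2 hs) h4
  rw [h1, padicNorm.neg] at h3
  linarith

end Pool.Agent.Helper19.Sign
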