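import Pool.Agent.Helper19.Sign.Defs

/-!
# SG-2: a rotation of a block with `2 r` elements (MP_de89cc_ag, sign codes).  Group theory only.

`G` finite acts on `S`, `ι` is a fixed point free involution commuting with `G`, `B` is a finite
subset, stable under `ι`, with `2 r` elements, `r` an odd prime, such that the `g` with
`g x₀ ∈ B` map `B` to `B` and `B` is contained in the orbit of `x₀`.

PROOF.  (1) `H = {g | g x₀ ∈ B}` is a subgroup: products by `hBg`; inverses: `g` maps the finite set
`B` injectively to `B`, so onto; so `x₀ = g y`, `y ∈ B`, and `g⁻¹ x₀ = y`.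
(2) The orbit of `x₀` under `H` is `B` (`htr`), so the stabilizer of `x₀` in `H` has index
`2 r` (`MulAction.index_stabilizer` or `MulAction.card_orbit_mul_card_stabilizer_eq_card_group`).
(3) Let `P` be a Sylow `r`-subgroup of `H`.  If every element of `P` fixed `x₀` then `P ≤` stabilizer,
the index `2 r` of the stabilizer would divide the index of `P`, which is prime to `r`
(`Sylow.not_dvd_index'` or similar): contradiction.  So there is `g ∈ P` with `g x₀ ≠ x₀`.
(4) The minimal period `t` of `x₀` under `g` divides `orderOf g`, a power of `r`, and `t ≠ 1`;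
so `t = r ^ s`, `s ≥ 1`.  The points `g ^ i x₀`, `i < t`, are distinct and in `B`
(`g ∈ H`), so `t ≤ 2 r < r ^ 2` and `t = r`.  (`Function.minimalPeriod (g • ·) x₀`,
`MulAction.period g x₀` may be useful.)
(5) `g ^ i x₀ ≠ ι (g ^ j x₀)`: otherwise (apply `g ^ (r j - j)`) `ι x₀ = g ^ m x₀` for some `m`,
`x₀ = ι (ι x₀) = ι (g ^ m x₀) = g ^ m (ι x₀) = g ^ (2 m) x₀`, so `r ∣ 2 m`, `r ∣ m`,
`ι x₀ = x₀`: contradiction.
(6) The `2 r` points `g ^ i x₀`, `ι (g ^ i x₀)`, `i < r`, are distinct and in `B`, and `B` has `2 r`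
elements, so they are all of `B`.
-/

namespace Pool.Agent.Helper19.Sign

theorem exists_rotation {G S : Type} [Group G] [Finite G] [MulAction G S] [DecidableEq S]
    (ι : S → S) (hι : ∀ x, ι (ι x) = x) (hfix : ∀ x, ι x ≠ x)
    (hcomm : ∀ (g : G) (x : S), g • ι x = ι (g • x))
    (B : Finset S) (x₀ : S) (hx₀ : x₀ ∈ B) (hBι : ∀ x ∈ B, ι x ∈ B)
    (hBg : ∀ g : G, g • x₀ ∈ B → ∀ x ∈ B, g • x ∈ B) (htr : ∀ y ∈ B, ∃ g : G, g • x₀ = y)
    (r : ℕ) (hr : r.Prime) (hr2 : r ≠ 2) (hcard : B.card = 2 * r) :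
    ∃ g : G, g ^ r • x₀ = x₀ ∧ (∀ i < r, ∀ j < r, g ^ i • x₀ = g ^ j • x₀ → i = j) ∧
      (∀ i j : ℕ, g ^ i • x₀ ≠ ι (g ^ j • x₀)) ∧
      ∀ y ∈ B, ∃ i < r, y = g ^ i • x₀ ∨ y = ι (g ^ i • x₀) := by
  classical
  have hF : Fact r.Prime := ⟨hr⟩
  have hr3 : 3 ≤ r := by
    have := hr.two_le
    omega
  -- the subgroup
  let H : Subgroup G :=
    { carrier := {g | g • x₀ ∈ B}
      one_mem' := by
        show (1 : G) • x₀ ∈ B
        rw [one_smul]; exact hx₀
      mul_mem' := by
        intro a b ha hb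
        show (a * b) • x₀ ∈ B
        rw [mul_smul]
        exact hBg a ha _ hb
      inv_mem' := by
        intro a ha
        show a⁻¹ • x₀ ∈ B
        have h1 : B.image (fun x => a • x) = B := by
          apply Finset.eq_of_subset_of_card_le
          · intro y hy
            obtain ⟨x, hx, rfl⟩ := Finset.mem_image.1 hy
            exact hBg a ha x hx
          · rw [Finset.card_image_of_injective _ (MulAction.injective a)]
        have h2 : x₀ ∈ B.image (fun x => a • x) := by rw [h1]; exact hx₀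
        obtain ⟨y, hy, hyx⟩ := Finset.mem_image.1 h2
        have h3 : a⁻¹ • x₀ = y := by rw [← hyx, inv_smul_smul]
        rw [h3]; exact hy }
  have hH : ∀ g : G, g ∈ H ↔ g • x₀ ∈ B := fun _ => Iff.rfl
  -- the orbit
  have horb : MulAction.orbit H x₀ = (B : Set S) := by
    ext y
    constructor
    · rintro ⟨g, rfl⟩
      exact g.2
    · intro hy
      obtain ⟨g, hg⟩ := htr y hy
      exact ⟨⟨g, by rw [hH, hg]; exact hy⟩, hg⟩
  have hindex : (MulAction.stabilizer H x₀).index = 2 * r := by
    rw [MulAction.index_stabilizer, horb, Set.ncard_coe_finset, hcard]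
  -- an element of `r`-power order which moves `x₀`
  obtain ⟨P⟩ : Nonempty (Sylow r H) := inferInstance
  obtain ⟨g, hgP, hgx⟩ : ∃ g ∈ P, g • x₀ ≠ x₀ := by
    by_contra hcon
    push Not at hcon
    have h1 : (P : Subgroup H) ≤ MulAction.stabilizer H x₀ := fun g hg => hcon g hg
    have h2 := Subgroup.index_dvd_of_le h1
    rw [hindex] at h2
    exact P.not_dvd_index ((Dvd.intro_left 2 rfl).trans h2)
  obtain ⟨s, hs⟩ : ∃ s, orderOf g = r ^ s := by
    have h1 : IsPGroup r (P : Subgroup H) := P.isPGroup'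
    obtain ⟨k, hk⟩ := h1 ⟨g, hgP⟩
    have h2 : g ^ r ^ k = 1 := congrArg Subtype.val hk
    obtain ⟨j, _, hj⟩ := (Nat.dvd_prime_pow hr).1 (orderOf_dvd_of_pow_eq_one h2)
    exact ⟨j, hj⟩
  -- the period
  set t := MulAction.period g x₀ with ht
  have hpow : ∀ n : ℕ, g ^ n • x₀ = x₀ ↔ t ∣ n := by
    intro n
    exact MulAction.pow_smul_eq_iff_period_dvd
  have htdvd : t ∣ r ^ s := by
    rw [← hs, ← hpow, pow_orderOf_eq_one, one_smul]
  have ht1 : t ≠ 1 := by
    intro h
    apply hgx
    have h1 := (hpow 1).2 (by rw [h])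
    rwa [pow_one] at h1
  have ht0 : 0 < t := by
    rcases Nat.eq_zero_or_pos t with h | h
    · rw [h] at htdvd
      have := Nat.eq_zero_of_zero_dvd htdvd
      exact absurd this (pow_ne_zero _ hr.ne_zero)
    · exact h
  have hinj : ∀ i < t, ∀ j < t, g ^ i • x₀ = g ^ j • x₀ → i = j := by
    have haux : ∀ i j : ℕ, i ≤ j → j < t → g ^ i • x₀ = g ^ j • x₀ → i = j := by
      intro i j hij hj h
      have h1 : g ^ (j - i) • x₀ = x₀ := by
        have h2 : g ^ j = g ^ i * g ^ (j - i) := by
          rw [← pow_add]; congr 1; omega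
        rw [h2, mul_smul] at h
        exact (MulAction.injective (g ^ i) h).symm
      have h3 := (hpow _).1 h1
      have h4 := Nat.eq_zero_of_dvd_of_lt h3 (by omega)
      omega
    intro i hi j hj h
    rcases le_total i j with hij | hij
    · exact haux i j hij hj h
    · exact (haux j i hij hi h.symm).symm
  have hmemB : ∀ n : ℕ, g ^ n • x₀ ∈ B := fun n => (g ^ n).2
  let U : Finset S := (Finset.range t).image fun i => g ^ i • x₀
  have hUcard : U.card = t := by
    rw [Finset.card_image_of_injOn, Finset.card_range]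
    intro i hi j hj h
    exact hinj i (Finset.mem_range.1 hi) j (Finset.mem_range.1 hj) h
  have hUB : U ⊆ B := by
    intro y hy
    obtain ⟨i, _, rfl⟩ := Finset.mem_image.1 hy
    exact hmemB i
  have htr' : t = r := by
    obtain ⟨j, hj, hj'⟩ := (Nat.dvd_prime_pow hr).1 htdvd
    have h1 : t ≤ 2 * r := by
      rw [← hUcard, ← hcard]
      exact Finset.card_le_card hUB
    rcases j with _ | _ | j
    · rw [pow_zero] at hj'
      exact absurd hj' ht1
    · rw [zero_add, pow_one] at hj'
      exact hj'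
    · exfalso
      have h2 : r ^ 2 ≤ r ^ (j + 1 + 1) := Nat.pow_le_pow_right hr.pos (by omega)
      nlinarith
  have hcommH : ∀ (n : ℕ) (x : S), (g ^ n : H) • ι x = ι (g ^ n • x) := fun n x => hcomm _ x
  have hnotι : ∀ i j : ℕ, g ^ i • x₀ ≠ ι (g ^ j • x₀) := by
    intro i j h
    -- `ι x₀ = g ^ m x₀`
    obtain ⟨m, hm⟩ : ∃ m : ℕ, ι x₀ = g ^ m • x₀ := by
      refine ⟨t * j - j + i, ?_⟩
      have h1 : g ^ (t * j - j) • ι (g ^ j • x₀) = ι x₀ := by
        rw [hcommH, ← mul_smul, ← pow_add]
        have h2 : t * j - j + j = t * j := by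
          have : j ≤ t * j := Nat.le_mul_of_pos_left j ht0
          omega
        rw [h2, (hpow _).2 (Dvd.intro _ rfl)]
      rw [← h1, ← h, ← mul_smul, ← pow_add]
    have h1 : g ^ (2 * m) • x₀ = x₀ := by
      have h2 : ι (ι x₀) = g ^ m • ι x₀ := by
        conv_lhs => rw [hm]
        rw [hcommH]
      rw [hι, hm, ← mul_smul, ← pow_add] at h2
      rw [two_mul]
      exact h2.symm
    have h2 := (hpow _).1 h1
    rw [htr'] at h2
    have h3 : r ∣ m := by
      rcases (Nat.Prime.dvd_mul hr).1 h2 with h4 | h4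
      · exact absurd (Nat.le_of_dvd (by norm_num) h4) (by omega)
      · exact h4
    rw [← htr', ← hpow, ← hm] at h3
    exact hfix x₀ h3
  refine ⟨(g : G), ?_, ?_, ?_, ?_⟩
  · have h1 := (hpow r).2 (by rw [htr'])
    exact h1
  · intro i hi j hj h
    exact hinj i (by omega) j (by omega) h
  · intro i j h
    exact hnotι i j h
  · have hιinj : Function.Injective ι := by
      intro a b h
      rw [← hι a, h, hι]
    have hdisj : Disjoint U (U.image ι) := by
      rw [Finset.disjoint_left]
      intro x hx hx'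
      obtain ⟨i, _, rfl⟩ := Finset.mem_image.1 hx
      obtain ⟨y, hy, hy'⟩ := Finset.mem_image.1 hx'
      obtain ⟨j, _, rfl⟩ := Finset.mem_image.1 hy
      exact hnotι i j hy'.symm
    have hEq : U ∪ U.image ι = B := by
      apply Finset.eq_of_subset_of_card_le
      · intro y hy
        rcases Finset.mem_union.1 hy with h | h
        · exact hUB h
        · obtain ⟨x, hx, rfl⟩ := Finset.mem_image.1 h
          exact hBι x (hUB hx)
      · rw [Finset.card_union_of_disjoint hdisj, Finset.card_image_of_injective _ hιinj, hUcard,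
          hcard, htr']
        omega
    intro y hy
    rw [← hEq] at hy
    rcases Finset.mem_union.1 hy with h | h
    · obtain ⟨i, hi, rfl⟩ := Finset.mem_image.1 h
      exact ⟨i, by rw [← htr']; exact Finset.mem_range.1 hi, Or.inl rfl⟩
    · obtain ⟨x, hx, rfl⟩ := Finset.mem_image.1 h
      obtain ⟨i, hi, rfl⟩ := Finset.mem_image.1 hx
      exact ⟨i, by rw [← htr']; exact Finset.mem_range.1 hi, Or.inr rfl⟩

end Pool.Agent.Helper19.Sign
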