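import Pool.Agent.Helper19.Sign.Count
import Pool.Agent.Helper19.Sign.Rot
import Pool.Agent.Helper19.Sign.Poly

/-!
# The relations restricted to a block; small and prime blocks
-/

open Classical in
section

namespace Pool.Agent.Helper19.Sign

/-- The basis vector of `x`. -/
noncomputable def ev {S : Type} (x : S) : S → ℚ := Pi.single x 1

/-- `ev x - ev (ι x)`. -/
noncomputable def av {S : Type} (ι : S → S) (x : S) : S → ℚ := ev x - ev (ι x)

/-- The action on functions. -/
noncomputable def act {G S : Type} [Group G] [MulAction G S] (g : G) :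
    (S → ℚ) →ₗ[ℚ] (S → ℚ) := LinearMap.funLeft ℚ ℚ fun x => g⁻¹ • x

section

variable {G S : Type} [Group G] [MulAction G S] {ι : S → S}

theorem ev_apply (x y : S) : ev x y = if y = x then (1 : ℚ) else 0 := by
  rw [ev, Pi.single_apply]

theorem act_apply (g : G) (m : S → ℚ) (x : S) : act g m x = m (g⁻¹ • x) := rfl

theorem act_ev (g : G) (x : S) : act g (ev x) = ev (g • x) := by
  funext y
  rw [act_apply, ev_apply, ev_apply]
  have h : g⁻¹ • y = x ↔ y = g • x := by
    rw [inv_smul_eq_iff]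
  simp only [h]

theorem act_av (hcomm : ∀ (g : G) (x : S), g • ι x = ι (g • x)) (g : G) (x : S) :
    act g (av ι x) = av ι (g • x) := by
  rw [av, av, map_sub, act_ev, act_ev, hcomm]

theorem av_ι (hι : ∀ x, ι (ι x) = x) (x : S) : av ι (ι x) = - av ι x := by
  rw [av, av, hι]
  abel

theorem act_pow (hcomm : ∀ (g : G) (x : S), g • ι x = ι (g • x)) (g : G) (x : S) (i : ℕ) :
    ((act g : (S → ℚ) →ₗ[ℚ] (S → ℚ)) ^ i) (av ι x) = av ι (g ^ i • x) := by
  induction i with
  | zero => simp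
  | succ i ih => rw [pow_succ', Module.End.mul_apply, ih, act_av hcomm, ← mul_smul, ← pow_succ']

variable (W : Submodule ℚ (S → ℚ))

theorem fix_mem (hW : ∀ g : G, ∀ m ∈ W, act g m ∈ W) {u : S → ℚ} (hu : u ∈ W)
    (hanti : ∀ x, u (ι x) = - u x) (σ : G) (hσ : InCore ι σ) :
    (fun x => if σ • x = x then u x else 0) ∈ W := by
  have h1 : ((1 / 2 : ℚ) • (u + act σ⁻¹ u)) ∈ W := W.smul_mem _ (W.add_mem hu (hW σ⁻¹ u hu))
  convert h1 using 1
  funext x
  rw [Pi.smul_apply, Pi.add_apply, act_apply, inv_inv, smul_eq_mul]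
  by_cases h : σ • x = x
  · rw [if_pos h, h]; ring
  · rw [if_neg h, (hσ x).resolve_left h, hanti]; ring

variable [Fintype S]

theorem blk_mem [Finite G] (hι : ∀ x, ι (ι x) = x)
    (hcomm : ∀ (g : G) (x : S), g • ι x = ι (g • x)) (hW : ∀ g : G, ∀ m ∈ W, act g m ∈ W)
    (n : S → ℚ) (hn : ∀ g : G, (fun x => n x - n (g • x)) ∈ W) (x₀ : S) (σ₀ : G)
    (hσ₀ : InCore ι σ₀) (hx₀ : σ₀ • x₀ ≠ x₀) :
    (fun x => if x ∈ blk G ι x₀ then n x - n (ι x) else 0) ∈ W := by
  have hfin : Fintype G := Fintype.ofFinite G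
  have hfixι : ∀ (σ : G) (x : S), (σ • ι x = ι x ↔ σ • x = x) := by
    intro σ x
    rw [hcomm]
    constructor
    · intro h
      have := congrArg ι h
      rwa [hι, hι] at this
    · intro h; rw [h]
  have key : ∀ T : Finset G, (∀ σ ∈ T, InCore ι σ) →
      (fun x => if σ₀ • x ≠ x ∧ ∀ σ ∈ T, (σ • x₀ = x₀ ↔ σ • x = x) then n x - n (ι x) else 0)
        ∈ W := by
    intro T
    induction T using Finset.induction_on with
    | empty =>
      intro _
      convert hn σ₀ using 1
      funext x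
      by_cases h : σ₀ • x = x
      · rw [if_neg (by tauto), h, sub_self]
      · rw [if_pos ⟨h, by simp⟩, (hσ₀ x).resolve_left h]
    | insert σ T hσT ih =>
      intro hT
      have h1 := ih fun τ hτ => hT τ (Finset.mem_insert_of_mem hτ)
      have hσ : InCore ι σ := hT σ (Finset.mem_insert_self _ _)
      set u : S → ℚ := fun x => if σ₀ • x ≠ x ∧ ∀ σ ∈ T, (σ • x₀ = x₀ ↔ σ • x = x)
        then n x - n (ι x) else 0 with hu
      have hanti : ∀ x, u (ι x) = - u x := by
        intro x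
        have h2 : (σ₀ • ι x ≠ ι x ∧ ∀ σ ∈ T, (σ • x₀ = x₀ ↔ σ • ι x = ι x)) ↔
            (σ₀ • x ≠ x ∧ ∀ σ ∈ T, (σ • x₀ = x₀ ↔ σ • x = x)) := by
          simp only [hfixι, ne_eq]
        simp only [hu, hι]
        by_cases h3 : σ₀ • x ≠ x ∧ ∀ σ ∈ T, (σ • x₀ = x₀ ↔ σ • x = x)
        · rw [if_pos h3, if_pos (h2.2 h3)]; ring
        · rw [if_neg h3, if_neg (fun h => h3 (h2.1 h))]; ring
      have h2 := fix_mem W hW h1 hanti σ hσ
      by_cases h3 : σ • x₀ = x₀
      · convert h2 using 1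
        funext x
        simp only [hu]
        by_cases h4 : σ • x = x
        · rw [if_pos h4]
          refine if_congr ?_ rfl rfl
          constructor
          · rintro ⟨h5, h6⟩
            exact ⟨h5, fun τ hτ => h6 τ (Finset.mem_insert_of_mem hτ)⟩
          · rintro ⟨h5, h6⟩
            refine ⟨h5, fun τ hτ => ?_⟩
            rcases Finset.mem_insert.1 hτ with rfl | hτ
            · exact ⟨fun _ => h4, fun _ => h3⟩
            · exact h6 τ hτ
        · rw [if_neg h4, if_neg]
          rintro ⟨_, h6⟩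
          exact h4 ((h6 σ (Finset.mem_insert_self _ _)).1 h3)
      · convert W.sub_mem h1 h2 using 1
        funext x
        simp only [hu, Pi.sub_apply]
        by_cases h4 : σ • x = x
        · rw [if_pos h4, sub_self, if_neg]
          rintro ⟨_, h6⟩
          exact h3 ((h6 σ (Finset.mem_insert_self _ _)).2 h4)
        · rw [if_neg h4, sub_zero]
          refine if_congr ?_ rfl rfl
          constructor
          · rintro ⟨h5, h6⟩
            exact ⟨h5, fun τ hτ => h6 τ (Finset.mem_insert_of_mem hτ)⟩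
          · rintro ⟨h5, h6⟩
            refine ⟨h5, fun τ hτ => ?_⟩
            rcases Finset.mem_insert.1 hτ with rfl | hτ
            · exact ⟨fun h => absurd h h3, fun h => absurd h h4⟩
            · exact h6 τ hτ
  have h1 := key (Finset.univ.filter fun σ => InCore ι σ) (by simp)
  convert h1 using 1
  funext x
  refine if_congr ?_ rfl rfl
  rw [mem_blk]
  simp only [Finset.mem_filter, Finset.mem_univ, true_and]
  constructor
  · intro h
    exact ⟨fun h5 => hx₀ ((h σ₀ hσ₀).2 h5), h⟩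
  · rintro ⟨_, h⟩
    exact h

variable {W}

omit [Fintype S] in
theorem av_notMem (hfix : ∀ x, ι x ≠ x) (habs : ∀ x y, ev x - ev y ∈ W → x = y) (x : S) :
    av ι x ∉ W := fun h => hfix x (habs x (ι x) h).symm

omit [Fintype S] in
theorem av_sub_mem (hsum : ∀ x y, ev x + ev (ι x) - ev y - ev (ι y) ∈ W)
    (habs : ∀ x y, ev x - ev y ∈ W → x = y) {x y : S} (h : av ι x - av ι y ∈ W) : x = y := by
  apply habs
  have h1 := W.smul_mem (1 / 2 : ℚ) (W.add_mem h (hsum x y))
  convert h1 using 1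
  rw [av, av]
  module

omit [Fintype S] in
theorem sum_av (hι : ∀ x, ι (ι x) = x) (u : S → ℚ)
    (hanti : ∀ x, u (ι x) = - u x) (U : Finset S) (hU : ∀ x ∈ U, ι x ∉ U)
    (hsupp : ∀ x, x ∉ U → ι x ∉ U → u x = 0) : u = ∑ x ∈ U, u x • av ι x := by
  funext y
  rw [Finset.sum_apply]
  simp only [Pi.smul_apply, av, Pi.sub_apply, ev_apply, smul_eq_mul, mul_sub, mul_ite, mul_one,
    mul_zero, Finset.sum_sub_distrib]
  have h1 : ∑ x ∈ U, (if y = x then u x else 0) = if y ∈ U then u y else 0 := by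
    rw [Finset.sum_ite_eq]
  have h2 : ∑ x ∈ U, (if y = ι x then u x else 0) = if ι y ∈ U then u (ι y) else 0 := by
    have h3 : ∀ x, (y = ι x) ↔ (ι y = x) := by
      intro x
      constructor
      · rintro rfl; exact hι x
      · rintro rfl; exact (hι y).symm
    simp only [h3]
    rw [Finset.sum_ite_eq]
  rw [h1, h2, hanti]
  by_cases h4 : y ∈ U
  · rw [if_pos h4, if_neg (hU y h4)]; ring
  · by_cases h5 : ι y ∈ U
    · rw [if_neg h4, if_pos h5]; ring
    · rw [if_neg h4, if_neg h5, hsupp y h4 h5]; ring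

omit [Fintype S] in
/-- blocks with two elements -/
theorem case_one (hι : ∀ x, ι (ι x) = x) (hfix : ∀ x, ι x ≠ x) (B : Finset S) (x₀ : S)
    (hx₀ : x₀ ∈ B) (hBι : ∀ x ∈ B, ι x ∈ B) (hcard : B.card = 2)
    (u : S → ℚ) (hu : u ∈ W) (hanti : ∀ x, u (ι x) = - u x) (hsupp : ∀ x, x ∉ B → u x = 0)
    (habs : av ι x₀ ∉ W) : u x₀ = 0 := by
  by_contra hne
  apply habs
  have hB : {x₀, ι x₀} = B := by
    apply Finset.eq_of_subset_of_card_le
    · intro x hx
      rcases Finset.mem_insert.1 hx with rfl | hx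
      · exact hx₀
      · rw [Finset.mem_singleton] at hx
        rw [hx]; exact hBι _ hx₀
    · rw [hcard, Finset.card_pair (hfix x₀).symm]
  have h1 : u = u x₀ • av ι x₀ := by
    have h2 := sum_av hι u hanti {x₀} (by
      intro x hx
      rw [Finset.mem_singleton] at hx ⊢
      rw [hx]; exact hfix x₀) (by
      intro x h3 h4
      rw [Finset.mem_singleton] at h3 h4
      apply hsupp
      rw [← hB, Finset.mem_insert, Finset.mem_singleton]
      rintro (h5 | h5)
      · exact h3 h5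
      · apply h4; rw [h5, hι])
    rwa [Finset.sum_singleton] at h2
  rw [h1] at hu
  have h3 := W.smul_mem (u x₀)⁻¹ hu
  rwa [smul_smul, inv_mul_cancel₀ hne, one_smul] at h3

omit [Fintype S] in
/-- blocks with four elements -/
theorem case_two (hι : ∀ x, ι (ι x) = x) (hfix : ∀ x, ι x ≠ x)
    (hcomm : ∀ (g : G) (x : S), g • ι x = ι (g • x)) (hW : ∀ g : G, ∀ m ∈ W, act g m ∈ W)
    (hsum : ∀ x y, ev x + ev (ι x) - ev y - ev (ι y) ∈ W)
    (habs : ∀ x y, ev x - ev y ∈ W → x = y)
    (B : Finset S) (x₀ : S)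
    (hx₀ : x₀ ∈ B) (hBι : ∀ x ∈ B, ι x ∈ B)
    (hBg : ∀ g : G, g • x₀ ∈ B → ∀ x ∈ B, g • x ∈ B) (htr : ∀ y ∈ B, ∃ g : G, g • x₀ = y)
    (hcard : B.card = 4)
    (u : S → ℚ) (hu : u ∈ W) (hanti : ∀ x, u (ι x) = - u x) (hsupp : ∀ x, x ∉ B → u x = 0) :
    u x₀ = 0 := by
  by_contra hne
  obtain ⟨y, hy, hy1, hy2⟩ : ∃ y ∈ B, y ≠ x₀ ∧ y ≠ ι x₀ := by
    by_contra hcon
    push Not at hcon
    have h1 : B ⊆ {x₀, ι x₀} := by
      intro x hx
      rw [Finset.mem_insert, Finset.mem_singleton]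
      by_cases h2 : x = x₀
      · exact Or.inl h2
      · exact Or.inr (hcon x hx h2)
    have h2 := Finset.card_le_card h1
    have h3 := Finset.card_le_two (a := x₀) (b := ι x₀)
    omega
  have hιinj : ∀ a b, ι a = ι b → a = b := by
    intro a b h
    rw [← hι a, h, hι]
  have hy3 : ι y ≠ x₀ := by
    intro h; apply hy2; rw [← h, hι]
  have hy4 : ι y ≠ ι x₀ := fun h => hy1 (hιinj _ _ h)
  have hB : ({x₀, ι x₀, y, ι y} : Finset S) = B := by
    apply Finset.eq_of_subset_of_card_le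
    · intro x hx
      simp only [Finset.mem_insert, Finset.mem_singleton] at hx
      rcases hx with rfl | rfl | rfl | rfl
      · exact hx₀
      · exact hBι _ hx₀
      · exact hy
      · exact hBι _ hy
    · rw [hcard, Finset.card_insert_of_notMem, Finset.card_insert_of_notMem,
        Finset.card_pair (hfix y).symm]
      · simp only [Finset.mem_insert, Finset.mem_singleton, not_or]
        exact ⟨hy2.symm, hy4.symm⟩
      · simp only [Finset.mem_insert, Finset.mem_singleton, not_or]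
        exact ⟨(hfix x₀).symm, hy1.symm, hy3.symm⟩
  have h1 : u = u x₀ • av ι x₀ + u y • av ι y := by
    have h2 := sum_av hι u hanti {x₀, y} (by
      intro x hx
      simp only [Finset.mem_insert, Finset.mem_singleton] at hx ⊢
      rcases hx with rfl | rfl
      · rintro (h | h)
        · exact hfix _ h
        · exact hy2 h.symm
      · rintro (h | h)
        · exact hy3 h
        · exact hfix _ h) (by
      intro x h3 h4
      simp only [Finset.mem_insert, Finset.mem_singleton, not_or] at h3 h4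
      apply hsupp
      rw [← hB]
      simp only [Finset.mem_insert, Finset.mem_singleton]
      rintro (h5 | h5 | h5 | h5)
      · exact h3.1 h5
      · apply h4.1; rw [h5, hι]
      · exact h3.2 h5
      · apply h4.2; rw [h5, hι])
    rwa [Finset.sum_pair hy1.symm] at h2
  set p := u x₀ with hp
  set q := u y with hq
  set A := av ι x₀ with hA
  set A' := av ι y with hA'
  obtain ⟨τ, hτ⟩ := htr y hy
  have hτB : ∀ x ∈ B, τ • x ∈ B := hBg τ (by rw [hτ]; exact hy)
  have h2 : act τ A = A' := by rw [hA, act_av hcomm, hτ]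
  have h3 : τ • y ∈ B := hτB y hy
  have h4 : act τ A' = av ι (τ • y) := by rw [hA', act_av hcomm]
  have h5 : act τ u ∈ W := hW τ u hu
  have hAW : A ∉ W := av_notMem hfix habs x₀
  rw [h1, map_add, map_smul, map_smul, h2, h4] at h5
  rw [h1] at hu
  rw [← hB] at h3
  simp only [Finset.mem_insert, Finset.mem_singleton] at h3
  have hdiv : ∀ (r : ℚ) (v : S → ℚ), r ≠ 0 → r • v ∈ W → v ∈ W := by
    intro r v hr hv
    have h6 := W.smul_mem r⁻¹ hv
    rwa [smul_smul, inv_mul_cancel₀ hr, one_smul] at h6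
  rcases h3 with h6 | h6 | h6 | h6
  · -- `τ y = x₀`
    rw [h6, ← hA] at h5
    have h7 : (p ^ 2 - q ^ 2) • A ∈ W := by
      have h8 := W.sub_mem (W.smul_mem p hu) (W.smul_mem q h5)
      convert h8 using 1
      module
    by_cases h9 : p ^ 2 - q ^ 2 = 0
    · have h10 : (p - q) * (p + q) = 0 := by rw [← h9]; ring
      rcases mul_eq_zero.1 h10 with h11 | h11
      · have h12 : p = q := by linarith
        rw [← h12, ← smul_add] at hu
        have h13 := hdiv p _ hne hu
        have h14 : av ι x₀ - av ι (ι y) ∈ W := by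
          rw [av_ι hι, sub_neg_eq_add]
          exact h13
        exact hy3 (av_sub_mem hsum habs h14).symm
      · have h12 : q = -p := by linarith
        rw [h12, neg_smul, ← sub_eq_add_neg, ← smul_sub] at hu
        exact hy1 (av_sub_mem hsum habs (hdiv p _ hne hu)).symm
    · exact hAW (hdiv _ _ h9 h7)
  · -- `τ y = ι x₀`
    rw [h6, av_ι hι, ← hA] at h5
    have h7 : (p ^ 2 + q ^ 2) • A ∈ W := by
      have h8 := W.sub_mem (W.smul_mem p hu) (W.smul_mem q h5)
      convert h8 using 1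
      module
    have h9 : p ^ 2 + q ^ 2 ≠ 0 := by positivity
    exact hAW (hdiv _ _ h9 h7)
  · -- `τ y = y`
    have h7 : τ • x₀ = τ • y := by rw [hτ, h6]
    exact hy1 (MulAction.injective τ h7).symm
  · -- `τ y = ι y`
    have h7 : τ • ι x₀ = τ • y := by rw [hcomm, hτ, h6]
    exact hy2 (MulAction.injective τ h7).symm

/-- blocks with `2 r` elements -/
theorem case_prime [Finite G] (hι : ∀ x, ι (ι x) = x) (hfix : ∀ x, ι x ≠ x)
    (hcomm : ∀ (g : G) (x : S), g • ι x = ι (g • x)) (hW : ∀ g : G, ∀ m ∈ W, act g m ∈ W)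
    (hsum : ∀ x y, ev x + ev (ι x) - ev y - ev (ι y) ∈ W)
    (habs : ∀ x y, ev x - ev y ∈ W → x = y)
    (B : Finset S) (x₀ : S)
    (hx₀ : x₀ ∈ B) (hBι : ∀ x ∈ B, ι x ∈ B)
    (hBg : ∀ g : G, g • x₀ ∈ B → ∀ x ∈ B, g • x ∈ B) (htr : ∀ y ∈ B, ∃ g : G, g • x₀ = y)
    (r : ℕ) (hr : r.Prime) (hr2 : r ≠ 2) (hcard : B.card = 2 * r)
    (w : S → ℚ) (hw : ∀ x, w (ι x) = - w x)
    (hwW : ∀ u ∈ W, (∀ x, u (ι x) = - u x) → ∑ x, u x * w x = 0)
    (ρ : ℚ) (hρ : ρ ≠ 0) (hwρ : ∀ x ∈ B, padicNorm 2 (w x) = ρ)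
    (u : S → ℚ) (hu : u ∈ W) (hanti : ∀ x, u (ι x) = - u x) (hsupp : ∀ x, x ∉ B → u x = 0) :
    u x₀ = 0 := by
  obtain ⟨g, hg1, hg2, hg3, hg4⟩ := exists_rotation ι hι hfix hcomm B x₀ hx₀ hBι hBg htr r hr hr2
    hcard
  have hr0 : 0 < r := hr.pos
  have hr1 : 1 < r := hr.one_lt
  let U : Finset S := (Finset.range r).image fun i => g ^ i • x₀
  have hinj : Set.InjOn (fun i => g ^ i • x₀) (Finset.range r : Set ℕ) := by
    intro i hi j hj h
    exact hg2 i (Finset.mem_range.1 hi) j (Finset.mem_range.1 hj) h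
  have hUcard : U.card = r := by
    rw [Finset.card_image_of_injOn hinj, Finset.card_range]
  have hιinj : Function.Injective ι := by
    intro a b h
    rw [← hι a, h, hι]
  have hUdisj : ∀ x ∈ U, ι x ∉ U := by
    intro x hx hx'
    obtain ⟨i, _, rfl⟩ := Finset.mem_image.1 hx
    obtain ⟨j, _, hj⟩ := Finset.mem_image.1 hx'
    exact hg3 j i hj
  have hBU : B ⊆ U ∪ U.image ι := by
    intro y hy
    obtain ⟨i, hi, h | h⟩ := hg4 y hy
    · exact Finset.mem_union_left _ (Finset.mem_image.2 ⟨i, Finset.mem_range.2 hi, h.symm⟩)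
    · refine Finset.mem_union_right _ (Finset.mem_image.2 ⟨g ^ i • x₀, ?_, h.symm⟩)
      exact Finset.mem_image.2 ⟨i, Finset.mem_range.2 hi, rfl⟩
  have hBU' : B = U ∪ U.image ι := by
    apply Finset.eq_of_subset_of_card_le hBU
    refine (Finset.card_union_le _ _).trans ?_
    rw [Finset.card_image_of_injective _ hιinj, hUcard, hcard]
    omega
  have hUB : ∀ x ∈ U, x ∈ B := fun x hx => by
    rw [hBU']; exact Finset.mem_union_left _ hx
  have hsum1 : u = ∑ i ∈ Finset.range r, u (g ^ i • x₀) • ((act g : (S → ℚ) →ₗ[ℚ] (S → ℚ)) ^ i)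
      (av ι x₀) := by
    have h2 := sum_av hι u hanti U hUdisj (by
      intro x h3 h4
      apply hsupp
      rw [hBU', Finset.mem_union]
      rintro (h5 | h5)
      · exact h3 h5
      · obtain ⟨y, hy, rfl⟩ := Finset.mem_image.1 h5
        apply h4
        rw [hι]; exact hy)
    have h3 : ∑ x ∈ U, u x • av ι x = ∑ i ∈ Finset.range r, u (g ^ i • x₀) •
        ((act g : (S → ℚ) →ₗ[ℚ] (S → ℚ)) ^ i) (av ι x₀) := by
      rw [Finset.sum_image hinj]
      refine Finset.sum_congr rfl fun i _ => ?_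
      rw [act_pow hcomm]
    rw [← h3]
    exact h2
  have hconst := const_of_relation W (act g) (fun v hv => hW g v hv) (av ι x₀) r hr
    (by rw [act_pow hcomm, hg1]) (by
      intro h
      rw [act_av hcomm] at h
      have h5 := av_sub_mem hsum habs h
      have h6 := hg2 1 hr1 0 hr0 (by rw [pow_one, pow_zero, one_smul]; exact h5)
      omega) (fun i => u (g ^ i • x₀)) (by rw [← hsum1]; exact hu)
  have hconst' : ∀ i < r, u (g ^ i • x₀) = u x₀ := by
    intro i hi
    have := hconst i hi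
    rwa [pow_zero, one_smul] at this
  -- the valuation
  have hav : ∀ y, ∑ x, av ι y x * w x = 2 * w y := by
    intro y
    simp only [av, Pi.sub_apply, ev_apply, sub_mul, ite_mul, one_mul, zero_mul,
      Finset.sum_sub_distrib, Finset.sum_ite_eq', Finset.mem_univ, if_true]
    rw [hw]; ring
  have h7 := hwW u hu hanti
  have h8 : ∑ x, u x * w x = u x₀ * (2 * ∑ i ∈ Finset.range r, w (g ^ i • x₀)) := by
    conv_lhs => rw [hsum1]
    simp only [Finset.sum_apply, Pi.smul_apply, smul_eq_mul, Finset.sum_mul]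
    rw [Finset.sum_comm, Finset.mul_sum, Finset.mul_sum]
    refine Finset.sum_congr rfl fun i hi => ?_
    rw [hconst' i (Finset.mem_range.1 hi), act_pow hcomm, ← hav, Finset.mul_sum]
    refine Finset.sum_congr rfl fun x _ => ?_
    ring
  have h9 : ∑ i ∈ Finset.range r, w (g ^ i • x₀) ≠ 0 := by
    refine sum_ne_zero_of_padicNorm _ _ ρ hρ ?_ ?_
    · intro i hi
      exact hwρ _ (hUB _ (Finset.mem_image.2 ⟨i, hi, rfl⟩))
    · rw [Finset.card_range]
      exact hr.odd_of_ne_two hr2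
  rw [h8] at h7
  rcases mul_eq_zero.1 h7 with h10 | h10
  · exact h10
  · exact absurd h10 (mul_ne_zero two_ne_zero h9)

end

end Pool.Agent.Helper19.Sign

end
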