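import Pool.Agent.Helper19.Sign.Defs

/-!
# SG-1: blocks (MP_de89cc_ag, sign codes)

All the statements are elementary.  `G` acts on `S`, `ι` is an involution commuting with `G`.

* `inCore_conj`: `σ` in the core (`σ x ∈ {x, ι x}` for all `x`) implies `g σ g⁻¹` in the core.
* `sameSign_smul`: `g σ g⁻¹` fixes `g x` iff `σ` fixes `x`; use `inCore_conj`.
* `ι_mem_blk`: `σ (ι x) = ι (σ x)`, `ι` injective: `σ` fixes `ι x` iff it fixes `x`.
* `count`: let `𝓑 = univ.image (blk G ι)` be the set of the blocks and `k = 𝓑.card`.  All blocks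
  have the same cardinality (`card_blk_smul`, transitivity) and the fibre of `blk` over the block
  `B = blk x` is `B` itself (`blk_eq_of_mem`, `self_mem_blk`), so `card S = k * card (blk x₀)`
  (`Finset.card_eq_sum_card_fiberwise`).  The map from the core to the functions `𝓑 → Bool`,
  `σ ↦ (B ↦ (∀ x ∈ B, σ x = x))`, is injective: for `x ∈ B` its value at `B = blk x` is true iff
  `σ x = x` (same sign on `B`); so if `σ, σ'` have the same image then `σ x = x ↔ σ' x = x`, hence
  `σ x = σ' x` (otherwise both are `ι x`), hence `σ⁻¹ σ'` fixes every `x` and `σ = σ'`.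
-/

namespace Pool.Agent.Helper19.Sign

variable {G S : Type} [Group G] [MulAction G S] {ι : S → S}

theorem inCore_conj (hcomm : ∀ (g : G) (x : S), g • ι x = ι (g • x)) {σ : G} (hσ : InCore ι σ)
    (g : G) : InCore ι (g * σ * g⁻¹) := by
  intro x
  rcases hσ (g⁻¹ • x) with h | h
  · left
    rw [mul_smul, mul_smul, h, smul_inv_smul]
  · right
    rw [mul_smul, mul_smul, h, hcomm, smul_inv_smul]

theorem sameSign_smul (hcomm : ∀ (g : G) (x : S), g • ι x = ι (g • x)) {x y : S}
    (h : SameSign G ι x y) (g : G) : SameSign G ι (g • x) (g • y) := by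
  intro σ hσ
  have hc : InCore ι (g⁻¹ * σ * g) := by
    have h1 := inCore_conj hcomm hσ g⁻¹
    rwa [inv_inv] at h1
  have h2 : ∀ z : S, (g⁻¹ * σ * g) • z = z ↔ σ • (g • z) = g • z := by
    intro z
    rw [mul_smul, mul_smul, inv_smul_eq_iff]
  rw [← h2, ← h2]
  exact h _ hc

variable [Fintype S]

theorem mem_blk {x y : S} : y ∈ blk G ι x ↔ SameSign G ι x y := by
  unfold blk
  simp

theorem self_mem_blk (x : S) : x ∈ blk G ι x := by
  rw [mem_blk]
  exact fun _ _ => Iff.rfl

theorem blk_eq_of_mem {x y : S} (h : y ∈ blk G ι x) : blk G ι y = blk G ι x := by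
  rw [mem_blk] at h
  ext z
  rw [mem_blk, mem_blk]
  exact ⟨fun h1 σ hσ => (h σ hσ).trans (h1 σ hσ), fun h1 σ hσ => (h σ hσ).symm.trans (h1 σ hσ)⟩

theorem ι_mem_blk (hι : ∀ x, ι (ι x) = x) (hcomm : ∀ (g : G) (x : S), g • ι x = ι (g • x))
    {x y : S} (h : y ∈ blk G ι x) : ι y ∈ blk G ι x := by
  rw [mem_blk] at h ⊢
  intro σ hσ
  rw [h σ hσ, hcomm]
  constructor
  · intro h1
    rw [h1]
  · intro h1
    rw [← hι (σ • y), h1, hι]

theorem smul_mem_blk (hcomm : ∀ (g : G) (x : S), g • ι x = ι (g • x)) {x y : S}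
    (h : y ∈ blk G ι x) (g : G) : g • y ∈ blk G ι (g • x) := by
  rw [mem_blk] at h ⊢
  exact sameSign_smul hcomm h g

theorem card_blk_smul (hcomm : ∀ (g : G) (x : S), g • ι x = ι (g • x)) (x : S) (g : G) :
    (blk G ι (g • x)).card = (blk G ι x).card := by
  apply le_antisymm
  · refine Finset.card_le_card_of_injOn (fun y => g⁻¹ • y) ?_ ?_
    · intro y hy
      have h1 := smul_mem_blk hcomm hy g⁻¹
      rwa [inv_smul_smul] at h1
    · intro y _ z _ h1
      exact smul_left_cancel g⁻¹ h1
  · refine Finset.card_le_card_of_injOn (fun y => g • y) ?_ ?_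
    · intro y hy
      exact smul_mem_blk hcomm hy g
    · intro y _ z _ h1
      exact smul_left_cancel g h1

theorem count [Finite G] (hι : ∀ x, ι (ι x) = x)
    (hcomm : ∀ (g : G) (x : S), g • ι x = ι (g • x)) (htr : ∀ x y : S, ∃ g : G, g • x = y)
    (hfaith : ∀ σ : G, (∀ x : S, σ • x = x) → σ = 1) (x₀ : S) :
    ∃ k : ℕ, Fintype.card S = k * (blk G ι x₀).card ∧
      Nat.card {σ : G // InCore ι σ} ≤ 2 ^ k := by
  classical
  let 𝓑 : Finset (Finset S) := Finset.univ.image (blk G ι)
  refine ⟨𝓑.card, ?_, ?_⟩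
  · have h1 : (Finset.univ : Finset S).card =
        ∑ B ∈ 𝓑, ((Finset.univ : Finset S).filter fun x => blk G ι x = B).card :=
      Finset.card_eq_sum_card_fiberwise fun x _ => Finset.mem_image_of_mem _ (Finset.mem_univ x)
    rw [← Finset.card_univ, h1]
    have h2 : ∀ B ∈ 𝓑, ((Finset.univ : Finset S).filter fun x => blk G ι x = B).card =
        (blk G ι x₀).card := by
      intro B hB
      obtain ⟨x, -, rfl⟩ := Finset.mem_image.1 hB
      have h3 : ((Finset.univ : Finset S).filter fun y => blk G ι y = blk G ι x) = blk G ι x := by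
        ext y
        rw [Finset.mem_filter]
        constructor
        · rintro ⟨-, h4⟩
          rw [← h4]
          exact self_mem_blk y
        · intro h4
          exact ⟨Finset.mem_univ y, blk_eq_of_mem h4⟩
      rw [h3]
      obtain ⟨g, hg⟩ := htr x₀ x
      rw [← hg]
      exact card_blk_smul hcomm x₀ g
    rw [Finset.sum_congr rfl h2, Finset.sum_const, smul_eq_mul]
  · let φ : {σ : G // InCore ι σ} → (𝓑 → Bool) := fun σ B => decide (∀ x ∈ B.1, σ.1 • x = x)
    have hφ : Function.Injective φ := by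
      intro σ τ h
      have key : ∀ (ρ : {σ : G // InCore ι σ}) (x : S),
          φ ρ ⟨blk G ι x, Finset.mem_image_of_mem _ (Finset.mem_univ x)⟩ = true ↔
            ρ.1 • x = x := by
        intro ρ x
        show decide (∀ y ∈ blk G ι x, ρ.1 • y = y) = true ↔ _
        rw [decide_eq_true_iff]
        constructor
        · intro h1
          exact h1 x (self_mem_blk x)
        · intro h1 y hy
          exact ((mem_blk.1 hy) ρ.1 ρ.2).1 h1
      have h2 : ∀ x : S, σ.1 • x = x ↔ τ.1 • x = x := by
        intro x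
        rw [← key, ← key, h]
      have h3 : ∀ x : S, σ.1 • x = τ.1 • x := by
        intro x
        rcases σ.2 x with h4 | h4
        · rw [h4, (h2 x).1 h4]
        · rcases τ.2 x with h5 | h5
          · rw [h5, (h2 x).2 h5]
          · rw [h4, h5]
      apply Subtype.ext
      have h4 : τ.1⁻¹ * σ.1 = 1 := by
        apply hfaith
        intro x
        rw [mul_smul, h3, inv_smul_smul]
      exact (inv_mul_eq_one.1 h4).symm
    have h5 := Nat.card_le_card_of_injective φ hφ
    have h6 : Nat.card (𝓑 → Bool) = 2 ^ 𝓑.card := by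
      rw [Nat.card_eq_fintype_card, Fintype.card_fun, Fintype.card_bool, Fintype.card_coe]
    rwa [h6] at h5

end Pool.Agent.Helper19.Sign
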