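import Mathlib

/-!
# Sign codes (MP_de89cc_ag): definitions

`G` is a group acting on a finite set `S` (the Galois group and the Frobenius eigenvalues) and
`ι : S → S` (`β ↦ c / β`) an involution which commutes with `G`.
-/

namespace Pool.Agent.Helper19.Sign

/-- `σ` maps every `x` to `x` or to `ι x`. -/
def InCore {G S : Type} [Group G] [MulAction G S] (ι : S → S) (σ : G) : Prop :=
  ∀ x : S, σ • x = x ∨ σ • x = ι x

/-- `x` and `y` have the same sign character on the core. -/
def SameSign (G : Type) {S : Type} [Group G] [MulAction G S] (ι : S → S) (x y : S) : Prop :=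
  ∀ σ : G, InCore ι σ → (σ • x = x ↔ σ • y = y)

open Classical in
/-- The block of `x`: all `y` with the same sign character. -/
noncomputable def blk (G : Type) {S : Type} [Group G] [MulAction G S] [Fintype S] (ι : S → S)
    (x : S) : Finset S :=
  Finset.univ.filter fun y => SameSign G ι x y

/-- The rational (multiplicative) relations between the elements `val x`, up to torsion. -/
def relMod {S M : Type} [Fintype S] [CommGroup M] (val : S → M) : Submodule ℚ (S → ℚ) where
  carrier := {m | ∃ k : ℕ, k ≠ 0 ∧ ∃ n : S → ℤ, (∀ x, (n x : ℚ) = k * m x) ∧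
    ∏ x, val x ^ n x = 1}
  zero_mem' := ⟨1, one_ne_zero, 0, fun x => by simp, by simp⟩
  add_mem' := by
    rintro a b ⟨k, hk, n, hn, h1⟩ ⟨k', hk', n', hn', h1'⟩
    refine ⟨k * k', Nat.mul_ne_zero hk hk', fun x => k' * n x + k * n' x, fun x => ?_, ?_⟩
    · push_cast
      rw [hn, hn', Pi.add_apply]
      ring
    · have h2 : ∀ x, val x ^ ((k' : ℤ) * n x + k * n' x) =
          (val x ^ n x) ^ (k' : ℤ) * (val x ^ n' x) ^ (k : ℤ) := by
        intro x
        rw [zpow_add, mul_comm (k' : ℤ), mul_comm (k : ℤ), zpow_mul, zpow_mul]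
      rw [Finset.prod_congr rfl fun x _ => h2 x, Finset.prod_mul_distrib, Finset.prod_zpow,
        Finset.prod_zpow, h1, h1', one_zpow, one_zpow, one_mul]
  smul_mem' := by
    rintro q a ⟨k, hk, n, hn, h1⟩
    refine ⟨k * q.den, Nat.mul_ne_zero hk q.den_nz, fun x => q.num * n x, fun x => ?_, ?_⟩
    · push_cast
      rw [hn, Pi.smul_apply, smul_eq_mul]
      have h2 : (q.den : ℚ) ≠ 0 := by exact_mod_cast q.den_nz
      have h3 : (q.num : ℚ) = q * q.den := (Rat.mul_den_eq_num q).symm
      rw [h3]
      ring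
    · have h2 : ∀ x, val x ^ (q.num * n x) = (val x ^ n x) ^ q.num := by
        intro x
        rw [mul_comm, zpow_mul]
      rw [Finset.prod_congr rfl fun x _ => h2 x, Finset.prod_zpow, h1, one_zpow]

theorem mem_relMod {S M : Type} [Fintype S] [CommGroup M] {val : S → M} {m : S → ℚ} :
    m ∈ relMod val ↔ ∃ k : ℕ, k ≠ 0 ∧ ∃ n : S → ℤ, (∀ x, (n x : ℚ) = k * m x) ∧
      ∏ x, val x ^ n x = 1 := Iff.rfl

open Polynomial in
/-- The polynomial `T ^ g h(T + c / T)`, `g = deg h`. -/
noncomputable def weil {R : Type} [CommRing R] (c : R) (h : R[X]) : R[X] :=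
  ∑ j ∈ Finset.range (h.natDegree + 1),
    C (h.coeff j) * X ^ (h.natDegree - j) * (X ^ 2 + C c) ^ j

end Pool.Agent.Helper19.Sign
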