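import Pool.Agent.Helper19.Sign.Weil

/-!
# SG-16: Frobenius elements in the core (MP_de89cc_ag, sign codes)

`P = weil c h = T ^ g h(T + c / T)`.  `F` is a finite field over which `h` splits and `P` is
separable.  Then some `τ` in the Galois group maps every root `β` of `P` to `β` or `c / β`, and the
number of the fixed roots is the number of roots of `P` in `F`.

PROOF.  Let `p = char F`, `|F| = p ^ k`, `R = 𝓞 L` (or `integralClosure ℤ L`), `𝔓` a maximal ideal of
`R` containing `p` (`Ideal.exists_le_maximal`, or `Ideal.exists_ideal_over_maximal...`), and `σ` an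
arithmetic Frobenius: `σ y - y ^ p ∈ 𝔓` for all `y ∈ R` (Mathlib.RingTheory.Frobenius:
`AlgHom.IsArithFrobAt`, `IsArithFrobAt.exists_of_isInvariant`, `R / 𝔓` is finite and
`Nat.card (ℤ ⧸ 𝔓.under ℤ) = p`).  Put `τ = σ ^ k`, so `τ y - y ^ (p ^ k) ∈ 𝔓` for `y ∈ R` (induction).
Let `Ω` be an algebraic closure of `κ = R / 𝔓`, `r : R → Ω` the reduction; `F` embeds in `Ω` (both
are algebraic/of characteristic `p`: `IsAlgClosed.lift` over `ZMod p`), and the image of `F` is the
set of the `z` with `z ^ |F| = z` (`FiniteField.pow_card`, at most `|F|` roots of `X ^ |F| - X`).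
`P.map (Int.castRingHom Ω)` is separable (`Polynomial.Separable.map`), monic of degree `2 g`, and
equal to the product of the `X - C (r β)` over the roots `β` of `P` in `L` (these are in `R`,
integral; `P.map` splits over `L`, `L` is the fraction field of `R`): so `r` is a bijection from the
roots of `P` in `L` to the roots of `P` in `Ω` (injective because of separability: a product of
`2 g` linear factors, nodup roots).
Let `β` be a root, `β' = c / β` (`β ≠ 0` because `c ≠ 0`: `weil c h` at `0` is `c ^ g`;
`β' = x - β`, `x = β + c / β`, `x` is a root of `h` by `eval_weil`, so `x` and `β'` are integral).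
`x̄ = r x` is a root of `h` in `Ω`, `h` splits over `F`, so `x̄` is in the image of `F` and
`x̄ ^ |F| = x̄`.  `y = r (τ β) = (r β) ^ |F|` satisfies `y ^ 2 - x̄ y + c = (r β ^ 2 - x̄ r β + c) ^ |F|
= 0` (Frobenius is additive) `= (y - r β) (y - r β')`.  So `y = r β` or `y = r β'`, and `τ β`, `β`,
`β'` are roots of `P` (`β'` by the symmetry), so `τ β = β` or `τ β = β'` by injectivity.
Finally `τ β = β` iff `(r β) ^ |F| = r β` iff `r β` is in the image of `F`; so the fixed roots are in
bijection with the roots of `P` in `F` (which are simple: separable).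
-/

open Polynomial

namespace Pool.Agent.Helper19.Sign

/-- Evaluation of integer polynomials and ring homomorphisms. -/
theorem eval_hom {A A' : Type} [CommRing A] [CommRing A'] (f : A →+* A') (P : ℤ[X]) (a : A) :
    (P.map (Int.castRingHom A')).eval (f a) = f ((P.map (Int.castRingHom A)).eval a) := by
  have h : P.map (Int.castRingHom A') = (P.map (Int.castRingHom A)).map f := by
    rw [Polynomial.map_map]
    exact congrArg (fun g => P.map g) (RingHom.ext_int _ _)
  rw [h, eval_map, eval₂_at_apply]

/-- Reduction modulo a prime ideal above `p`, and a power of a Frobenius element. -/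
theorem exists_red (L : Type) [Field L] [NumberField L] [IsGalois ℚ L] (p : ℕ) [Fact p.Prime]
    (Ω : Type) [Field Ω] [IsAlgClosed Ω] [CharP Ω p] (k : ℕ) :
    ∃ (r : integralClosure ℤ L →+* Ω) (τ : L ≃ₐ[ℚ] L), ∀ b : integralClosure ℤ L,
      ∃ b' : integralClosure ℤ L, (b' : L) = τ (b : L) ∧ r b' = r b ^ (p ^ k) := by
  classical
  have hpp : p.Prime := Fact.out
  let B := integralClosure ℤ L
  have hfree : Module.Free ℤ B := IsIntegralClosure.module_free ℤ ℚ L B
  have hfin : Module.Finite ℤ B := IsIntegralClosure.finite ℤ ℚ L B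
  have hfr : IsFractionRing B L :=
    IsIntegralClosure.isFractionRing_of_finite_extension ℤ ℚ L B
  have hmaxp : (Ideal.span {(p : ℤ)}).IsMaximal :=
    PrincipalIdealRing.isMaximal_of_irreducible (Nat.prime_iff_prime_int.1 hpp).irreducible
  have hker : RingHom.ker (algebraMap ℤ B) ≤ Ideal.span {(p : ℤ)} := by
    have h1 : RingHom.ker (algebraMap ℤ B) = ⊥ := by
      rw [RingHom.ker_eq_bot_iff_eq_zero]
      intro x hx
      have h2 : ((x : B) : L) = 0 := by
        have h3 : algebraMap ℤ B x = (x : B) := by simp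
        rw [← h3, hx]
        rfl
      have h4 : (x : L) = 0 := by
        rw [← h2]
        simp
      exact_mod_cast h4
    rw [h1]
    exact bot_le
  obtain ⟨P, hPm, hPc⟩ :=
    Ideal.exists_ideal_over_maximal_of_isIntegral (S := B) (Ideal.span {(p : ℤ)}) hker
  have hunder : P.under ℤ = Ideal.span {(p : ℤ)} := hPc
  have hpP : (p : B) ∈ P := by
    have h1 : (p : ℤ) ∈ P.under ℤ := by
      rw [hunder]
      exact Ideal.mem_span_singleton_self _
    rw [Ideal.under_def, Ideal.mem_comap] at h1
    have h2 : algebraMap ℤ B (p : ℤ) = (p : B) := by simp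
    rwa [h2] at h1
  have hPne : P ≠ ⊥ := by
    intro h
    rw [h, Ideal.mem_bot] at hpP
    exact hpp.ne_zero (by exact_mod_cast hpP)
  have hP : P.IsPrime := hPm.isPrime
  have hfq : Finite (B ⧸ P) := Ideal.finiteQuotientOfFreeOfNeBot P hPne
  have hcard : Nat.card (ℤ ⧸ P.under ℤ) = p := by
    rw [hunder, Nat.card_congr (Int.quotientSpanNatEquivZMod p).toEquiv]
    simp
  let _ : MulSemiringAction Gal(L/ℚ) B := IsIntegralClosure.MulSemiringAction ℤ ℚ L B
  have hinv : Algebra.IsInvariant ℤ B Gal(L/ℚ) := Algebra.isInvariant_of_isGalois ℤ ℚ L B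
  obtain ⟨σ, hσ⟩ := IsArithFrobAt.exists_of_isInvariant ℤ Gal(L/ℚ) P
  let _ : Field (B ⧸ P) := Ideal.Quotient.field P
  have hcz : ((p : ℕ) : B ⧸ P) = 0 := by
    have h1 : Ideal.Quotient.mk P (p : B) = 0 := Ideal.Quotient.eq_zero_iff_mem.2 hpP
    rwa [map_natCast] at h1
  have hchar : CharP (B ⧸ P) p := (CharP.charP_iff_prime_eq_zero hpp).2 hcz
  let _ : Algebra (ZMod p) (B ⧸ P) := ZMod.algebra (B ⧸ P) p
  let _ : Algebra (ZMod p) Ω := ZMod.algebra Ω p
  have hmf : Module.Finite (ZMod p) (B ⧸ P) := Module.Finite.of_finite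
  let ψ : (B ⧸ P) →ₐ[ZMod p] Ω := IsAlgClosed.lift
  let r : B →+* Ω := ψ.toRingHom.comp (Ideal.Quotient.mk P)
  have hr : ∀ b : B, r (σ • b) = r b ^ p := by
    intro b
    have h1 := hσ b
    rw [hcard] at h1
    have h2 : r (σ • b - b ^ p) = 0 := by
      have h3 : Ideal.Quotient.mk P (σ • b - b ^ p) = 0 := Ideal.Quotient.eq_zero_iff_mem.2 h1
      change ψ.toRingHom (Ideal.Quotient.mk P (σ • b - b ^ p)) = 0
      rw [h3, map_zero]
    rw [map_sub, map_pow, sub_eq_zero] at h2
    exact h2
  have hrk : ∀ (j : ℕ) (b : B), r ((σ ^ j) • b) = r b ^ (p ^ j) := by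
    intro j
    induction j with
    | zero => intro b; rw [pow_zero, one_smul, pow_zero, pow_one]
    | succ j ih =>
      intro b
      rw [pow_succ, mul_smul, ih, hr, ← pow_mul, pow_succ, mul_comm p]
  refine ⟨r, σ ^ k, fun b => ⟨(σ ^ k) • b, ?_, hrk k b⟩⟩
  exact algebraMap_galRestrict_apply ℤ (σ ^ k) b

theorem exists_frob (L : Type) [Field L] [NumberField L] [IsGalois ℚ L] [DecidableEq L]
    (c : ℤ) (hc : c ≠ 0) (h : ℤ[X]) (hm : h.Monic)
    (F : Type) [Field F] [Finite F]
    (hsF : (h.map (Int.castRingHom F)).Splits)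
    (hsep : ((weil c h).map (Int.castRingHom F)).Separable)
    (hsL : ((weil c h).map (Int.castRingHom L)).Splits) :
    ∃ τ : L ≃ₐ[ℚ] L,
      (∀ β ∈ ((weil c h).map (Int.castRingHom L)).roots, τ β = β ∨ τ β = (c : L) / β) ∧
      (((weil c h).map (Int.castRingHom L)).roots.toFinset.filter (fun β => τ β = β)).card =
        Multiset.card ((weil c h).map (Int.castRingHom F)).roots := by
  classical
  obtain ⟨p, hpF⟩ := CharP.exists F
  have hFt : Fintype F := Fintype.ofFinite F
  have hp : p.Prime := CharP.char_is_prime F p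
  obtain ⟨k, _, hk⟩ := FiniteField.card F p
  have hF : Fact p.Prime := ⟨hp⟩
  have hΩ : CharP (AlgebraicClosure F) p :=
    charP_of_injective_algebraMap (algebraMap F (AlgebraicClosure F)).injective p
  have hΩe : ExpChar (AlgebraicClosure F) p := ExpChar.prime hp
  obtain ⟨r, τ, hτ⟩ := exists_red L p (AlgebraicClosure F) k
  set W := weil c h with hW
  have hWm : W.Monic := (weil_monic c h hm).1
  have hcL : (c : L) ≠ 0 := by exact_mod_cast hc
  -- the inclusion of the ring of integers
  let i : integralClosure ℤ L →+* L := (integralClosure ℤ L).val.toRingHom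
  have hi : Function.Injective i := Subtype.val_injective
  have hiv : ∀ b : integralClosure ℤ L, i b = (b : L) := fun _ => rfl
  have hWi : (W.map (Int.castRingHom (integralClosure ℤ L))).map i =
      W.map (Int.castRingHom L) := by
    rw [Polynomial.map_map]
    exact congrArg (fun g => W.map g) (RingHom.ext_int _ _)
  have hWr : (W.map (Int.castRingHom (integralClosure ℤ L))).map r =
      W.map (Int.castRingHom (AlgebraicClosure F)) := by
    rw [Polynomial.map_map]
    exact congrArg (fun g => W.map g) (RingHom.ext_int _ _)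
  have hWF : (W.map (Int.castRingHom F)).map (algebraMap F (AlgebraicClosure F)) =
      W.map (Int.castRingHom (AlgebraicClosure F)) := by
    rw [Polynomial.map_map]
    exact congrArg (fun g => W.map g) (RingHom.ext_int _ _)
  have hhF : (h.map (Int.castRingHom F)).map (algebraMap F (AlgebraicClosure F)) =
      h.map (Int.castRingHom (AlgebraicClosure F)) := by
    rw [Polynomial.map_map]
    exact congrArg (fun g => h.map g) (RingHom.ext_int _ _)
  have hsB : (W.map (Int.castRingHom (integralClosure ℤ L))).Splits := by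
    refine Polynomial.Splits.of_splits_map_of_injective (i := i) hi (by rw [hWi]; exact hsL) ?_
    intro a ha
    rw [hWi] at ha
    have h1 : IsIntegral ℤ a := by
      refine ⟨W, hWm, ?_⟩
      have h2 := (mem_roots'.1 ha).2
      rw [IsRoot, eval_map] at h2
      exact h2
    exact ⟨⟨a, h1⟩, rfl⟩
  set t := (W.map (Int.castRingHom (integralClosure ℤ L))).roots with ht
  have htL : (W.map (Int.castRingHom L)).roots = t.map i := by
    rw [← hWi, hsB.roots_map_of_injective hi]
  have htΩ : (W.map (Int.castRingHom (AlgebraicClosure F))).roots = t.map r := by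
    rw [← hWr]
    apply hsB.roots_map_of_ne_zero
    rw [hWr]
    exact (hWm.map _).ne_zero
  have hsepΩ : (W.map (Int.castRingHom (AlgebraicClosure F))).Separable := by
    rw [← hWF]
    exact hsep.map
  have hnd : (t.map r).Nodup := htΩ ▸ nodup_roots hsepΩ
  have hinj : ∀ x ∈ t, ∀ y ∈ t, r x = r y → x = y := Multiset.inj_on_of_nodup_map hnd
  -- the roots in `L`
  have hweilL : W.map (Int.castRingHom L) = weil (c : L) (h.map (Int.castRingHom L)) := by
    have h1 := weil_map (Int.castRingHom L) c h (hm.natDegree_map _)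
    rw [hW, h1]
    rfl
  have hmemL : ∀ β : L, β ∈ (W.map (Int.castRingHom L)).roots ↔
      (W.map (Int.castRingHom L)).eval β = 0 := by
    intro β
    rw [mem_roots (hWm.map _).ne_zero, IsRoot]
  have hmem : ∀ b : integralClosure ℤ L, b ∈ t ↔ (W.map (Int.castRingHom L)).eval (b : L) = 0 := by
    intro b
    rw [← hmemL, htL, Multiset.mem_map]
    constructor
    · intro hb
      exact ⟨b, hb, rfl⟩
    · rintro ⟨b', hb', he⟩
      rwa [← hi he]
  have hne : ∀ β : L, (W.map (Int.castRingHom L)).eval β = 0 → β ≠ 0 := by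
    rintro β hβ rfl
    have hmL : (h.map (Int.castRingHom L)).Monic := hm.map _
    have h1 : (weil (c : L) (h.map (Int.castRingHom L))).eval 0 =
        (c : L) ^ (h.map (Int.castRingHom L)).natDegree := by
      unfold weil
      rw [eval_finsetSum, Finset.sum_range_succ, Finset.sum_eq_zero, zero_add]
      · simp only [eval_mul, eval_C, eval_pow, eval_X, eval_add, Nat.sub_self, pow_zero]
        rw [hmL.coeff_natDegree, zero_pow two_ne_zero, zero_add, one_mul, eval_one, one_mul]
      · intro j hj
        rw [Finset.mem_range] at hj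
        simp only [eval_mul, eval_C, eval_pow, eval_X, eval_add]
        rw [zero_pow (by omega : (h.map (Int.castRingHom L)).natDegree - j ≠ 0), mul_zero,
          zero_mul]
    rw [hweilL, h1] at hβ
    exact pow_ne_zero _ hcL hβ
  -- the partner
  have hpart : ∀ b ∈ t, ∃ b' ∈ t, (b' : L) = (c : L) / (b : L) := by
    intro b hb
    have hb0 := (hmem b).1 hb
    have hbne := hne _ hb0
    have h1 : (h.map (Int.castRingHom L)).eval ((b : L) + (c : L) / (b : L)) = 0 := by
      rw [hweilL, eval_weil _ _ _ hbne] at hb0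
      exact (mul_eq_zero.1 hb0).resolve_left (pow_ne_zero _ hbne)
    have h2 : (c : L) / (b : L) ≠ 0 := div_ne_zero hcL hbne
    have h3 : (c : L) / ((c : L) / (b : L)) = (b : L) := by
      field_simp
    have h4 : (W.map (Int.castRingHom L)).eval ((c : L) / (b : L)) = 0 := by
      rw [hweilL, eval_weil _ _ _ h2, h3, add_comm, h1, mul_zero]
    rw [← hmemL, htL, Multiset.mem_map] at h4
    obtain ⟨b', hb', he⟩ := h4
    exact ⟨b', hb', he⟩
  have hpow : ∀ a : F, (algebraMap F (AlgebraicClosure F) a) ^ (p ^ (k : ℕ)) =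
      algebraMap F (AlgebraicClosure F) a := by
    intro a
    rw [← hk, ← map_pow, FiniteField.pow_card]
  have hpow' : ∀ z : AlgebraicClosure F, z ^ (p ^ (k : ℕ)) = z →
      ∃ a, algebraMap F (AlgebraicClosure F) a = z := by
    intro z hz
    have h1 : (X ^ Fintype.card F - X : F[X]).Splits := by
      have h2 := (FiniteField.isSplittingField_sub F F).splits'
      rwa [Algebra.algebraMap_self, Polynomial.map_id] at h2
    have h2 : (X ^ Fintype.card F - X : F[X]) ≠ 0 :=
      FiniteField.X_pow_card_sub_X_ne_zero F Fintype.one_lt_card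
    have h3 : z ∈ (algebraMap F (AlgebraicClosure F)).range := by
      apply Polynomial.Splits.mem_range_of_isRoot h1 h2
      rw [IsRoot, Polynomial.map_sub, Polynomial.map_pow, map_X, eval_sub, eval_pow, eval_X, hk,
        hz, sub_self]
    exact h3
  -- the action of `τ`
  have hmain : ∀ b ∈ t, ∃ b₁ ∈ t, (b₁ : L) = τ (b : L) ∧ r b₁ = r b ^ (p ^ (k : ℕ)) ∧
      (τ (b : L) = (b : L) ∨ τ (b : L) = (c : L) / (b : L)) := by
    intro b hb
    obtain ⟨b', hb', hbb'⟩ := hpart b hb
    have hbne := hne _ ((hmem b).1 hb)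
    obtain ⟨b₁, hb₁, hrb₁⟩ := hτ b
    have hb₁t : b₁ ∈ t := by
      rw [hmem, hb₁]
      have h1 := eval_hom (τ.toAlgHom.toRingHom) W (b : L)
      rw [(hmem b).1 hb, map_zero] at h1
      exact h1
    have hprod : b * b' = (c : integralClosure ℤ L) := by
      apply hi
      rw [map_mul, hiv, hiv, hbb', map_intCast]
      field_simp
    have hsum : (h.map (Int.castRingHom (AlgebraicClosure F))).eval (r (b + b')) = 0 := by
      have h1 : (h.map (Int.castRingHom (integralClosure ℤ L))).eval (b + b') = 0 := by
        apply hi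
        rw [← eval_hom i, map_add, hiv, hiv, hbb', map_zero]
        have hb0 := (hmem b).1 hb
        rw [hweilL, eval_weil _ _ _ hbne] at hb0
        exact (mul_eq_zero.1 hb0).resolve_left (pow_ne_zero _ hbne)
      rw [eval_hom r, h1, map_zero]
    obtain ⟨a, ha⟩ : r (b + b') ∈ (algebraMap F (AlgebraicClosure F)).range := by
      apply Polynomial.Splits.mem_range_of_isRoot hsF (hm.map _).ne_zero
      rw [hhF]
      exact hsum
    have hx : (r (b + b')) ^ (p ^ (k : ℕ)) = r (b + b') := by
      rw [← ha]
      exact hpow a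
    let φ := iterateFrobenius (AlgebraicClosure F) p k
    have hφ : ∀ z, φ z = z ^ (p ^ (k : ℕ)) := fun z => rfl
    have hc' : r b * r b' = (c : AlgebraicClosure F) := by
      rw [← map_mul, hprod, map_intCast]
    have h5 : r b ^ 2 - r (b + b') * r b + (c : AlgebraicClosure F) = 0 := by
      rw [← hc', map_add]
      ring
    have h6 := congrArg φ h5
    rw [map_add, map_sub, map_mul, map_pow, map_intCast, map_zero, hφ, hφ, hx, ← hrb₁] at h6
    have h7 : (r b₁ - r b) * (r b₁ - r b') = 0 := by
      rw [← h6, ← hc', map_add]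
      ring
    refine ⟨b₁, hb₁t, hb₁, hrb₁, ?_⟩
    rcases mul_eq_zero.1 h7 with h8 | h8
    · left
      rw [← hb₁, hinj b₁ hb₁t b hb (sub_eq_zero.1 h8)]
    · right
      rw [← hb₁, hinj b₁ hb₁t b' hb' (sub_eq_zero.1 h8), hbb']
  refine ⟨τ, ?_, ?_⟩
  · intro β hβ
    rw [htL, Multiset.mem_map] at hβ
    obtain ⟨b, hb, rfl⟩ := hβ
    obtain ⟨_, _, _, _, h1⟩ := hmain b hb
    exact h1
  · have hfix : ∀ b ∈ t, (τ (b : L) = (b : L) ↔
        ∃ a, algebraMap F (AlgebraicClosure F) a = r b) := by
      intro b hb
      obtain ⟨b₁, hb₁t, hb₁, hrb₁, _⟩ := hmain b hb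
      constructor
      · intro h1
        apply hpow'
        have h2 : b₁ = b := Subtype.val_injective (hb₁.trans h1)
        rw [← hrb₁, h2]
      · rintro ⟨a, ha⟩
        have h1 : r b₁ = r b := by
          rw [hrb₁, ← ha]
          exact hpow a
        rw [← hb₁, hinj b₁ hb₁t b hb h1]
    have e1 : (W.map (Int.castRingHom L)).roots.toFinset.filter (fun β => τ β = β) =
        (t.toFinset.filter (fun b : integralClosure ℤ L => τ (b : L) = (b : L))).image
          (fun b : integralClosure ℤ L => (b : L)) := by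
      ext β
      rw [Finset.mem_filter, Multiset.mem_toFinset, htL, Multiset.mem_map, Finset.mem_image]
      constructor
      · rintro ⟨⟨b, hb, rfl⟩, h1⟩
        exact ⟨b, Finset.mem_filter.2 ⟨Multiset.mem_toFinset.2 hb, h1⟩, rfl⟩
      · rintro ⟨b, hb, rfl⟩
        rw [Finset.mem_filter, Multiset.mem_toFinset] at hb
        exact ⟨⟨b, hb.1, rfl⟩, hb.2⟩
    have e2 : (t.toFinset.filter (fun b : integralClosure ℤ L => τ (b : L) = (b : L))).image r =
        (W.map (Int.castRingHom F)).roots.toFinset.image
          (algebraMap F (AlgebraicClosure F)) := by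
      ext z
      rw [Finset.mem_image, Finset.mem_image]
      constructor
      · rintro ⟨b, hb, rfl⟩
        rw [Finset.mem_filter, Multiset.mem_toFinset] at hb
        obtain ⟨a, ha⟩ := (hfix b hb.1).1 hb.2
        refine ⟨a, ?_, ha⟩
        rw [Multiset.mem_toFinset, mem_roots (hWm.map _).ne_zero, IsRoot]
        apply (algebraMap F (AlgebraicClosure F)).injective
        have h1 : r b ∈ (W.map (Int.castRingHom (AlgebraicClosure F))).roots := by
          rw [htΩ]
          exact Multiset.mem_map_of_mem _ hb.1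
        rw [mem_roots (hWm.map _).ne_zero, IsRoot] at h1
        rw [← eval_hom (algebraMap F (AlgebraicClosure F)), ha, h1, map_zero]
      · rintro ⟨a, ha, rfl⟩
        rw [Multiset.mem_toFinset, mem_roots (hWm.map _).ne_zero, IsRoot] at ha
        have h1 : algebraMap F (AlgebraicClosure F) a ∈
            (W.map (Int.castRingHom (AlgebraicClosure F))).roots := by
          rw [mem_roots (hWm.map _).ne_zero, IsRoot,
            eval_hom (algebraMap F (AlgebraicClosure F)), ha, map_zero]
        rw [htΩ, Multiset.mem_map] at h1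
        obtain ⟨b, hb, hba⟩ := h1
        refine ⟨b, ?_, hba⟩
        rw [Finset.mem_filter, Multiset.mem_toFinset]
        exact ⟨hb, (hfix b hb).2 ⟨a, hba.symm⟩⟩
    rw [e1, Finset.card_image_of_injective _ Subtype.val_injective,
      ← Multiset.toFinset_card_of_nodup (nodup_roots hsep),
      ← Finset.card_image_of_injective _ (algebraMap F (AlgebraicClosure F)).injective, ← e2]
    rw [Finset.card_image_of_injOn]
    intro x hx y hy hxy
    rw [Finset.mem_coe, Finset.mem_filter, Multiset.mem_toFinset] at hx hy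
    exact hinj x hx.1 y hy.1 hxy

end Pool.Agent.Helper19.Sign
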