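import Pool.Agent.Helper19.Sign.Cases
import Pool.Agent.Helper19.Sign.ArithCore
import Pool.Agent.Helper19.Sign.Frob

/-!
# The criterion in a number field
-/

open Polynomial Finset

namespace Pool.Agent.Helper19.Sign

open Disc (roots Rt mem_roots' stab_roots roots_map_eq exists_conj)

section

variable {G S : Type} [Group G] [MulAction G S] [Fintype S] {ι : S → S}

/-- The number of the points moved by a core element is divisible by the size of the blocks. -/
theorem dvd_moved [DecidableEq S] {d : ℕ} (hd : ∀ x, (blk G ι x).card = d) {τ : G}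
    (hτ : InCore ι τ) :
    d ∣ (univ.filter fun x : S => τ • x ≠ x).card := by
  classical
  set M := univ.filter fun x : S => τ • x ≠ x with hM
  have h1 : M.card = ∑ B ∈ M.image (blk G ι), (M.filter fun x => blk G ι x = B).card :=
    card_eq_sum_card_fiberwise fun x hx => mem_image_of_mem _ hx
  rw [h1]
  refine dvd_sum fun B hB => ?_
  obtain ⟨x, hx, rfl⟩ := mem_image.1 hB
  have h2 : (M.filter fun y => blk G ι y = blk G ι x) = blk G ι x := by
    ext y
    rw [mem_filter]
    constructor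
    · rintro ⟨-, h4⟩
      rw [← h4]
      exact self_mem_blk y
    · intro h4
      refine ⟨?_, blk_eq_of_mem h4⟩
      rw [hM, mem_filter] at hx ⊢
      refine ⟨mem_univ y, fun h5 => hx.2 ?_⟩
      exact ((mem_blk.1 h4) τ hτ).2 h5
  rw [h2, hd]

end

section

variable {L : Type} [Field L] [NumberField L] [DecidableEq L]

theorem res_prod {c : ℤ} {h : ℤ[X]} (hm : h.Monic) (hirr : Irreducible (qw c h))
    (hsplit : ((qw c h).map (algebraMap ℚ L)).Splits) :
    ((h.resultant (X ^ 2 - C (4 * c)) : ℤ) : L) = ∏ a ∈ traces c h L, (a ^ 2 - 4 * (c : L)) := by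
  obtain ⟨hA, hs⟩ := traces_eq hm hirr hsplit
  have h2 := resultant_eq_prod (h.map (Int.castRingHom L)) (hm.map _) hs (c : L)
  have hd : (X ^ 2 - C (4 * c) : ℤ[X]).natDegree = 2 := natDegree_X_pow_sub_C
  have hdK : (X ^ 2 - C (4 * (c : L)) : L[X]).natDegree = 2 := natDegree_X_pow_sub_C
  have h3 := resultant_map_map h (X ^ 2 - C (4 * c)) h.natDegree
    (X ^ 2 - C (4 * c) : ℤ[X]).natDegree (Int.castRingHom L)
  have hmap : (X ^ 2 - C (4 * c) : ℤ[X]).map (Int.castRingHom L) = X ^ 2 - C (4 * (c : L)) := by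
    rw [Polynomial.map_sub, Polynomial.map_pow, map_X, map_C, map_mul]
    simp
  rw [hmap, hd] at h3
  rw [hm.natDegree_map, hdK, h3, hA] at h2
  rw [hd]
  exact h2

theorem prod_diff {c : ℤ} {h : ℤ[X]} (hm : h.Monic) (hirr : Irreducible (qw c h))
    (hsplit : ((qw c h).map (algebraMap ℚ L)).Splits)
    (hfix : ∀ β ∈ roots (qw c h) L, β ^ 2 ≠ (c : L)) (hc : c ≠ 0) :
    (-1) ^ h.natDegree * ∏ β ∈ roots (qw c h) L, (β - (c : L) / β) =
      ((h.resultant (X ^ 2 - C (4 * c)) : ℤ) : L) := by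
  have hne0 : ∀ β ∈ roots (qw c h) L, β ≠ 0 := fun β hβ => qw_root_ne_zero hm hirr hβ
  have hcL : (c : L) ≠ 0 := by exact_mod_cast hc
  obtain ⟨hA, hs⟩ := traces_eq hm hirr hsplit
  have hcard : (traces c h L).card = h.natDegree := by
    have h1 := splits_iff_card_roots.1 hs
    rw [hA, hm.natDegree_map] at h1
    exact h1
  rw [res_prod hm hirr hsplit, ← prod_fiberwise_of_maps_to (t := traces c h L)
    (g := fun β => β + (c : L) / β) (fun β hβ => mem_image_of_mem _ hβ), ← hcard, ← prod_const,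
    ← prod_mul_distrib]
  refine prod_congr rfl fun a ha => ?_
  obtain ⟨β, hβ, rfl⟩ := mem_image.1 ha
  have hb := hne0 β hβ
  have hset : (roots (qw c h) L).filter (fun γ => γ + (c : L) / γ = β + (c : L) / β) =
      {β, (c : L) / β} := by
    ext γ
    rw [mem_filter, mem_insert, mem_singleton]
    constructor
    · rintro ⟨hγ, h1⟩
      have h2 := hne0 γ hγ
      have h3 : (γ - β) * (γ - (c : L) / β) = 0 := by
        field_simp at h1 ⊢
        linear_combination h1
      rcases mul_eq_zero.1 h3 with h4 | h4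
      · exact Or.inl (sub_eq_zero.1 h4)
      · exact Or.inr (sub_eq_zero.1 h4)
    · rintro (rfl | rfl)
      · exact ⟨hβ, rfl⟩
      · refine ⟨?_, ?_⟩
        · rw [mem_qw hm hirr.ne_zero (div_ne_zero hcL hb), div_div_cancel₀ hcL, add_comm]
          exact (mem_qw hm hirr.ne_zero hb).1 hβ
        · rw [div_div_cancel₀ hcL, add_comm]
  rw [hset, prod_pair]
  · rw [div_div_cancel₀ hcL]
    field_simp
    ring
  · intro h1
    apply hfix β hβ
    rw [eq_div_iff hb] at h1
    rw [← h1]; ring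

end

theorem theoremD (L : Type) [Field L] [NumberField L] [IsGalois ℚ L] (c : ℤ) (hc : c ≠ 0)
    (h : ℤ[X]) (hm : h.Monic) (hirr : Irreducible (qw c h)) [(qw c h).IsSplittingField ℚ L]
    (habs : ∀ β ∈ roots (qw c h) L, ∀ β' ∈ roots (qw c h) L, ∀ k : ℕ, 0 < k →
      β ^ k = β' ^ k → β = β')
    (σ₀ : L ≃ₐ[ℚ] L) (hσ₀ : ∀ β ∈ roots (qw c h) L, σ₀ β = (c : L) / β)
    (K : IntermediateField ℚ L) (hK : K = IntermediateField.adjoin ℚ {a : L | aeval a h = 0})
    (hcase : ∀ b, b ∣ h.natDegree → 2 < b →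
      (∃ ℓ : ℕ, ℓ.Prime ∧ (h.map (Int.castRingHom (ZMod ℓ))).Separable ∧
        Odd (padicValInt ℓ (h.resultant (X ^ 2 - C (4 * c))))) ∨
      (∃ (F : Type) (_ : Field F) (_ : Finite F) (m : ℕ), (h.map (Int.castRingHom F)).Splits ∧
        ((weil c h).map (Int.castRingHom F)).Separable ∧
        Multiset.card ((weil c h).map (Int.castRingHom F)).roots + 2 * m = 2 * h.natDegree ∧
        ¬ b ∣ m) ∨
      2 ^ (h.natDegree / b) < Module.finrank K L ∨
      ((∃ (v : L → ℚ) (ρ : ℚ), ρ ≠ 0 ∧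
        (∀ x y : L, x ≠ 0 → y ≠ 0 → v (x * y) = v x + v y) ∧
        ∀ β ∈ roots (qw c h) L, padicNorm 2 (v β - v (c : L) / 2) = ρ) ∧
        (b.Prime ∨ ((∃ k, b = 2 ^ k) ∧
          ¬ IsSquare ((h.resultant (X ^ 2 - C (4 * c)) : ℤ) : ℚ)))))
    (n : L → ℤ) (N : ℕ) (hN : N ≠ 0) (e : ℚ)
    (hrel : (∏ β ∈ roots (qw c h) L, β ^ n β) ^ N = algebraMap ℚ L e) :
    ∀ β ∈ roots (qw c h) L, n β = n ((c : L) / β) := by
  classical
  have hsplit : ((qw c h).map (algebraMap ℚ L)).Splits := IsSplittingField.splits L (qw c h)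
  have hPne : (qw c h) ≠ 0 := hirr.ne_zero
  let S : Type := Σ _i : Unit, Rt L (qw c h)
  let act' : MulAction (L ≃ₐ[ℚ] L) S := Disc.actSigma (Q := fun _ : Unit => qw c h) fun _ => hPne
  have hSext : ∀ x y : S, x.2.1 = y.2.1 → x = y := by
    rintro ⟨i, x, hx⟩ ⟨j, y, hy⟩ h2
    obtain rfl : x = y := h2
    rfl
  have hx0 : ∀ x : S, x.2.1 ≠ 0 := fun x => qw_root_ne_zero hm hirr x.2.2
  have hcL : (c : L) ≠ 0 := by exact_mod_cast hc
  have hsym : ∀ β ∈ roots (qw c h) L, (c : L) / β ∈ roots (qw c h) L := by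
    intro β hβ
    have h1 := qw_root_ne_zero hm hirr hβ
    rw [mem_qw hm hPne (div_ne_zero hcL h1), div_div_cancel₀ hcL, add_comm]
    exact (mem_qw hm hPne h1).1 hβ
  have hact : ∀ (σ : L ≃ₐ[ℚ] L) (x : S), (σ • x).2.1 = σ x.2.1 := fun _ _ => rfl
  let ι : S → S := fun x => ⟨x.1, ⟨(c : L) / x.2.1, hsym x.2.1 x.2.2⟩⟩
  have hι' : ∀ x : S, (ι x).2.1 = (c : L) / x.2.1 := fun _ => rfl
  have hι : ∀ x : S, ι (ι x) = x := by
    intro x
    refine hSext (ι (ι x)) x ?_
    show (c : L) / ((c : L) / x.2.1) = x.2.1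
    rw [div_div_cancel₀ hcL]
  have hcomm : ∀ (g : L ≃ₐ[ℚ] L) (x : S), g • ι x = ι (g • x) := by
    intro g x
    refine hSext (g • ι x) (ι (g • x)) ?_
    show g ((c : L) / x.2.1) = (c : L) / g x.2.1
    rw [map_div₀, map_intCast]
  have htr : ∀ x y : S, ∃ σ : L ≃ₐ[ℚ] L, σ • x = y := by
    intro x y
    obtain ⟨σ, hσ⟩ := exists_conj hirr x.2 y.2
    exact ⟨σ, hSext _ _ hσ⟩
  have hcardS : Fintype.card S = 2 * h.natDegree := by
    have h1 : Fintype.card S = Fintype.card (Rt L (qw c h)) :=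
      Fintype.card_congr (Equiv.punitProd _ |>.symm.trans
        (Equiv.sigmaEquivProd Unit (Rt L (qw c h))).symm).symm
    have h2 : Fintype.card (Rt L (qw c h)) = (roots (qw c h) L).card := Fintype.card_coe _
    rw [h1, h2, (roots_map_eq hirr hsplit).2, qw, (weil_monic c h hm).1.natDegree_map,
      (weil_monic c h hm).2]
  have hg0 : 0 < h.natDegree := by
    have h1 := hirr.natDegree_pos
    rw [qw, (weil_monic c h hm).1.natDegree_map, (weil_monic c h hm).2] at h1
    omega
  have hfix' : ∀ x : S, x.2.1 ^ 2 ≠ (c : L) := by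
    intro x hx
    have h3 : ∀ y : S, y = x := by
      intro y
      obtain ⟨σ, hσ⟩ := htr x y
      apply hSext
      refine habs _ y.2.2 _ x.2.2 2 (by norm_num) ?_
      rw [hx, ← hσ, hact, ← map_pow, hx, map_intCast]
    have h4 : Fintype.card S ≤ 1 := Fintype.card_le_one_iff.2 fun a b => by rw [h3 a, h3 b]
    omega
  have hfix : ∀ x : S, ι x ≠ x := by
    intro x h1
    apply hfix' x
    have h2 : (c : L) / x.2.1 = x.2.1 := congrArg (fun y : S => y.2.1) h1
    rw [div_eq_iff (hx0 x)] at h2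
    rw [h2]; ring
  have hfaith : ∀ σ : L ≃ₐ[ℚ] L, (∀ x : S, σ • x = x) → σ = 1 := by
    intro σ hσ
    have h1 : Algebra.adjoin ℚ ((qw c h).rootSet L) = ⊤ :=
      IsSplittingField.adjoin_rootSet L (qw c h)
    have h2 : (σ : L →ₐ[ℚ] L) = AlgHom.id ℚ L := by
      apply AlgHom.ext_of_adjoin_eq_top h1
      intro β hβ
      have h3 : β ∈ roots (qw c h) L := by
        rw [mem_roots' hPne]
        exact (mem_rootSet.1 hβ).2
      exact congrArg (fun y : S => y.2.1) (hσ ⟨(), ⟨β, h3⟩⟩)
    ext x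
    exact DFunLike.congr_fun h2 x
  intro β₀ hβ₀
  let x₀ : S := ⟨(), ⟨β₀, hβ₀⟩⟩
  -- the size of the blocks
  obtain ⟨k, hk1, hk2⟩ := count hι hcomm htr hfaith x₀
  obtain ⟨U, hU0, hUι⟩ := exists_sgn hι hfix
  have hBι : ∀ x ∈ blk (L ≃ₐ[ℚ] L) ι x₀, ι x ∈ blk (L ≃ₐ[ℚ] L) ι x₀ :=
    fun x hx => ι_mem_blk hι hcomm hx
  have hev := Disc.card_pair hι U hU0 hUι (blk (L ≃ₐ[ℚ] L) ι x₀) hBι
  set b := ((blk (L ≃ₐ[ℚ] L) ι x₀).filter (fun x => 0 < U x)).card with hb
  have hbk : h.natDegree = k * b := by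
    rw [hcardS, hev] at hk1
    have : 2 * h.natDegree = 2 * (k * b) := by rw [hk1]; ring
    omega
  have hb0 : 0 < b := by
    rcases Nat.eq_zero_or_pos b with h0 | h0
    · rw [h0, mul_zero] at hbk; omega
    · exact h0
  have hbg : b ∣ h.natDegree := ⟨k, by rw [hbk]; ring⟩
  have hgb : h.natDegree / b = k := by
    rw [hbk, Nat.mul_div_cancel _ hb0]
  have hcardall : ∀ x : S, (blk (L ≃ₐ[ℚ] L) ι x).card = 2 * b := by
    intro x
    obtain ⟨τ, hτ⟩ := htr x₀ x
    rw [← hτ, card_blk_smul hcomm, hev]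
  -- the relations
  let val : S → Lˣ := fun x => Units.mk0 x.2.1 (hx0 x)
  have hval : ∀ (g : L ≃ₐ[ℚ] L) (x : S), ((val (g • x) : Lˣ) : L) = g (val x : L) := fun _ _ => rfl
  have hprodS : ∀ f : L → L, ∏ β ∈ roots (qw c h) L, f β = ∏ x : S, f x.2.1 := by
    intro f
    have h1 := Fintype.prod_sigma (fun x : S => f x.2.1)
    rw [h1, Fintype.prod_unique]
    exact (Finset.prod_coe_sort (roots (qw c h) L) f).symm
  rw [hprodS] at hrel
  have hthC := theoremC (E := ℚ) (L := L) (ι := ι) val hval hι hfix hcomm htr (c : L)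
    (fun x => mul_div_cancel₀ _ (hx0 x))
    (fun x y k hk hxy => hSext x y (habs _ x.2.2 _ y.2.2 k hk hxy))
    σ₀ (fun x => hSext _ _ (hσ₀ x.2.1 x.2.2)) b hcardall
  have hfin : b ≤ 2 ∨ ((∃ (v : L → ℚ) (ρ : ℚ), ρ ≠ 0 ∧
      (∀ x y : L, x ≠ 0 → y ≠ 0 → v (x * y) = v x + v y) ∧
      ∀ x : S, padicNorm 2 (v (val x) - v c / 2) = ρ) ∧
      (b.Prime ∨ ((∃ k, b = 2 ^ k) ∧ ¬ ∃ e : ℚ, (algebraMap ℚ L e) ^ 2 =
        (-1) ^ (Fintype.card S / 2) * ∏ x : S, ((val x : L) - val (ι x))))) := by
    rcases Nat.lt_or_ge 2 b with h2b | h2b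
    swap
    · exact Or.inl h2b
    rcases hcase b hbg h2b with h1 | h1 | h1 | ⟨⟨v, ρ, hρ, hv, hvρ⟩, h1⟩
    · exfalso
      obtain ⟨ℓ, hℓ, hsep, hodd⟩ := h1
      obtain ⟨x₁, -, hc1, -⟩ := exists_small_block Unit (fun _ => c) (fun _ => hc) (fun _ => h)
        (fun _ => hm) (fun _ => hirr) L (fun _ => hsplit) (fun σ x => ⟨rfl, rfl⟩) ι
        (fun x => ⟨rfl, rfl⟩) hfix' () ℓ hℓ (fun _ => hsep) hodd
        (fun j hj => absurd rfl hj)
      have h3 := hcardall x₁
      rw [hc1] at h3
      omega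
    · exfalso
      obtain ⟨F, hF, hFfin, m, hsF, hsepF, hcardF, hbm⟩ := h1
      have hmapL : (weil c h).map (Int.castRingHom L) = (qw c h).map (algebraMap ℚ L) := by
        rw [qw, Polynomial.map_map]
        congr 1
        exact Subsingleton.elim _ _
      obtain ⟨τ, hτ1, hτ2⟩ := exists_frob L c hc h hm F hsF hsepF (by rw [hmapL]; exact hsplit)
      rw [hmapL, (roots_map_eq hirr hsplit).1] at hτ1 hτ2
      have hτ : InCore ι τ := by
        intro x
        rcases hτ1 x.2.1 x.2.2 with h3 | h3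
        · exact Or.inl (hSext _ _ h3)
        · exact Or.inr (hSext _ _ h3)
      have hmv := dvd_moved hcardall hτ
      have h4 : (univ.filter fun x : S => τ • x = x).card =
          Multiset.card ((weil c h).map (Int.castRingHom F)).roots := by
        rw [← hτ2]
        refine card_bij (fun x _ => x.2.1) ?_ ?_ ?_
        · intro x hx
          rw [mem_filter] at hx ⊢
          refine ⟨Multiset.mem_toFinset.2 x.2.2, ?_⟩
          exact congrArg (fun y : S => y.2.1) hx.2
        · intro x _ y _ hxy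
          exact hSext x y hxy
        · intro β hβ
          rw [mem_filter, Multiset.mem_toFinset] at hβ
          exact ⟨⟨(), ⟨β, hβ.1⟩⟩, by
            rw [mem_filter]
            exact ⟨mem_univ _, hSext _ _ hβ.2⟩, rfl⟩
      have h5 := card_filter_add_card_filter_not (s := (univ : Finset S)) (fun x => τ • x = x)
      rw [h4, card_univ, hcardS] at h5
      have h6 : (univ.filter fun x : S => τ • x ≠ x).card = 2 * m := by
        have h7 : (univ.filter fun x : S => τ • x ≠ x).card =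
            (univ.filter fun x : S => ¬ τ • x = x).card := rfl
        rw [h7]
        omega
      rw [h6] at hmv
      exact hbm (Nat.dvd_of_mul_dvd_mul_left two_pos hmv)
    · exfalso
      -- the core is the Galois group of `L / K`
      have hcore : ∀ σ : L ≃ₐ[ℚ] L, InCore ι σ ↔ σ ∈ K.fixingSubgroup := by
        intro σ
        have htrace : ∀ a : L, aeval a h = 0 → ∃ x : S, a = x.2.1 + (c : L) / x.2.1 := by
          intro a ha
          have h3 : a ∈ (h.map (Int.castRingHom L)).roots := by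
            rw [mem_roots (hm.map _).ne_zero, IsRoot.def, eval_map]
            rw [aeval_def] at ha
            exact ha
          rw [(traces_eq hm hirr hsplit).1] at h3
          obtain ⟨β, hβ, h4⟩ := mem_image.1 (show a ∈ traces c h L from h3)
          exact ⟨⟨(), ⟨β, hβ⟩⟩, h4.symm⟩
        constructor
        · intro h3
          rw [IntermediateField.mem_fixingSubgroup_iff]
          have h4 : K ≤ IntermediateField.fixedField (Subgroup.zpowers σ) := by
            rw [hK, IntermediateField.adjoin_le_iff]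
            rintro a ha
            obtain ⟨x, rfl⟩ := htrace a ha
            rw [SetLike.mem_coe, IntermediateField.mem_fixedField_iff]
            intro τ hτ
            have h5 : σ (x.2.1 + (c : L) / x.2.1) = x.2.1 + (c : L) / x.2.1 := by
              have hb0 := hx0 x
              rcases h3 x with h6 | h6
              · have h7 : σ x.2.1 = x.2.1 := congrArg (fun y : S => y.2.1) h6
                rw [map_add, map_div₀, h7, map_intCast]
              · have h7 : σ x.2.1 = (c : L) / x.2.1 := congrArg (fun y : S => y.2.1) h6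
                rw [map_add, map_div₀, h7, map_intCast, div_div_cancel₀ hcL]
                ring
            have h8 : σ ∈ MulAction.stabilizer (L ≃ₐ[ℚ] L) (x.2.1 + (c : L) / x.2.1) := h5
            exact (Subgroup.zpowers_le.2 h8) hτ
          intro x hx
          exact (IntermediateField.mem_fixedField_iff _ _).1 (h4 hx) σ (Subgroup.mem_zpowers σ)
        · intro h3 x
          rw [IntermediateField.mem_fixingSubgroup_iff] at h3
          have h4 : x.2.1 + (c : L) / x.2.1 ∈ K := by
            rw [hK]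
            exact IntermediateField.subset_adjoin _ _ ((mem_qw hm hPne (hx0 x)).1 x.2.2)
          have h5 := h3 _ h4
          rw [map_add, map_div₀, map_intCast] at h5
          have hx := hx0 x
          have hx' : σ x.2.1 ≠ 0 := (map_ne_zero σ).2 hx
          have h6 : (σ x.2.1 - x.2.1) * (σ x.2.1 - (c : L) / x.2.1) = 0 := by
            field_simp at h5 ⊢
            linear_combination h5
          rcases mul_eq_zero.1 h6 with h7 | h7
          · exact Or.inl (hSext _ _ (sub_eq_zero.1 h7))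
          · exact Or.inr (hSext _ _ (sub_eq_zero.1 h7))
      have hcardcore : Nat.card {σ : L ≃ₐ[ℚ] L // InCore ι σ} = Module.finrank K L := by
        rw [← IsGalois.card_fixingSubgroup_eq_finrank K]
        exact Nat.card_congr (Equiv.subtypeEquivRight hcore)
      rw [hgb, ← hcardcore] at h1
      omega
    · refine Or.inr ⟨⟨v, ρ, hρ, hv, fun x => hvρ x.2.1 x.2.2⟩, ?_⟩
      rcases h1 with h1 | ⟨h1, h3⟩
      · exact Or.inl h1
      · refine Or.inr ⟨h1, ?_⟩
        rintro ⟨e', he'⟩
        apply h3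
        refine ⟨e', ?_⟩
        apply (algebraMap ℚ L).injective
        have h4 : Fintype.card S / 2 = h.natDegree := by
          rw [hcardS]; omega
        have h5 := prod_diff hm hirr hsplit (fun β hβ => hfix' ⟨(), ⟨β, hβ⟩⟩) hc
        rw [hprodS (fun β => β - (c : L) / β)] at h5
        have h6 : (algebraMap ℚ L) ((h.resultant (X ^ 2 - C (4 * c)) : ℤ) : ℚ) =
          ((h.resultant (X ^ 2 - C (4 * c)) : ℤ) : L) := map_intCast (algebraMap ℚ L) _
        rw [h6, ← h5, ← h4, ← pow_two, map_pow, he']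
        rfl
  exact hthC hfin (fun x => n x.2.1) N hN e hrel x₀

end Pool.Agent.Helper19.Sign
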