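import Mathlib

/-!
# Exactly one discriminant of odd valuation
-/

open Finset

namespace Pool.Agent.Helper19.Sign

theorem unique_odd {K : Type} [Field K] [DecidableEq K] (v : K → ℤ)
    (hmul : ∀ x y, x ≠ 0 → y ≠ 0 → v (x * y) = v x + v y)
    (hadd : ∀ x y, x ≠ 0 → y ≠ 0 → x + y ≠ 0 → min (v x) (v y) ≤ v (x + y))
    (A : Finset K) (c : K) (hsep : ∀ a ∈ A, ∀ a' ∈ A, a ≠ a' → v (a - a') = 0)
    (hpos : ∀ a ∈ A, 0 ≤ v (a ^ 2 - c)) (hodd : Odd (∑ a ∈ A, v (a ^ 2 - c))) :
    ∃ a₀ ∈ A, Odd (v (a₀ ^ 2 - c)) ∧ ∀ a ∈ A, a ≠ a₀ → Even (v (a ^ 2 - c)) := by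
  have hv1 : v 1 = 0 := by
    have := hmul 1 1 one_ne_zero one_ne_zero
    rw [mul_one] at this
    omega
  have hvm1 : v (-1) = 0 := by
    have := hmul (-1) (-1) (by norm_num) (by norm_num)
    rw [neg_mul_neg, mul_one, hv1] at this
    omega
  have hvneg : ∀ x, v (-x) = v x := by
    intro x
    by_cases hx : x = 0
    · rw [hx, neg_zero]
    · rw [← neg_one_mul, hmul _ _ (by norm_num) hx, hvm1, zero_add]
  let P : K → Prop := fun z => z = 0 ∨ 0 < v z
  have hPneg : ∀ z, P z → P (-z) := by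
    rintro z (h | h)
    · left; rw [h, neg_zero]
    · right; rw [hvneg]; exact h
  have hPadd : ∀ z w, P z → P w → P (z + w) := by
    intro z w hz hw
    by_cases h1 : z = 0
    · rw [h1, zero_add]; exact hw
    · by_cases h2 : w = 0
      · rw [h2, add_zero]; exact hz
      · by_cases h3 : z + w = 0
        · exact Or.inl h3
        · right
          exact lt_of_lt_of_le (lt_min (hz.resolve_left h1) (hw.resolve_left h2))
            (hadd z w h1 h2 h3)
  have hPsub : ∀ z w, P z → P w → P (z - w) := by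
    intro z w hz hw
    rw [sub_eq_add_neg]
    exact hPadd _ _ hz (hPneg _ hw)
  have hPdiff : ∀ a ∈ A, ∀ a' ∈ A, a ≠ a' → ¬ P (a - a') := by
    rintro a ha a' ha' hne (h | h)
    · exact hne (sub_eq_zero.1 h)
    · rw [hsep a ha a' ha' hne] at h
      exact lt_irrefl _ h
  have hPsum : ∀ a ∈ A, ∀ a' ∈ A, a ≠ a' → 0 < v (a ^ 2 - c) → 0 < v (a' ^ 2 - c) →
      P (a + a') := by
    intro a ha a' ha' hne h1 h2
    have h3 : P ((a - a') * (a + a')) := by
      have h4 := hPsub _ _ (Or.inr h1) (Or.inr h2)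
      have h5 : a ^ 2 - c - (a' ^ 2 - c) = (a - a') * (a + a') := by ring
      rwa [h5] at h4
    by_cases h4 : a + a' = 0
    · exact Or.inl h4
    · rcases h3 with h3 | h3
      · exact absurd (mul_eq_zero.1 h3) (by
          rintro (h5 | h5)
          · exact hne (sub_eq_zero.1 h5)
          · exact h4 h5)
      · rw [hmul _ _ (sub_ne_zero.2 hne) h4, hsep a ha a' ha' hne, zero_add] at h3
        exact Or.inr h3
  set T := A.filter fun a => 0 < v (a ^ 2 - c) with hT
  have hTsum : ∑ a ∈ A, v (a ^ 2 - c) = ∑ a ∈ T, v (a ^ 2 - c) := by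
    rw [hT, sum_filter]
    refine sum_congr rfl fun a ha => ?_
    split_ifs with h
    · rfl
    · exact le_antisymm (not_lt.1 h) (hpos a ha)
  have hTA : ∀ a ∈ T, a ∈ A ∧ 0 < v (a ^ 2 - c) := fun a ha => mem_filter.1 ha
  have hother : ∀ a ∈ A, a ∉ T → v (a ^ 2 - c) = 0 := by
    intro a ha h
    refine le_antisymm (not_lt.1 fun h' => h (mem_filter.2 ⟨ha, h'⟩)) (hpos a ha)
  have hcard : T.card ≤ 2 := by
    by_contra hcon
    push Not at hcon
    obtain ⟨a, b, d, ha, hb, hd, hab, had, hbd⟩ := two_lt_card_iff.1 hcon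
    obtain ⟨ha1, ha2⟩ := hTA a ha
    obtain ⟨hb1, hb2⟩ := hTA b hb
    obtain ⟨hd1, hd2⟩ := hTA d hd
    have h1 := hPsum a ha1 b hb1 hab ha2 hb2
    have h2 := hPsum a ha1 d hd1 had ha2 hd2
    have h3 := hPsub _ _ h1 h2
    have h4 : a + b - (a + d) = b - d := by ring
    rw [h4] at h3
    exact hPdiff b hb1 d hd1 hbd h3
  rw [hTsum] at hodd
  have h012 : T.card = 0 ∨ T.card = 1 ∨ T.card = 2 := by omega
  rcases h012 with h | h | h
  · rw [card_eq_zero] at h
    rw [h, sum_empty] at hodd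
    exact absurd hodd (by decide)
  · obtain ⟨a, ha⟩ := card_eq_one.1 h
    rw [ha, sum_singleton] at hodd
    refine ⟨a, (hTA a (by rw [ha]; exact mem_singleton_self a)).1, hodd, fun b hb hba => ?_⟩
    rw [hother b hb (by rw [ha, mem_singleton]; exact hba)]
    exact Even.zero
  · obtain ⟨a, b, hab, hTab⟩ := card_eq_two.1 h
    rw [hTab, sum_pair hab] at hodd
    have haT : a ∈ T := by rw [hTab]; exact mem_insert_self _ _
    have hbT : b ∈ T := by rw [hTab]; exact mem_insert_of_mem (mem_singleton_self _)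
    rcases Int.even_or_odd (v (a ^ 2 - c)) with h1 | h1
    · have h2 : Odd (v (b ^ 2 - c)) := by
        rw [Int.odd_add'] at hodd
        exact hodd.2 h1
      refine ⟨b, (hTA b hbT).1, h2, fun d hd hdb => ?_⟩
      by_cases hda : d = a
      · rw [hda]; exact h1
      · rw [hother d hd (by rw [hTab, mem_insert, mem_singleton]; tauto)]
        exact Even.zero
    · have h2 : Even (v (b ^ 2 - c)) := by
        rw [Int.odd_add] at hodd
        exact hodd.1 h1
      refine ⟨a, (hTA a haT).1, h1, fun d hd hda => ?_⟩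
      by_cases hdb : d = b
      · rw [hdb]; exact h2
      · rw [hother d hd (by rw [hTab, mem_insert, mem_singleton]; tauto)]
        exact Even.zero

end Pool.Agent.Helper19.Sign
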