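import Mathlib

/-!
# SG-5: the determinant of a skew symmetric matrix is a square (MP_de89cc_ag).  Mathlib only.

PROOF.  Strong induction on the number of rows (`Fintype.card n`).  If `A = 0` then `det A` is `0` or
(`n` empty) `1`.  Otherwise there are `i ≠ j` with `a = A i j ≠ 0` (the diagonal is zero:
`A i i = - A i i`, `2 ≠ 0`).  Reindex `n ≃ Fin 2 ⊕ m` with `i, j` mapped to `Fin 2`
(`m = {x // x ≠ i ∧ x ≠ j}`; `Matrix.det_reindex_self` / `Matrix.det_submatrix_equiv_self`).  The
block `A₁₁ = !![0, a; -a, 0]` is invertible with determinant `a ^ 2`, and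
`Matrix.det_fromBlocks₁₁`: `det A = a ^ 2 * det (D - C A₁₁⁻¹ B)`, where `C = - Bᵀ`; the Schur
complement is skew symmetric (`(A₁₁⁻¹)ᵀ = - A₁₁⁻¹`), so its determinant is a square by induction.

`zassenhaus`: `A` is invertible (`det A ^ 2 = c ^ n`, from `hA` and `det S ≠ 0`).  From `Aᵀ S A = c S`:
`Aᵀ S = c S A⁻¹`, `c (A⁻¹)ᵀ S = S A`.  So `N = S (A - c A⁻¹)` satisfies
`Nᵀ = (Aᵀ - c (A⁻¹)ᵀ) S = c S A⁻¹ - S A = - N`, so `det N = det S * det (A - c A⁻¹)` is a square, and
`det (A A - c) = det A * det (A - c A⁻¹)`; so `det S * det A * det (A A - c) = (det A) ^ 2 * det N`.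
-/

namespace Pool.Agent.Helper19.Sign

theorem isSquare_det_skew {k : Type} [Field k] (h2 : (2 : k) ≠ 0) {n : Type} [Fintype n]
    [DecidableEq n] (A : Matrix n n k) (hA : A.transpose = -A) : IsSquare A.det := by
  classical
  obtain ⟨N, hN⟩ : ∃ N, Fintype.card n = N := ⟨_, rfl⟩
  induction N using Nat.strong_induction_on generalizing n with
  | _ N ih =>
  have hskew : ∀ i j, A j i = -A i j := fun i j => by
    have := congrFun (congrFun hA i) j
    simpa using this
  by_cases h0 : A = 0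
  · subst h0
    rcases isEmpty_or_nonempty n with he | hne
    · rw [Matrix.det_isEmpty]
      exact ⟨1, (one_mul 1).symm⟩
    · rw [Matrix.det_zero]
      exact ⟨0, (zero_mul 0).symm⟩
  obtain ⟨i, j, hij⟩ : ∃ i j, A i j ≠ 0 := by
    by_contra hcon
    push Not at hcon
    exact h0 (by ext i j; exact hcon i j)
  have hdiag : ∀ i, A i i = 0 := by
    intro i
    have h1 := hskew i i
    have h3 : (2 : k) * A i i = 0 := by linear_combination h1
    exact (mul_eq_zero.1 h3).resolve_left h2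
  have hne : i ≠ j := by
    rintro rfl
    exact hij (hdiag i)
  let p : n → Prop := fun x => x = i ∨ x = j
  let g : Fin 2 → {x : n // p x} := ![⟨i, Or.inl rfl⟩, ⟨j, Or.inr rfl⟩]
  have hg0 : g 0 = ⟨i, Or.inl rfl⟩ := rfl
  have hg1 : g 1 = ⟨j, Or.inr rfl⟩ := rfl
  have hgb : Function.Bijective g := by
    constructor
    · intro a b hab
      fin_cases a <;> fin_cases b
      · rfl
      · exact absurd (congrArg Subtype.val hab) hne
      · exact absurd (congrArg Subtype.val hab) hne.symm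
      · rfl
    · rintro ⟨x, rfl | rfl⟩
      · exact ⟨0, rfl⟩
      · exact ⟨1, rfl⟩
  let e : Fin 2 ⊕ {x : n // ¬p x} ≃ n :=
    (Equiv.sumCongr (Equiv.ofBijective g hgb) (Equiv.refl _)).trans (Equiv.sumCompl p)
  have he0 : e (Sum.inl 0) = i := rfl
  have he1 : e (Sum.inl 1) = j := rfl
  let B : Matrix (Fin 2 ⊕ {x : n // ¬p x}) (Fin 2 ⊕ {x : n // ¬p x}) k := A.submatrix e e
  have hB : B.det = A.det := Matrix.det_submatrix_equiv_self e A
  have hBskew : ∀ x y, B y x = -B x y := fun x y => hskew (e x) (e y)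
  have hA1 : B.toBlocks₁₁ = !![0, A i j; -A i j, 0] := by
    ext a b
    fin_cases a <;> fin_cases b
    · exact hdiag i
    · rfl
    · exact hskew i j
    · exact hdiag j
  have hdet1 : B.toBlocks₁₁.det = A i j * A i j := by
    rw [hA1, Matrix.det_fin_two_of]
    ring
  have hunit : IsUnit B.toBlocks₁₁.det := by
    rw [hdet1]
    exact (mul_ne_zero hij hij).isUnit
  letI : Invertible B.toBlocks₁₁ := Matrix.invertibleOfIsUnitDet _ hunit
  have hinv : (⅟ B.toBlocks₁₁).transpose = -(⅟ B.toBlocks₁₁) := by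
    rw [Matrix.invOf_eq_nonsing_inv, Matrix.transpose_nonsing_inv]
    have h4 : B.toBlocks₁₁.transpose = -B.toBlocks₁₁ := by
      ext a b
      exact hBskew (Sum.inl a) (Sum.inl b)
    rw [h4]
    apply Matrix.inv_eq_right_inv
    rw [neg_mul_neg, Matrix.mul_nonsing_inv _ hunit]
  have h12 : B.toBlocks₁₂.transpose = -B.toBlocks₂₁ := by
    ext a b
    exact (hBskew (Sum.inr a) (Sum.inl b))
  have h21 : B.toBlocks₂₁.transpose = -B.toBlocks₁₂ := by
    ext a b
    exact (hBskew (Sum.inl a) (Sum.inr b))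
  have h22 : B.toBlocks₂₂.transpose = -B.toBlocks₂₂ := by
    ext a b
    exact (hBskew (Sum.inr a) (Sum.inr b))
  have hS : (B.toBlocks₂₂ - B.toBlocks₂₁ * ⅟ B.toBlocks₁₁ * B.toBlocks₁₂).transpose =
      -(B.toBlocks₂₂ - B.toBlocks₂₁ * ⅟ B.toBlocks₁₁ * B.toBlocks₁₂) := by
    rw [Matrix.transpose_sub, Matrix.transpose_mul, Matrix.transpose_mul, hinv, h12, h21, h22]
    simp only [Matrix.mul_neg, Matrix.neg_mul, neg_neg, Matrix.mul_assoc]
    abel
  have hcard : Fintype.card {x : n // ¬p x} < N := by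
    rw [← hN]
    exact Fintype.card_subtype_lt (x := i) (by simp [p])
  obtain ⟨s, hs⟩ := ih _ hcard _ hS rfl
  refine ⟨A i j * s, ?_⟩
  rw [← hB, ← Matrix.fromBlocks_toBlocks B, Matrix.det_fromBlocks₁₁, hs, hdet1]
  ring

theorem zassenhaus {k : Type} [Field k] (h2 : (2 : k) ≠ 0) {n : Type} [Fintype n]
    [DecidableEq n] (S A : Matrix n n k) (c : k) (hc : c ≠ 0) (hS : S.transpose = S)
    (hS0 : S.det ≠ 0) (hA : A.transpose * S * A = c • S) :
    IsSquare (S.det * A.det * (A * A - c • (1 : Matrix n n k)).det) := by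
  have hdet : IsUnit A.det := by
    rw [isUnit_iff_ne_zero]
    intro h0
    have h1 := congrArg Matrix.det hA
    rw [Matrix.det_mul, Matrix.det_mul, Matrix.det_transpose, h0, Matrix.det_smul] at h1
    have h3 : c ^ Fintype.card n * S.det ≠ 0 := mul_ne_zero (pow_ne_zero _ hc) hS0
    apply h3
    rw [← h1]
    ring
  have hAA : A * A⁻¹ = 1 := Matrix.mul_nonsing_inv A hdet
  have hdet' : IsUnit A.transpose.det := by rwa [Matrix.det_transpose]
  have hTT : A.transpose⁻¹ * A.transpose = 1 := Matrix.nonsing_inv_mul _ hdet'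
  have h1 : A.transpose * S = c • (S * A⁻¹) := by
    calc A.transpose * S = A.transpose * S * (A * A⁻¹) := by rw [hAA, Matrix.mul_one]
      _ = (A.transpose * S * A) * A⁻¹ := by rw [Matrix.mul_assoc (A.transpose * S)]
      _ = c • (S * A⁻¹) := by rw [hA, Matrix.smul_mul]
  have h3 : c • ((A⁻¹).transpose * S) = S * A := by
    rw [Matrix.transpose_nonsing_inv]
    calc c • (A.transpose⁻¹ * S) = A.transpose⁻¹ * (A.transpose * S * A) := by
          rw [hA, Matrix.mul_smul]
      _ = (A.transpose⁻¹ * A.transpose) * (S * A) := by simp only [Matrix.mul_assoc]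
      _ = S * A := by rw [hTT, Matrix.one_mul]
  have hN : (S * (A - c • A⁻¹)).transpose = -(S * (A - c • A⁻¹)) := by
    rw [Matrix.transpose_mul, Matrix.transpose_sub, Matrix.transpose_smul, hS, Matrix.sub_mul,
      Matrix.smul_mul, h1, h3, Matrix.mul_sub, Matrix.mul_smul]
    abel
  obtain ⟨s, hs⟩ := isSquare_det_skew h2 _ hN
  rw [Matrix.det_mul] at hs
  have h4 : A * A - c • (1 : Matrix n n k) = A * (A - c • A⁻¹) := by
    rw [Matrix.mul_sub, Matrix.mul_smul, hAA]
  refine ⟨A.det * s, ?_⟩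
  rw [h4, Matrix.det_mul]
  linear_combination (A.det * A.det) * hs

end Pool.Agent.Helper19.Sign
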