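import Mathlib

/-!
# SG-4: a prime not dividing the discriminants is unramified (MP_de89cc_ag).  Mathlib only.

`H i` are monic integral polynomials, separable mod the prime `ℓ`, `K` is a splitting field of
their product over `ℚ`.  There is a valuation `v : K → ℤ` (normalized, so that `v z` is the
`ℓ`-adic valuation of `z` for integers `z`: `ℓ` is unramified in `K`) such that
`v (a - a') = 0` for different roots `a, a'` of the same `H i`.

PROOF.  `G = Gal(K/ℚ)`, `P` a maximal ideal of `𝓞 K` over `ℓ` (`Ideal.exists_maximal_ideal_liesOver...`,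
or any prime factor of `(ℓ)`).  Different roots `a ≠ a'` of `H i` (they lie in `𝓞 K`) are different mod
`P`: the images of `a, a'` in `𝓞 K ⧸ P`; over the domain `𝓞 K ⧸ P` the polynomial `H i` is
`∏ (X - root)` (it splits in `𝓞 K`) and it is separable, hence squarefree, so the images
of the different roots are different.  Inertia: `σ` in the inertia group of `P`
(`P.inertia G`, `Ideal.inertia`) satisfies `σ a ≡ a mod P`, and `σ a`, `a` are roots of the
same `H i`, so `σ a = a`; `K` is generated by the roots so `σ = 1`.  So the inertia group is trivial,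
`Ideal.card_inertia_eq_ramificationIdxIn` (Mathlib.NumberTheory.RamificationInertia.Galois)
gives ramification index 1 of `P` over `(ℓ)`.  Let `v` be minus the exponent of
`HeightOneSpectrum.valuation K P` (or `Multiplicative`/`WithZero.log`); `v ≥ 0` on `𝓞 K`;
`v (a - a') = 0` as `a - a' ∉ P`; for an integer `z ≠ 0`: `v z` = (ramification index) * `ℓ`-adic
valuation (`IsDedekindDomain.HeightOneSpectrum.valuation_liesOver` in
Mathlib.NumberTheory.RamificationInertia.Valuation, or directly: `v ℓ = 1` and `v z = 0` for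
`z` prime to `ℓ`, multiplicativity).
-/

open Polynomial

namespace Pool.Agent.Helper19.Sign

private theorem sg4_deriv (H : ℤ[X]) (ℓ : ℕ) [Fact ℓ.Prime]
    (hsep : (H.map (Int.castRingHom (ZMod ℓ))).Separable) :
    ∃ U V W : ℤ[X], U * H + V * derivative H = 1 + C (ℓ : ℤ) * W := by
  obtain ⟨u, v, huv⟩ := hsep
  have hsurj : Function.Surjective (Int.castRingHom (ZMod ℓ)) := ZMod.intCast_surjective
  obtain ⟨U, hU⟩ := Polynomial.map_surjective (Int.castRingHom (ZMod ℓ)) hsurj u
  obtain ⟨V, hV⟩ := Polynomial.map_surjective (Int.castRingHom (ZMod ℓ)) hsurj v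
  have h0 : (U * H + V * derivative H - 1).map (Int.castRingHom (ZMod ℓ)) = 0 := by
    rw [Polynomial.map_sub, Polynomial.map_add, Polynomial.map_mul, Polynomial.map_mul, hU, hV,
      ← derivative_map, huv, Polynomial.map_one, sub_self]
  have hdvd : C (ℓ : ℤ) ∣ U * H + V * derivative H - 1 := by
    rw [Polynomial.C_dvd_iff_dvd_coeff]
    intro i
    have h1 := congrArg (fun q => q.coeff i) h0
    simp only [coeff_map, coeff_zero] at h1
    exact (ZMod.intCast_zmod_eq_zero_iff_dvd _ _).1 h1
  obtain ⟨W, hW⟩ := hdvd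
  exact ⟨U, V, W, by rw [← hW]; ring⟩

private theorem sg4_roots {S : Type} [CommRing S] [IsDomain S] (P : Ideal S) [hP : P.IsPrime]
    (H : ℤ[X]) (ℓ : ℕ) [Fact ℓ.Prime] (hsep : (H.map (Int.castRingHom (ZMod ℓ))).Separable)
    (hℓ : (ℓ : S) ∈ P) (a a' : S) (ha : aeval a H = 0) (ha' : aeval a' H = 0) (hne : a ≠ a') :
    a - a' ∉ P := by
  intro hmem
  obtain ⟨U, V, W, hUVW⟩ := sg4_deriv H ℓ hsep
  have e1 := congrArg (aeval a) hUVW
  rw [map_add, map_mul, map_mul, ha, mul_zero, zero_add, map_add, map_one, map_mul, aeval_C] at e1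
  obtain ⟨k, hk⟩ := Polynomial.binomExpansion (H.map (algebraMap ℤ S)) a (a' - a)
  rw [add_sub_cancel, eval_map_algebraMap, eval_map_algebraMap, derivative_map,
    eval_map_algebraMap, ha, ha', zero_add] at hk
  have h2 : (a' - a) * (aeval a (derivative H) + k * (a' - a)) = 0 := by
    rw [mul_add]
    linear_combination -hk
  have h3 : a' - a ≠ 0 := sub_ne_zero.2 hne.symm
  have h4 : aeval a (derivative H) = k * (a - a') := by
    have := (mul_eq_zero.1 h2).resolve_left h3
    linear_combination this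
  have h5 : aeval a (derivative H) ∈ P := by
    rw [h4]
    exact P.mul_mem_left _ hmem
  have h6 : (1 : S) ∈ P := by
    have h7 : (1 : S) = aeval a V * aeval a (derivative H) - (ℓ : S) * aeval a W := by
      rw [e1]
      simp
    rw [h7]
    exact P.sub_mem (P.mul_mem_left _ h5) (P.mul_mem_right _ hℓ)
  exact hP.ne_top ((Ideal.eq_top_iff_one P).2 h6)

theorem exists_unramified_val (I : Type) [Fintype I] (H : I → ℤ[X]) (hH : ∀ i, (H i).Monic)
    (ℓ : ℕ) [Fact ℓ.Prime] (hsep : ∀ i, ((H i).map (Int.castRingHom (ZMod ℓ))).Separable)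
    (K : Type) [Field K] [NumberField K]
    [(∏ i, (H i).map (Int.castRingHom ℚ)).IsSplittingField ℚ K] :
    ∃ v : K → ℤ, (∀ x y, x ≠ 0 → y ≠ 0 → v (x * y) = v x + v y) ∧
      (∀ x y, x ≠ 0 → y ≠ 0 → x + y ≠ 0 → min (v x) (v y) ≤ v (x + y)) ∧
      (∀ z : ℤ, z ≠ 0 → v (z : K) = padicValInt ℓ z) ∧
      (∀ x, x ≠ 0 → IsIntegral ℤ x → 0 ≤ v x) ∧
      ∀ i, ∀ a a' : K, a ≠ a' → aeval a (H i) = 0 → aeval a' (H i) = 0 → v (a - a') = 0 := by
  classical
  haveI hnorm : Normal ℚ K := Normal.of_isSplittingField (∏ i, (H i).map (Int.castRingHom ℚ))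
  haveI : IsGalois ℚ K := { }
  have hℓp : ℓ.Prime := Fact.out
  set p : Ideal ℤ := Ideal.span {(ℓ : ℤ)} with hp
  haveI hpmax : p.IsMaximal := Int.ideal_span_isMaximal_of_prime ℓ
  obtain ⟨P, hPmax, hPover⟩ :=
    Ideal.exists_maximal_ideal_liesOver_of_isIntegral (S := NumberField.RingOfIntegers K) p
  haveI := hPmax
  haveI := hPover
  haveI hPprime : P.IsPrime := hPmax.isPrime
  have hℓ0 : (ℓ : ℤ) ≠ 0 := by exact_mod_cast hℓp.ne_zero
  have hpbot : p ≠ ⊥ := by
    rw [hp, Ne, Ideal.span_singleton_eq_bot]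
    exact hℓ0
  have hunder : ∀ z : ℤ, (z : NumberField.RingOfIntegers K) ∈ P ↔ (ℓ : ℤ) ∣ z := by
    intro z
    have h1 : z ∈ P.under ℤ ↔ z ∈ p := by rw [← hPover.over]
    rw [hp, Ideal.mem_span_singleton] at h1
    rw [← h1, Ideal.mem_comap]
    rfl
  have hℓP : (ℓ : NumberField.RingOfIntegers K) ∈ P := by
    have := (hunder (ℓ : ℤ)).2 dvd_rfl
    simpa using this
  have hPbot : P ≠ ⊥ := by
    intro h
    rw [h, Ideal.mem_bot] at hℓP
    exact hℓp.ne_zero (by exact_mod_cast hℓP)
  -- lifting roots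
  have hlift : ∀ i, ∀ a : K, aeval a (H i) = 0 → ∃ A : NumberField.RingOfIntegers K,
      algebraMap (NumberField.RingOfIntegers K) K A = a ∧ aeval A (H i) = 0 := by
    intro i a ha
    have hint : IsIntegral ℤ a := ⟨H i, hH i, by rw [← aeval_def]; exact ha⟩
    obtain ⟨A, hA⟩ :=
      (IsIntegralClosure.isIntegral_iff (A := NumberField.RingOfIntegers K)).1 hint
    refine ⟨A, hA, ?_⟩
    apply FaithfulSMul.algebraMap_injective (NumberField.RingOfIntegers K) K
    rw [← Polynomial.aeval_algebraMap_apply, hA, ha, map_zero]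
  have hdiff : ∀ i, ∀ A A' : NumberField.RingOfIntegers K, A ≠ A' → aeval A (H i) = 0 →
      aeval A' (H i) = 0 → A - A' ∉ P := fun i A A' hne hA hA' =>
    sg4_roots P (H i) ℓ (hsep i) hℓP A A' hA hA' hne
  -- the inertia group is trivial
  have hinertia : P.inertia (K ≃ₐ[ℚ] K) = ⊥ := by
    rw [eq_bot_iff]
    intro σ hσ
    rw [Subgroup.mem_bot]
    have hfix : ∀ i, ∀ a : K, aeval a (H i) = 0 → σ a = a := by
      intro i a ha
      obtain ⟨A, hA, hA0⟩ := hlift i a ha
      have h1 : algebraMap (NumberField.RingOfIntegers K) K (σ • A) = σ a := by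
        rw [← hA]
        rfl
      have h2 : aeval (σ • A) (H i) = 0 := by
        apply FaithfulSMul.algebraMap_injective (NumberField.RingOfIntegers K) K
        rw [← Polynomial.aeval_algebraMap_apply, h1, map_zero]
        have h3 : aeval (σ a) (H i) = σ (aeval a (H i)) := by
          have h4 := Polynomial.hom_eval₂ (H i) (algebraMap ℤ K)
            (σ : K →ₐ[ℚ] K).toRingHom a
          rw [RingHom.ext_int ((σ : K →ₐ[ℚ] K).toRingHom.comp (algebraMap ℤ K))
            (algebraMap ℤ K)] at h4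
          exact h4.symm
        rw [h3, ha, map_zero]
      by_contra hne
      have h4 : σ • A ≠ A := by
        intro h5
        rw [h5, hA] at h1
        exact hne h1.symm
      exact hdiff i _ _ h4 h2 hA0 (hσ A)
    have hadj := Polynomial.IsSplittingField.adjoin_rootSet K
      (∏ i, (H i).map (Int.castRingHom ℚ))
    have hext : (σ : K →ₐ[ℚ] K) = AlgHom.id ℚ K := by
      apply AlgHom.ext_of_adjoin_eq_top hadj
      intro x hx
      have hx1 := Polynomial.aeval_eq_zero_of_mem_rootSet hx
      rw [map_prod, Finset.prod_eq_zero_iff] at hx1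
      obtain ⟨i, _, hi⟩ := hx1
      have hi' : aeval x (H i) = 0 := by
        rw [Polynomial.aeval_def, Polynomial.eval₂_map] at hi
        rw [Polynomial.aeval_def]
        have he : (algebraMap ℚ K).comp (Int.castRingHom ℚ) = algebraMap ℤ K :=
          RingHom.ext_int _ _
        rw [he] at hi
        exact hi
      exact hfix i x hi'
    ext x
    exact congrArg (fun f : K →ₐ[ℚ] K => f x) hext
  have hram : p.ramificationIdx' P = 1 := by
    rw [Ideal.ramificationIdx'_eq_ramificationIdx p P hpbot,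
      ← Ideal.ramificationIdxIn_eq_ramificationIdx p P (K ≃ₐ[ℚ] K),
      ← Ideal.card_inertia_eq_ramificationIdxIn (G := K ≃ₐ[ℚ] K) p P, hinertia]
    simp
  set w : IsDedekindDomain.HeightOneSpectrum (NumberField.RingOfIntegers K) :=
    ⟨P, hPprime, hPbot⟩ with hw
  set v₀ : IsDedekindDomain.HeightOneSpectrum ℤ := ⟨p, hpmax.isPrime, hpbot⟩ with hv₀
  haveI : w.asIdeal.LiesOver v₀.asIdeal := hPover
  have hval0 : ∀ x : K, x ≠ 0 → w.valuation K x ≠ 0 := fun x hx => by
    rw [Ne, Valuation.zero_iff]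
    exact hx
  have hvone : ∀ A : NumberField.RingOfIntegers K, A ∉ P →
      - WithZero.log (w.valuation K (algebraMap (NumberField.RingOfIntegers K) K A)) = 0 := by
    intro A hA
    have h1 : w.valuation K (algebraMap (NumberField.RingOfIntegers K) K A) = 1 :=
      (w.valuation_eq_one_iff_notMem).2 hA
    rw [h1, WithZero.log_one, neg_zero]
  have hvmul : ∀ x y : K, x ≠ 0 → y ≠ 0 → - WithZero.log (w.valuation K (x * y)) =
      - WithZero.log (w.valuation K x) + - WithZero.log (w.valuation K y) := by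
    intro x y hx hy
    rw [map_mul, WithZero.log_mul (hval0 x hx) (hval0 y hy)]
    ring
  have hvℓ : - WithZero.log (w.valuation K ((ℓ : ℤ) : K)) = 1 := by
    have h1 := IsDedekindDomain.HeightOneSpectrum.valuation_liesOver (K := ℚ) K v₀ w
      ((ℓ : ℤ) : ℚ)
    have h2 : v₀.asIdeal.ramificationIdx' w.asIdeal = 1 := hram
    rw [h2, pow_one] at h1
    have h3 : (algebraMap ℚ K) ((ℓ : ℤ) : ℚ) = ((ℓ : ℤ) : K) := by simp
    rw [h3] at h1
    rw [← h1]
    have h4 : v₀.valuation ℚ ((ℓ : ℤ) : ℚ) = v₀.intValuation (ℓ : ℤ) := by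
      have := v₀.valuation_of_algebraMap (K := ℚ) (ℓ : ℤ)
      simpa using this
    rw [h4, v₀.intValuation_singleton hℓ0 rfl, WithZero.log_exp]
    ring
  refine ⟨fun x => - WithZero.log (w.valuation K x), ?_, ?_, ?_, ?_, ?_⟩
  · exact hvmul
  · intro x y hx hy hxy
    have h1 := (w.valuation K).map_add x y
    simp only
    rcases le_max_iff.1 h1 with h2 | h2
    · have h3 := (WithZero.log_le_log (hval0 _ hxy) (hval0 _ hx)).2 h2
      exact (min_le_left _ _).trans (by linarith)
    · have h3 := (WithZero.log_le_log (hval0 _ hxy) (hval0 _ hy)).2 h2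
      exact (min_le_right _ _).trans (by linarith)
  · intro z hz
    simp only
    obtain ⟨m, hm⟩ : ∃ m : ℤ, z = (ℓ : ℤ) ^ padicValInt ℓ z * m :=
      padicValInt_dvd z
    have hmdvd : ¬ (ℓ : ℤ) ∣ m := by
      rintro ⟨c, rfl⟩
      have h1 : (ℓ : ℤ) ^ (padicValInt ℓ z + 1) ∣ z := ⟨c, by
        rw [pow_succ]
        linear_combination hm⟩
      rw [padicValInt_dvd_iff] at h1
      rcases h1 with h1 | h1
      · exact hz h1
      · omega
    have hm0 : m ≠ 0 := by
      rintro rfl
      exact hmdvd (dvd_zero _)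
    have hmv : - WithZero.log (w.valuation K (m : K)) = 0 := by
      have h1 := hvone (m : NumberField.RingOfIntegers K) (fun h => hmdvd ((hunder m).1 h))
      have h2 : algebraMap (NumberField.RingOfIntegers K) K (m : NumberField.RingOfIntegers K) =
          (m : K) := by simp
      rwa [h2] at h1
    have hℓK : ((ℓ : ℤ) : K) ≠ 0 := by exact_mod_cast hℓ0
    have hpow : ∀ n : ℕ, - WithZero.log (w.valuation K (((ℓ : ℤ) : K) ^ n)) = n := by
      intro n
      induction n with
      | zero => simp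
      | succ n ih =>
        rw [pow_succ, hvmul _ _ (pow_ne_zero _ hℓK) hℓK, ih, hvℓ]
        push_cast
        ring
    have hzK : (z : K) = ((ℓ : ℤ) : K) ^ padicValInt ℓ z * (m : K) := by
      exact_mod_cast congrArg (Int.cast : ℤ → K) hm
    have hmK : (m : K) ≠ 0 := by exact_mod_cast hm0
    rw [hzK, hvmul _ _ (pow_ne_zero _ hℓK) hmK, hpow, hmv, add_zero]
  · intro x hx hint
    obtain ⟨A, hA⟩ :=
      (IsIntegralClosure.isIntegral_iff (A := NumberField.RingOfIntegers K)).1 hint
    have h1 : w.valuation K x ≤ 1 := by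
      rw [← hA]
      exact w.valuation_le_one A
    have h2 := (WithZero.log_le_log (hval0 x hx) one_ne_zero).2 h1
    rw [WithZero.log_one] at h2
    simp only
    linarith
  · intro i a a' hne ha ha'
    obtain ⟨A, hA, hA0⟩ := hlift i a ha
    obtain ⟨A', hA', hA0'⟩ := hlift i a' ha'
    have hAA : A ≠ A' := by
      rintro rfl
      exact hne (hA.symm.trans hA')
    have h1 := hvone (A - A') (hdiff i A A' hAA hA0 hA0')
    rw [map_sub, hA, hA'] at h1
    exact h1

end Pool.Agent.Helper19.Sign
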