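import Pool.Agent.Helper19.Sign.Skew
import Pool.Agent.Helper19.Sign.Defs

/-!
# SG-6: the polynomial `T ^ g h(T + c / T)` and the resultant `Res(h, X ^ 2 - 4 c)` (MP_de89cc_ag)

`weil c h = ∑ j ≤ g, h_j X ^ (g - j) (X ^ 2 + c) ^ j` (Defs.lean), `g = deg h`.

* `weil_monic`: the summand `j` has degree `g + j`; the summand `j = g` is `(X ^ 2 + c) ^ g` (monic, degree
  `2 g`).
* `eval_weil`: for `x ≠ 0`: `X ^ (g - j) (X ^ 2 + c) ^ j` at `x` is `x ^ g (x + c / x) ^ j`.
* `resultant_eq_prod`: for a monic `h = ∏ (X - a)` over a field, `Res(h, X ^ 2 - 4 c) = ∏ (a ^ 2 - 4 c)`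
  (Mathlib: `Polynomial.resultant_eq_prod_eval` or similar in Mathlib.RingTheory.Polynomial.Resultant;
  compare `Pool.Agent.Helper19.Disc.map_resultant` in Pool/Agent/Helper19/Disc/Galois.lean).
* `isSquare_disc`: pass to an extension field `k'` of `k` (the algebraic closure) which contains
  `s` with `s ^ 2 = c`.  `det (A A - c) = det (A - s) det (A + s) = Q(s) Q(-s)` (`Q` the characteristic
  polynomial, of even degree: `Matrix.eval_charpoly`/`Matrix.eval_det`), `Q(s) = s ^ g h(2 s)`
  (`eval_weil`: `s + c / s = 2 s`), `Q(-s) = (-s) ^ g h(-2 s)`, so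
  `det (A A - c) = (-c) ^ g h(2 s) h(-2 s) = (-c) ^ g Res(h, X ^ 2 - 4 c)` (`resultant` commutes with maps).
  `det A = Q(0) = c ^ g` (`Matrix.det_eq_sign_charpoly_coeff`).  `zassenhaus` gives: `det S * c ^ g *
  (-c) ^ g * Res` is a square; divide by the square `(c ^ g) ^ 2`.
-/

open Polynomial

namespace Pool.Agent.Helper19.Sign

theorem weil_monic {R : Type} [CommRing R] [Nontrivial R] (c : R) (h : R[X]) (hh : h.Monic) :
    (weil c h).Monic ∧ (weil c h).natDegree = 2 * h.natDegree := by
  have hlast : C (h.coeff h.natDegree) * X ^ (h.natDegree - h.natDegree) *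
      (X ^ 2 + C c) ^ h.natDegree = (X ^ 2 + C c) ^ h.natDegree := by
    rw [hh.coeff_natDegree, Nat.sub_self, pow_zero, map_one, one_mul, one_mul]
  have hm : ((X ^ 2 + C c : R[X]) ^ h.natDegree).Monic :=
    (monic_X_pow_add_C c two_ne_zero).pow _
  have hd : ((X ^ 2 + C c : R[X]) ^ h.natDegree).natDegree = 2 * h.natDegree := by
    rw [(monic_X_pow_add_C c two_ne_zero).natDegree_pow, natDegree_X_pow_add_C, mul_comm]
  have hlt : (∑ j ∈ Finset.range h.natDegree,
      C (h.coeff j) * X ^ (h.natDegree - j) * (X ^ 2 + C c) ^ j).degree <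
      ((X ^ 2 + C c : R[X]) ^ h.natDegree).degree := by
    rw [degree_eq_natDegree hm.ne_zero, hd, ← mem_degreeLT]
    refine Submodule.sum_mem _ fun j hj => ?_
    rw [Finset.mem_range] at hj
    rw [mem_degreeLT]
    have h1 : (C (h.coeff j) * X ^ (h.natDegree - j) * (X ^ 2 + C c) ^ j).natDegree ≤
        (h.natDegree - j) + j * 2 := by
      refine natDegree_mul_le_of_le (natDegree_C_mul_X_pow_le _ _) ?_
      exact natDegree_pow_le_of_le j natDegree_X_pow_add_C.le
    refine lt_of_le_of_lt (degree_le_of_natDegree_le h1) ?_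
    exact_mod_cast (by omega : h.natDegree - j + j * 2 < 2 * h.natDegree)
  unfold weil
  rw [Finset.sum_range_succ, hlast]
  refine ⟨hm.add_of_right hlt, ?_⟩
  rw [natDegree_add_eq_right_of_degree_lt hlt, hd]

theorem weil_map {R R' : Type} [CommRing R] [CommRing R'] (f : R →+* R') (c : R) (h : R[X])
    (hh : (h.map f).natDegree = h.natDegree) : (weil c h).map f = weil (f c) (h.map f) := by
  unfold weil
  rw [hh, Polynomial.map_sum]
  refine Finset.sum_congr rfl fun j _ => ?_
  rw [Polynomial.map_mul, Polynomial.map_mul, Polynomial.map_pow, Polynomial.map_pow,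
    Polynomial.map_add, Polynomial.map_pow, map_X, map_C, map_C, coeff_map]

theorem eval_weil {k : Type} [Field k] (c : k) (h : k[X]) (x : k) (hx : x ≠ 0) :
    (weil c h).eval x = x ^ h.natDegree * h.eval (x + c / x) := by
  unfold weil
  rw [eval_finsetSum, eval_eq_sum_range, Finset.mul_sum]
  refine Finset.sum_congr rfl fun j hj => ?_
  rw [Finset.mem_range] at hj
  simp only [eval_mul, eval_C, eval_pow, eval_X, eval_add]
  have h1 : x ^ 2 + c = x * (x + c / x) := by
    field_simp
  have h2 : x ^ h.natDegree = x ^ (h.natDegree - j) * x ^ j := by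
    rw [← pow_add]
    congr 1
    omega
  rw [h1, h2, mul_pow]
  ring

theorem resultant_eq_prod {k : Type} [Field k] (h : k[X]) (hh : h.Monic) (hs : h.Splits) (c : k) :
    h.resultant (X ^ 2 - C (4 * c)) = (h.roots.map fun a => a ^ 2 - 4 * c).prod := by
  have hd : (X ^ 2 - C (4 * c) : k[X]).natDegree = 2 := natDegree_X_pow_sub_C
  rw [hd, resultant_eq_prod_eval _ _ 2 hd.le hs, hh.leadingCoeff, one_pow, one_mul]
  congr 1
  refine Multiset.map_congr rfl fun a _ => ?_
  rw [eval_sub, eval_pow, eval_X, eval_C]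

theorem isSquare_disc {k : Type} [Field k] (h2 : (2 : k) ≠ 0) (h : k[X]) (hh : h.Monic) (c : k)
    (hc : c ≠ 0) {n : Type} [Fintype n] [DecidableEq n] (S A : Matrix n n k)
    (hS : S.transpose = S) (hS0 : S.det ≠ 0) (hA : A.transpose * S * A = c • S)
    (hchar : A.charpoly = weil c h) :
    IsSquare (S.det * (-1) ^ h.natDegree * h.resultant (X ^ 2 - C (4 * c))) := by
  classical
  obtain ⟨hwm, hwd⟩ := weil_monic c h hh
  set g := h.natDegree with hg
  have hcard : Fintype.card n = 2 * g := by
    rw [← hwd, ← hchar, Matrix.charpoly_natDegree_eq_dim]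
  have hdetA : A.det = c ^ g := by
    rw [Matrix.det_eq_sign_charpoly_coeff, hcard, pow_mul, neg_one_sq, one_pow, one_mul, hchar,
      coeff_zero_eq_eval_zero]
    unfold weil
    rw [eval_finsetSum, Finset.sum_range_succ, Finset.sum_eq_zero, zero_add]
    · simp only [eval_mul, eval_C, eval_pow, eval_X, eval_add, Nat.sub_self, pow_zero]
      rw [hh.coeff_natDegree, zero_pow two_ne_zero, zero_add, one_mul, eval_one, one_mul]
    · intro j hj
      rw [Finset.mem_range] at hj
      simp only [eval_mul, eval_C, eval_pow, eval_X, eval_add]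
      rw [zero_pow (by omega : h.natDegree - j ≠ 0), mul_zero, zero_mul]
  have hD : (A * A - c • (1 : Matrix n n k)).det =
      (-c) ^ g * h.resultant (X ^ 2 - C (4 * c)) := by
    let φ : k →+* AlgebraicClosure k := algebraMap k (AlgebraicClosure k)
    have hφ : Function.Injective φ := φ.injective
    apply hφ
    obtain ⟨s, hs⟩ := IsAlgClosed.exists_pow_nat_eq (φ c) (n := 2) two_pos
    have hs0 : s ≠ 0 := by
      rintro rfl
      rw [zero_pow two_ne_zero] at hs
      exact hc (hφ (by rw [map_zero, ← hs]))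
    have hcs : φ c / s = s := by
      rw [← hs, sq, mul_div_assoc, div_self hs0, mul_one]
    set A' : Matrix n n (AlgebraicClosure k) := A.map φ with hA'
    have hQ : A'.charpoly = weil (φ c) (h.map φ) := by
      rw [hA', Matrix.charpoly_map, hchar, weil_map φ c h (natDegree_map _)]
    have hdm : (h.map φ).natDegree = g := natDegree_map _
    have e1 : A'.charpoly.eval s = s ^ g * (h.map φ).eval (2 * s) := by
      rw [hQ, eval_weil _ _ _ hs0, hdm, hcs, two_mul]
    have e2 : A'.charpoly.eval (-s) = (-s) ^ g * (h.map φ).eval (-(2 * s)) := by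
      rw [hQ, eval_weil _ _ _ (neg_ne_zero.2 hs0), hdm, div_neg, hcs, two_mul, neg_add]
    have hsc : ∀ t : AlgebraicClosure k, (Matrix.scalar n t : Matrix n n (AlgebraicClosure k)) =
        t • (1 : Matrix n n (AlgebraicClosure k)) := by
      intro t
      rw [Matrix.scalar_apply, Matrix.smul_one_eq_diagonal]
    have hmat : (A * A - c • (1 : Matrix n n k)).map φ =
        (Matrix.scalar n s - A') * (Matrix.scalar n (-s) - A') := by
      rw [Matrix.map_sub φ (map_sub φ), Matrix.map_mul, ← hA', hsc, hsc, Matrix.map_smul' φ c _ (map_mul φ),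
        Matrix.map_one φ (map_zero φ) (map_one φ), ← hs]
      rw [sub_mul, mul_sub, mul_sub, smul_mul_smul_comm, mul_one, smul_mul_assoc, one_mul,
        mul_smul_comm, mul_one]
      rw [neg_smul, mul_neg, neg_smul, sq]
      abel
    have e3 : φ (A * A - c • (1 : Matrix n n k)).det =
        A'.charpoly.eval s * A'.charpoly.eval (-s) := by
      rw [RingHom.map_det, RingHom.mapMatrix_apply, hmat, Matrix.det_mul, Matrix.eval_charpoly,
        Matrix.eval_charpoly]
    have e4 : φ (h.resultant (X ^ 2 - C (4 * c))) =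
        (h.map φ).eval (2 * s) * (h.map φ).eval (-(2 * s)) := by
      have hd : (X ^ 2 - C (4 * c) : k[X]).natDegree = 2 := natDegree_X_pow_sub_C
      rw [hd, ← resultant_map_map, Polynomial.map_sub, Polynomial.map_pow, map_X, map_C]
      have h4 : (X ^ 2 - C (φ (4 * c)) : (AlgebraicClosure k)[X]) =
          (X - C (2 * s)) * (X - C (-(2 * s))) := by
        rw [map_mul, ← hs, map_neg, sub_neg_eq_add]
        have h5 : φ 4 = 4 := map_ofNat φ 4
        rw [h5]
        simp only [map_mul, map_pow]
        have h6 : (C (4 : AlgebraicClosure k) : (AlgebraicClosure k)[X]) =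
          C (2 : AlgebraicClosure k) * C (2 : AlgebraicClosure k) := by
          rw [← map_mul]
          norm_num
        rw [h6]
        ring
      have h7 := resultant_mul_right (h.map φ) (X - C (2 * s)) (X - C (-(2 * s))) h.natDegree
        (natDegree_map _).le
      rw [← h4, natDegree_X_sub_C, natDegree_X_sub_C, one_add_one_eq_two] at h7
      rw [h7, resultant_X_sub_C_right _ _ _ (natDegree_map _).le,
        resultant_X_sub_C_right _ _ _ (natDegree_map _).le]
      have h8 : ((-1 : AlgebraicClosure k) ^ h.natDegree) * (-1) ^ h.natDegree = 1 := by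
        rw [← mul_pow]
        norm_num
      linear_combination ((h.map φ).eval (2 * s) * (h.map φ).eval (-(2 * s))) * h8
    rw [e3, e1, e2, map_mul, e4, map_pow, map_neg, ← hs]
    have h9 : (-s ^ 2) ^ g = s ^ g * (-s) ^ g := by
      rw [← mul_pow]
      congr 1
      ring
    rw [h9]
    ring
  have hz := zassenhaus h2 S A c hc hS hS0 hA
  rw [hdetA, hD] at hz
  obtain ⟨r, hr⟩ := hz
  have hcg : c ^ g ≠ 0 := pow_ne_zero _ hc
  refine ⟨r / c ^ g, ?_⟩
  have h10 : S.det * (-1) ^ g * h.resultant (X ^ 2 - C (4 * c)) * (c ^ g * c ^ g) = r * r := by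
    rw [← hr, neg_pow c g]
    ring
  field_simp
  linear_combination h10

end Pool.Agent.Helper19.Sign
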