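import Pool.Agent.Helper19.Sign.Gal
import Pool.Agent.Helper19.Sign.Weil
import Pool.Agent.Helper19.Sign.Unram
import Pool.Agent.Helper19.Sign.Odd

/-!
# Theorem B: one prime is enough
-/

open Polynomial Finset

namespace Pool.Agent.Helper19.Sign

open Disc (roots Rt mem_roots' stab_roots roots_map_eq exists_conj)

/-- The rational polynomial `T ^ g h(T + c / T)`. -/
noncomputable def qw (c : ℤ) (h : ℤ[X]) : ℚ[X] := (weil c h).map (Int.castRingHom ℚ)

theorem qw_eq (c : ℤ) (h : ℤ[X]) (hm : h.Monic) :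
    qw c h = weil (c : ℚ) (h.map (Int.castRingHom ℚ)) := by
  rw [qw, weil_map _ _ _ (hm.natDegree_map _)]
  rfl

section

variable {L : Type} [Field L] [NumberField L]

theorem mem_qw {c : ℤ} {h : ℤ[X]} (hm : h.Monic) (hq : qw c h ≠ 0) {β : L} (hβ0 : β ≠ 0) :
    β ∈ roots (qw c h) L ↔ aeval (β + (c : L) / β) h = 0 := by
  rw [mem_roots' hq]
  have h1 : aeval β (qw c h) = ((weil (c : L) (h.map (Int.castRingHom L)))).eval β := by
    have h2 : weil (c : L) (h.map (Int.castRingHom L)) = (weil c h).map (Int.castRingHom L) := by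
      rw [weil_map _ _ _ (hm.natDegree_map _)]
      rfl
    rw [h2, qw, aeval_def, eval₂_map, eval_map]
    congr 1
    exact Subsingleton.elim _ _
  rw [h1, eval_weil _ _ _ hβ0, mul_eq_zero, or_iff_right (pow_ne_zero _ hβ0), eval_map,
    aeval_def]
  have h3 : Int.castRingHom L = algebraMap ℤ L := Subsingleton.elim _ _
  rw [h3]

theorem qw_root_ne_zero {c : ℤ} {h : ℤ[X]} (hm : h.Monic) (hirr : Irreducible (qw c h)) {β : L}
    (hβ : β ∈ roots (qw c h) L) : β ≠ 0 := by
  rintro rfl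
  have h1 : aeval (0 : L) (qw c h) = 0 := (mem_roots' hirr.ne_zero).1 hβ
  rw [aeval_def, eval₂_at_zero, map_eq_zero] at h1
  have h2 : X ∣ qw c h := X_dvd_iff.2 h1
  have h3 : Associated X (qw c h) := (irreducible_X.associated_of_dvd hirr h2)
  have h4 := Polynomial.degree_eq_degree_of_associated h3
  have h5 : (qw c h).natDegree = 1 := by
    rw [← natDegree_X (R := ℚ)]
    exact (natDegree_eq_natDegree h4).symm
  rw [qw, (weil_monic c h hm).1.natDegree_map, (weil_monic c h hm).2] at h5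
  omega

/-- The numbers `β + c / β`. -/
noncomputable def traces (c : ℤ) (h : ℤ[X]) (L : Type) [Field L] [NumberField L]
    [DecidableEq L] : Finset L :=
  (roots (qw c h) L).image fun β => β + (c : L) / β

theorem traces_eq [DecidableEq L] {c : ℤ} {h : ℤ[X]} (hm : h.Monic)
    (hirr : Irreducible (qw c h)) (hsplit : ((qw c h).map (algebraMap ℚ L)).Splits) :
    (h.map (Int.castRingHom L)).roots = (traces c h L).val ∧
      (h.map (Int.castRingHom L)).Splits := by
  have hne0 : ∀ β ∈ roots (qw c h) L, β ≠ 0 := fun β hβ => qw_root_ne_zero hm hirr hβ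
  set A := traces c h L with hA
  have hmL : (h.map (Int.castRingHom L)).Monic := hm.map _
  have hsub : A.val ≤ (h.map (Int.castRingHom L)).roots := by
    rw [Multiset.le_iff_subset A.nodup]
    intro a ha
    obtain ⟨β, hβ, rfl⟩ := mem_image.1 (show a ∈ traces c h L from ha)
    rw [mem_roots hmL.ne_zero, IsRoot.def, eval_map]
    have h1 := (mem_qw hm hirr.ne_zero (hne0 β hβ)).1 hβ
    rw [aeval_def] at h1
    have h3 : Int.castRingHom L = algebraMap ℤ L := Subsingleton.elim _ _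
    rw [h3]; exact h1
  have hcard : (roots (qw c h) L).card ≤ 2 * A.card := by
    apply card_le_mul_card_image
    intro a ha
    obtain ⟨β, hβ, rfl⟩ := mem_image.1 ha
    refine (card_le_card (t := {β, (c : L) / β}) ?_).trans card_le_two
    intro γ hγ
    rw [mem_filter] at hγ
    have h1 := hne0 β hβ
    have h2 := hne0 γ hγ.1
    have h3 : (γ - β) * (γ - (c : L) / β) = 0 := by
      have h4 := hγ.2
      field_simp at h4 ⊢
      linear_combination h4
    rw [mem_insert, mem_singleton]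
    rcases mul_eq_zero.1 h3 with h4 | h4
    · exact Or.inl (sub_eq_zero.1 h4)
    · exact Or.inr (sub_eq_zero.1 h4)
  have hroots : (roots (qw c h) L).card = 2 * h.natDegree := by
    rw [(roots_map_eq hirr hsplit).2, qw, (weil_monic c h hm).1.natDegree_map,
      (weil_monic c h hm).2]
  have hdeg : Multiset.card (h.map (Int.castRingHom L)).roots ≤ h.natDegree := by
    have := card_roots' (h.map (Int.castRingHom L))
    rwa [hm.natDegree_map] at this
  have hle := Multiset.card_le_card hsub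
  have hAc : A.val.card = A.card := rfl
  have heq : A.val = (h.map (Int.castRingHom L)).roots := by
    apply Multiset.eq_of_le_of_card_le hsub
    omega
  refine ⟨heq.symm, ?_⟩
  rw [splits_iff_card_roots, ← heq, hm.natDegree_map]
  omega

end

theorem sum_val {K : Type} [Field K] [DecidableEq K] [CharZero K] (v : K → ℤ)
    (hmul : ∀ x y, x ≠ 0 → y ≠ 0 → v (x * y) = v x + v y) (ℓ : ℕ)
    (hint : ∀ z : ℤ, z ≠ 0 → v (z : K) = padicValInt ℓ z) (h : ℤ[X]) (hm : h.Monic) (c : ℤ)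
    (hs : (h.map (Int.castRingHom K)).Splits) (A : Finset K)
    (hA : (h.map (Int.castRingHom K)).roots = A.val)
    (hres : h.resultant (X ^ 2 - C (4 * c)) ≠ 0) :
    ∑ a ∈ A, v (a ^ 2 - 4 * (c : K)) = padicValInt ℓ (h.resultant (X ^ 2 - C (4 * c))) := by
  have hv1 : v 1 = 0 := by
    have := hmul 1 1 one_ne_zero one_ne_zero
    rw [mul_one] at this
    omega
  have h1 : ((h.resultant (X ^ 2 - C (4 * c)) : ℤ) : K) = ∏ a ∈ A, (a ^ 2 - 4 * (c : K)) := by
    have h2 := resultant_eq_prod (h.map (Int.castRingHom K)) (hm.map _) hs (c : K)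
    have hd : (X ^ 2 - C (4 * c) : ℤ[X]).natDegree = 2 := natDegree_X_pow_sub_C
    have hdK : (X ^ 2 - C (4 * (c : K)) : K[X]).natDegree = 2 := natDegree_X_pow_sub_C
    have h3 := resultant_map_map h (X ^ 2 - C (4 * c)) h.natDegree
      (X ^ 2 - C (4 * c) : ℤ[X]).natDegree (Int.castRingHom K)
    have hmap : (X ^ 2 - C (4 * c) : ℤ[X]).map (Int.castRingHom K) = X ^ 2 - C (4 * (c : K)) := by
      rw [Polynomial.map_sub, Polynomial.map_pow, map_X, map_C, map_mul]
      simp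
    rw [hmap, hd] at h3
    rw [hm.natDegree_map, hdK, h3, hA] at h2
    rw [hd]
    exact h2
  have hne : ∀ a ∈ A, a ^ 2 - 4 * (c : K) ≠ 0 := by
    intro a ha h0
    have h2 : ((h.resultant (X ^ 2 - C (4 * c)) : ℤ) : K) = 0 := by
      rw [h1]
      exact prod_eq_zero ha h0
    exact hres (by exact_mod_cast h2)
  rw [← hint _ hres, h1]
  have haux : ∀ B : Finset K, B ⊆ A → ∑ a ∈ B, v (a ^ 2 - 4 * (c : K)) =
      v (∏ a ∈ B, (a ^ 2 - 4 * (c : K))) := by
    intro B
    induction B using Finset.induction_on with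
    | empty => intro _; rw [sum_empty, prod_empty, hv1]
    | insert b B hb ih =>
      intro hB
      rw [sum_insert hb, prod_insert hb, hmul _ _ (hne b (hB (mem_insert_self _ _)))
        (prod_ne_zero_iff.2 fun a ha => hne a (hB (mem_insert_of_mem ha))),
        ih fun a ha => hB (mem_insert_of_mem ha)]
  exact haux A subset_rfl

/-- Existence of a block with two elements. -/
theorem exists_small_block (I : Type) [Fintype I] [DecidableEq I] (c : I → ℤ) (hc : ∀ i, c i ≠ 0)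
    (h : I → ℤ[X]) (hm : ∀ i, (h i).Monic) (hirr : ∀ i, Irreducible (qw (c i) (h i)))
    (L : Type) [Field L] [NumberField L] [IsGalois ℚ L] [DecidableEq L]
    (hsplit : ∀ i, ((qw (c i) (h i)).map (algebraMap ℚ L)).Splits)
    [MulAction (L ≃ₐ[ℚ] L) (Σ i, Rt L (qw (c i) (h i)))]
    (hact : ∀ (σ : L ≃ₐ[ℚ] L) (x : Σ i, Rt L (qw (c i) (h i))), (σ • x).1 = x.1 ∧
      (σ • x).2.1 = σ x.2.1)
    (ι : (Σ i, Rt L (qw (c i) (h i))) → Σ i, Rt L (qw (c i) (h i)))
    (hι : ∀ x, (ι x).1 = x.1 ∧ (ι x).2.1 = (c x.1 : L) / x.2.1)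
    (hfix : ∀ x : Σ i, Rt L (qw (c i) (h i)), x.2.1 ^ 2 ≠ (c x.1 : L))
    (i : I) (ℓ : ℕ) (hℓ : ℓ.Prime)
    (hsep : ∀ j, ((h j).map (Int.castRingHom (ZMod ℓ))).Separable)
    (hodd : Odd (padicValInt ℓ ((h i).resultant (X ^ 2 - C (4 * c i)))))
    (hndvd : ∀ j, j ≠ i → ¬ (ℓ : ℤ) ∣ (h j).resultant (X ^ 2 - C (4 * c j))) :
    ∃ x₀ : Σ i, Rt L (qw (c i) (h i)), x₀.1 = i ∧ (blk (L ≃ₐ[ℚ] L) ι x₀).card = 2 ∧
      ∃ σ₀ : L ≃ₐ[ℚ] L, InCore ι σ₀ ∧ σ₀ • x₀ ≠ x₀ := by
  classical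
  have hFℓ : Fact ℓ.Prime := ⟨hℓ⟩
  let S : Type := Σ i, Rt L (qw (c i) (h i))
  have hSext : ∀ x y : S, x.1 = y.1 → x.2.1 = y.2.1 → x = y := by
    rintro ⟨i, x, hx⟩ ⟨j, y, hy⟩ h1 h2
    obtain rfl : i = j := h1
    obtain rfl : x = y := h2
    rfl
  have hx0 : ∀ x : S, x.2.1 ≠ 0 := fun x => qw_root_ne_zero (hm x.1) (hirr x.1) x.2.2
  have hcL : ∀ i, (c i : L) ≠ 0 := fun i => by exact_mod_cast hc i
  -- the real field
  set H : ℚ[X] := ∏ i, (h i).map (Int.castRingHom ℚ) with hH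
  have hHm : H.Monic := monic_prod_of_monic _ _ fun i _ => (hm i).map _
  have hmapL : ∀ j, ((h j).map (Int.castRingHom ℚ)).map (algebraMap ℚ L) =
      (h j).map (Int.castRingHom L) := by
    intro j
    rw [Polynomial.map_map]
    congr 1
    exact Subsingleton.elim _ _
  have hHL : (H.map (algebraMap ℚ L)).Splits := by
    rw [hH, Polynomial.map_prod]
    refine Splits.prod fun j _ => ?_
    rw [hmapL]
    exact (traces_eq (hm j) (hirr j) (hsplit j)).2
  set K : IntermediateField ℚ L := IntermediateField.adjoin ℚ (H.rootSet L) with hK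
  have hKs : H.IsSplittingField ℚ K := IntermediateField.adjoin_rootSet_isSplittingField hHL
  obtain ⟨v, hmul, hadd, hint, hpos, hdiff⟩ := exists_unramified_val I h hm ℓ hsep K
  -- the traces
  let a : S → L := fun x => x.2.1 + (c x.1 : L) / x.2.1
  have haroot : ∀ x : S, aeval (a x) (h x.1) = 0 := fun x =>
    (mem_qw (hm x.1) (hirr x.1).ne_zero (hx0 x)).1 x.2.2
  have haQ : ∀ (j : I) (z : L), aeval z (h j) = 0 → z ∈ H.rootSet L := by
    intro j z hz
    rw [mem_rootSet]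
    refine ⟨hHm.ne_zero, ?_⟩
    rw [hH, map_prod]
    refine prod_eq_zero (mem_univ j) ?_
    rw [aeval_def, eval₂_map]
    rw [aeval_def] at hz
    have h3 : (algebraMap ℚ L).comp (Int.castRingHom ℚ) = algebraMap ℤ L := Subsingleton.elim _ _
    rw [h3]; exact hz
  have haK : ∀ x : S, a x ∈ K := fun x =>
    IntermediateField.subset_adjoin _ _ (haQ x.1 _ (haroot x))
  let aK : S → K := fun x => ⟨a x, haK x⟩
  have haKroot : ∀ x : S, aeval (aK x) (h x.1) = 0 := by
    intro x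
    have h1 := haroot x
    have h2 : ((aeval (aK x) (h x.1) : K) : L) = aeval (a x) (h x.1) := by
      rw [show a x = algebraMap K L (aK x) from rfl, aeval_algebraMap_apply]
      rfl
    rw [h1] at h2
    exact_mod_cast h2
  have ha_eq : ∀ x y : S, x.1 = y.1 → a x = a y → y = x ∨ y = ι x := by
    intro x y h1 h2
    have hx := hx0 x
    have hy := hx0 y
    have h3 : (y.2.1 - x.2.1) * (y.2.1 - (c x.1 : L) / x.2.1) = 0 := by
      have h4 : x.2.1 + (c x.1 : L) / x.2.1 = y.2.1 + (c y.1 : L) / y.2.1 := h2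
      have h5 : (c y.1 : L) = (c x.1 : L) := congrArg (fun j => (c j : L)) h1.symm
      rw [h5] at h4
      field_simp at h4 ⊢
      linear_combination -h4
    rcases mul_eq_zero.1 h3 with h4 | h4
    · exact Or.inl (hSext _ _ h1.symm (sub_eq_zero.1 h4))
    · refine Or.inr (hSext _ _ ?_ ?_)
      · rw [(hι x).1]; exact h1.symm
      · rw [(hι x).2]; exact sub_eq_zero.1 h4
  -- the roots in `K`
  have hsK : ∀ j, ((h j).map (Int.castRingHom K)).Splits := by
    intro j
    have h1 : (H.map (algebraMap ℚ K)).Splits := IsSplittingField.splits K H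
    refine Splits.of_dvd h1 (hHm.map _).ne_zero ?_
    have h2 : ((h j).map (Int.castRingHom ℚ)).map (algebraMap ℚ K) =
        (h j).map (Int.castRingHom K) := by
      rw [Polynomial.map_map]
      congr 1
      exact Subsingleton.elim _ _
    rw [← h2]
    exact Polynomial.map_dvd _ (dvd_prod_of_mem _ (mem_univ j))
  have hrootsK : ∀ j, ((h j).map (Int.castRingHom L)).roots =
      ((h j).map (Int.castRingHom K)).roots.map (algebraMap K L) := by
    intro j
    rw [← (hsK j).roots_map (algebraMap K L), Polynomial.map_map]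
    congr 2
  have hnodup : ∀ j, ((h j).map (Int.castRingHom K)).roots.Nodup := by
    intro j
    have h1 : (((h j).map (Int.castRingHom K)).roots.map (algebraMap K L)).Nodup := by
      rw [← hrootsK, (traces_eq (hm j) (hirr j) (hsplit j)).1]
      exact (traces (c j) (h j) L).nodup
    exact Multiset.Nodup.of_map _ h1
  let A : I → Finset K := fun j => ⟨((h j).map (Int.castRingHom K)).roots, hnodup j⟩
  have hAmem : ∀ j z, z ∈ A j ↔ aeval z (h j) = 0 := by
    intro j z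
    show z ∈ ((h j).map (Int.castRingHom K)).roots ↔ _
    rw [mem_roots ((hm j).map _).ne_zero, IsRoot.def, eval_map, aeval_def]
    have h3 : Int.castRingHom K = algebraMap ℤ K := Subsingleton.elim _ _
    rw [h3]
  have hAx : ∀ j, ∀ z ∈ A j, ∃ x : S, x.1 = j ∧ aK x = z := by
    intro j z hz
    have h1 : algebraMap K L z ∈ ((h j).map (Int.castRingHom L)).roots := by
      rw [hrootsK]
      exact Multiset.mem_map_of_mem _ hz
    rw [(traces_eq (hm j) (hirr j) (hsplit j)).1] at h1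
    obtain ⟨β, hβ, h2⟩ := mem_image.1 (show algebraMap K L z ∈ traces (c j) (h j) L from h1)
    refine ⟨⟨j, ⟨β, hβ⟩⟩, rfl, ?_⟩
    apply Subtype.ext
    exact h2
  have hxA : ∀ x : S, aK x ∈ A x.1 := fun x => (hAmem _ _).2 (haKroot x)
  -- integrality
  have hv0 : v 1 = 0 := by
    have := hmul 1 1 one_ne_zero one_ne_zero
    rw [mul_one] at this
    omega
  let dK : S → K := fun x => aK x ^ 2 - 4 * (c x.1 : K)
  have hdL : ∀ x : S, ((dK x : K) : L) = (x.2.1 - (c x.1 : L) / x.2.1) ^ 2 := by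
    intro x
    have hx := hx0 x
    show (a x) ^ 2 - 4 * (((c x.1 : ℤ) : K) : L) = _
    rw [show (((c x.1 : ℤ) : K) : L) = (c x.1 : L) by norm_cast]
    show (x.2.1 + (c x.1 : L) / x.2.1) ^ 2 - 4 * (c x.1 : L) = _
    field_simp
    ring
  have hzne : ∀ x : S, x.2.1 - (c x.1 : L) / x.2.1 ≠ 0 := by
    intro x h1
    apply hfix x
    have hx := hx0 x
    field_simp at h1
    linear_combination h1
  have hdne : ∀ x : S, dK x ≠ 0 := by
    intro x h1
    have h2 := hdL x
    rw [h1] at h2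
    exact pow_ne_zero 2 (hzne x) h2.symm
  have hpos' : ∀ j, ∀ z ∈ A j, 0 ≤ v (z ^ 2 - 4 * (c j : K)) := by
    intro j z hz
    obtain ⟨x, rfl, rfl⟩ := hAx j z hz
    refine hpos _ (hdne x) ?_
    have h1 : IsIntegral ℤ (aK x) := ⟨h x.1, hm x.1, haKroot x⟩
    refine (h1.pow 2).sub ?_
    have h2 : (4 * (c x.1 : K)) = algebraMap ℤ K (4 * c x.1) := by
      push_cast
      simp
    rw [h2]
    exact isIntegral_algebraMap
  have hsumj : ∀ j, (h j).resultant (X ^ 2 - C (4 * c j)) ≠ 0 →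
      ∑ z ∈ A j, v (z ^ 2 - 4 * (c j : K)) =
        padicValInt ℓ ((h j).resultant (X ^ 2 - C (4 * c j))) := fun j hj =>
    sum_val v hmul ℓ hint (h j) (hm j) (c j) (hsK j) (A j) rfl hj
  have hresi : (h i).resultant (X ^ 2 - C (4 * c i)) ≠ 0 := by
    intro h0
    rw [h0] at hodd
    simp at hodd
  have hother : ∀ y : S, y.1 ≠ i → v (dK y) = 0 := by
    intro y hy
    have h1 := hndvd y.1 hy
    have h2 : (h y.1).resultant (X ^ 2 - C (4 * c y.1)) ≠ 0 := by
      intro h0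
      rw [h0] at h1
      exact h1 (dvd_zero _)
    have h3 := hsumj y.1 h2
    rw [padicValInt.eq_zero_of_not_dvd h1, Nat.cast_zero] at h3
    exact (sum_eq_zero_iff_of_nonneg (hpos' y.1)).1 h3 _ (hxA y)
  have hsumi := hsumj i hresi
  have hoddsum : Odd (∑ z ∈ A i, v (z ^ 2 - 4 * (c i : K))) := by
    rw [hsumi]
    exact_mod_cast hodd
  obtain ⟨a₀, ha₀, hodd₀, heven⟩ := unique_odd v hmul hadd (A i) (4 * (c i : K))
    (fun z hz z' hz' hne => hdiff i z z' hne ((hAmem _ _).1 hz) ((hAmem _ _).1 hz'))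
    (hpos' i) hoddsum
  obtain ⟨x₀, hx₀i, hx₀a⟩ := hAx i a₀ ha₀
  subst hx₀i
  rw [← hx₀a] at hodd₀
  have hodd₀' : Odd (v (dK x₀)) := hodd₀
  have heven' : ∀ y : S, y ≠ x₀ → y ≠ ι x₀ → Even (v (dK y)) := by
    intro y h1 h2
    by_cases h3 : y.1 = x₀.1
    · have h4 : aK y ≠ a₀ := by
        intro h5
        rw [← hx₀a] at h5
        have h6 : a x₀ = a y := (congrArg Subtype.val h5).symm
        rcases ha_eq x₀ y h3.symm h6 with h7 | h7
        · exact h1 h7
        · exact h2 h7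
      have h5 := heven (aK y) (by rw [← h3]; exact hxA y) h4
      rw [← h3] at h5
      exact h5
    · rw [hother y h3]
      exact Even.zero
  -- the core
  have hstab : ∀ (σ : L ≃ₐ[ℚ] L) (x : S), σ • x = x ∨ σ • x = ι x ↔ σ (a x) = a x := by
    intro σ x
    have hx := hx0 x
    have hcx := hcL x.1
    have hσc : σ (c x.1 : L) = (c x.1 : L) := map_intCast σ _
    have hσa : σ (a x) = σ x.2.1 + (c x.1 : L) / σ x.2.1 := by
      show σ (x.2.1 + (c x.1 : L) / x.2.1) = _
      rw [map_add, map_div₀, hσc]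
    have h1 : a (σ • x) = σ (a x) := by
      rw [hσa]
      show (σ • x).2.1 + (c (σ • x).1 : L) / (σ • x).2.1 = _
      have h5 : (c (σ • x).1 : L) = (c x.1 : L) := congrArg (fun j => (c j : L)) (hact σ x).1
      rw [h5, (hact σ x).2]
    constructor
    · rintro (h2 | h2)
      · rw [← h1, h2]
      · rw [← h1, h2]
        show (ι x).2.1 + (c (ι x).1 : L) / (ι x).2.1 = x.2.1 + (c x.1 : L) / x.2.1
        have h5 : (c (ι x).1 : L) = (c x.1 : L) := congrArg (fun j => (c j : L)) (hι x).1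
        rw [h5, (hι x).2, div_div_cancel₀ hcx]
        ring
    · intro h2
      rw [← h1] at h2
      exact ha_eq x (σ • x) (hact σ x).1.symm h2.symm
  have hcore : ∀ σ : L ≃ₐ[ℚ] L, InCore ι σ ↔ σ ∈ K.fixingSubgroup := by
    intro σ
    constructor
    · intro h1
      rw [IntermediateField.mem_fixingSubgroup_iff]
      have h2 : K ≤ IntermediateField.fixedField (Subgroup.zpowers σ) := by
        rw [hK, IntermediateField.adjoin_le_iff]
        intro z hz
        rw [SetLike.mem_coe, IntermediateField.mem_fixedField_iff]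
        intro τ hτ
        have h3 : σ z = z := by
          rw [mem_rootSet, hH, map_prod] at hz
          obtain ⟨j, _, hj⟩ := prod_eq_zero_iff.1 hz.2
          have h4 : z ∈ ((h j).map (Int.castRingHom L)).roots := by
            rw [mem_roots ((hm j).map _).ne_zero, IsRoot.def, ← hmapL, eval_map]
            exact hj
          rw [(traces_eq (hm j) (hirr j) (hsplit j)).1] at h4
          obtain ⟨β, hβ, rfl⟩ := mem_image.1 (show z ∈ traces (c j) (h j) L from h4)
          exact (hstab σ ⟨j, ⟨β, hβ⟩⟩).1 (h1 _)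
        have h5 : σ ∈ MulAction.stabilizer (L ≃ₐ[ℚ] L) z := h3
        exact (Subgroup.zpowers_le.2 h5) hτ
      intro x hx
      exact (IntermediateField.mem_fixedField_iff _ _).1 (h2 hx) σ (Subgroup.mem_zpowers σ)
    · intro h1 x
      rw [IntermediateField.mem_fixingSubgroup_iff] at h1
      exact (hstab σ x).2 (h1 _ (haK x))
  let z : S → L := fun x => x.2.1 - (c x.1 : L) / x.2.1
  have hzσ : ∀ (σ : L ≃ₐ[ℚ] L) (x : S), σ (z x) = z (σ • x) := by
    intro σ x
    show σ (x.2.1 - (c x.1 : L) / x.2.1) = (σ • x).2.1 - (c (σ • x).1 : L) / (σ • x).2.1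
    have h5 : (c (σ • x).1 : L) = (c x.1 : L) := congrArg (fun j => (c j : L)) (hact σ x).1
    rw [h5, (hact σ x).2, map_sub, map_div₀, map_intCast]
  have hzι : ∀ x : S, z (ι x) = - z x := by
    intro x
    show (ι x).2.1 - (c (ι x).1 : L) / (ι x).2.1 = -(x.2.1 - (c x.1 : L) / x.2.1)
    have h5 : (c (ι x).1 : L) = (c x.1 : L) := congrArg (fun j => (c j : L)) (hι x).1
    rw [h5, (hι x).2, div_div_cancel₀ (hcL x.1)]
    ring
  have hfixK : ∀ w : L, (∀ σ ∈ K.fixingSubgroup, σ w = w) → w ∈ K := by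
    intro w hw
    have h1 : w ∈ IntermediateField.fixedField K.fixingSubgroup := by
      rw [IntermediateField.mem_fixedField_iff]
      exact hw
    rwa [IsGalois.fixedField_fixingSubgroup] at h1
  have hιne : ι x₀ ≠ x₀ := by
    intro h1
    have h2 : z (ι x₀) = z x₀ := congrArg z h1
    rw [hzι] at h2
    have h3 : z x₀ = 0 := by
      have h4 : (2 : L) * z x₀ = 0 := by linear_combination -h2
      exact (mul_eq_zero.1 h4).resolve_left two_ne_zero
    exact hzne x₀ h3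
  have hιmem : ι x₀ ∈ blk (L ≃ₐ[ℚ] L) ι x₀ := by
    rw [mem_blk]
    intro σ _
    constructor
    · intro h1
      apply hSext
      · exact (hact σ (ι x₀)).1
      · rw [(hact σ (ι x₀)).2, (hι x₀).2, map_div₀, map_intCast]
        have h2 : σ x₀.2.1 = x₀.2.1 := by rw [← (hact σ x₀).2, h1]
        rw [h2]
    · intro h1
      apply hSext
      · exact (hact σ x₀).1
      · have h2 : σ (ι x₀).2.1 = (ι x₀).2.1 := by rw [← (hact σ (ι x₀)).2, h1]
        rw [(hι x₀).2, map_div₀, map_intCast] at h2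
        rw [(hact σ x₀).2]
        have h3 : σ x₀.2.1 ≠ 0 := (map_ne_zero σ).2 (hx0 x₀)
        have h4 := hx0 x₀
        have h5 := hcL x₀.1
        rw [div_eq_div_iff h3 h4] at h2
        exact (mul_left_cancel₀ h5 h2).symm
  refine ⟨x₀, rfl, ?_, ?_⟩
  · have hB : blk (L ≃ₐ[ℚ] L) ι x₀ = {x₀, ι x₀} := by
      symm
      apply Subset.antisymm
      · intro y hy
        rcases mem_insert.1 hy with rfl | hy
        · exact self_mem_blk _
        · rw [mem_singleton] at hy
          rw [hy]; exact hιmem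
      · intro y hy
        rw [mem_insert, mem_singleton]
        by_contra hcon
        push Not at hcon
        have h1 := heven' y hcon.1 hcon.2
        have hw : z x₀ * z y ∈ K := by
          apply hfixK
          intro σ hσ
          have hσ' := (hcore σ).2 hσ
          have h2 := (mem_blk.1 hy) σ hσ'
          rw [map_mul, hzσ, hzσ]
          by_cases h3 : σ • x₀ = x₀
          · rw [h3, h2.1 h3]
          · rw [(hσ' x₀).resolve_left h3, (hσ' y).resolve_left fun h4 => h3 (h2.2 h4), hzι, hzι]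
            ring
        have h4 : (⟨z x₀ * z y, hw⟩ : K) ^ 2 = dK x₀ * dK y := by
          apply Subtype.ext
          show (z x₀ * z y) ^ 2 = ((dK x₀ : K) : L) * ((dK y : K) : L)
          rw [hdL, hdL]
          ring
        have h5 : (⟨z x₀ * z y, hw⟩ : K) ≠ 0 := by
          intro h6
          rw [h6] at h4
          exact mul_ne_zero (hdne x₀) (hdne y) (by rw [← h4]; ring)
        have h6 := congrArg v h4
        rw [pow_two, hmul _ _ h5 h5, hmul _ _ (hdne x₀) (hdne y)] at h6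
        obtain ⟨s, hs⟩ := h1
        obtain ⟨t, ht⟩ := hodd₀'
        omega
    rw [hB, card_pair hιne.symm]
  · by_contra hcon
    push Not at hcon
    have hw : z x₀ ∈ K := by
      apply hfixK
      intro σ hσ
      rw [hzσ, hcon σ ((hcore σ).2 hσ)]
    have h4 : (⟨z x₀, hw⟩ : K) ^ 2 = dK x₀ := by
      apply Subtype.ext
      rw [hdL]
      rfl
    have h5 : (⟨z x₀, hw⟩ : K) ≠ 0 := by
      intro h6
      rw [h6] at h4
      exact hdne x₀ (by rw [← h4]; ring)
    have h6 := congrArg v h4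
    rw [pow_two, hmul _ _ h5 h5] at h6
    obtain ⟨t, ht⟩ := hodd₀'
    omega

theorem theoremB (I : Type) [Fintype I] (c : I → ℤ) (hc : ∀ i, c i ≠ 0) (h : I → ℤ[X])
    (hm : ∀ i, (h i).Monic) (hirr : ∀ i, Irreducible (qw (c i) (h i)))
    (hℓ : ∀ i, ∃ ℓ : ℕ, ℓ.Prime ∧ (∀ j, ((h j).map (Int.castRingHom (ZMod ℓ))).Separable) ∧
      Odd (padicValInt ℓ ((h i).resultant (X ^ 2 - C (4 * c i)))) ∧
      ∀ j, j ≠ i → ¬ (ℓ : ℤ) ∣ (h j).resultant (X ^ 2 - C (4 * c j)))
    (L : Type) [Field L] [NumberField L] [IsGalois ℚ L]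
    (hsplit : ∀ i, ((qw (c i) (h i)).map (algebraMap ℚ L)).Splits)
    (htors : ∀ i, ∀ β ∈ roots (qw (c i) (h i)) L, ∀ k : ℕ, 0 < k → β ^ (2 * k) ≠ (c i : L) ^ k)
    (n : I → L → ℤ) (N : ℕ) (hN : N ≠ 0) (e : ℚ)
    (hrel : (∏ i, ∏ β ∈ roots (qw (c i) (h i)) L, β ^ n i β) ^ N = algebraMap ℚ L e) :
    ∀ i, ∀ β ∈ roots (qw (c i) (h i)) L, n i β = n i ((c i : L) / β) := by
  classical
  intro i₀ β₀ hβ₀
  have hPne : ∀ i, qw (c i) (h i) ≠ 0 := fun i => (hirr i).ne_zero
  let S : Type := Σ i, Rt L (qw (c i) (h i))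
  let act' : MulAction (L ≃ₐ[ℚ] L) S := Disc.actSigma hPne
  have hSext : ∀ x y : S, x.1 = y.1 → x.2.1 = y.2.1 → x = y := by
    rintro ⟨i, x, hx⟩ ⟨j, y, hy⟩ h1 h2
    obtain rfl : i = j := h1
    obtain rfl : x = y := h2
    rfl
  have hx0 : ∀ x : S, x.2.1 ≠ 0 := fun x => qw_root_ne_zero (hm x.1) (hirr x.1) x.2.2
  have hcL : ∀ i, (c i : L) ≠ 0 := fun i => by exact_mod_cast hc i
  have hsym : ∀ i, ∀ β ∈ roots (qw (c i) (h i)) L, (c i : L) / β ∈ roots (qw (c i) (h i)) L := by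
    intro i β hβ
    have h1 := qw_root_ne_zero (hm i) (hirr i) hβ
    rw [mem_qw (hm i) (hPne i) (div_ne_zero (hcL i) h1), div_div_cancel₀ (hcL i), add_comm]
    exact (mem_qw (hm i) (hPne i) h1).1 hβ
  have hact : ∀ (σ : L ≃ₐ[ℚ] L) (x : S), (σ • x).1 = x.1 ∧ (σ • x).2.1 = σ x.2.1 :=
    fun _ _ => ⟨rfl, rfl⟩
  let ι : S → S := fun x => ⟨x.1, ⟨(c x.1 : L) / x.2.1, hsym x.1 x.2.1 x.2.2⟩⟩
  have hι' : ∀ x : S, (ι x).1 = x.1 ∧ (ι x).2.1 = (c x.1 : L) / x.2.1 := fun _ => ⟨rfl, rfl⟩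
  have hι : ∀ x : S, ι (ι x) = x := by
    intro x
    refine hSext (ι (ι x)) x rfl ?_
    show (c x.1 : L) / ((c x.1 : L) / x.2.1) = x.2.1
    rw [div_div_cancel₀ (hcL x.1)]
  have hcomm : ∀ (g : L ≃ₐ[ℚ] L) (x : S), g • ι x = ι (g • x) := by
    intro g x
    refine hSext (g • ι x) (ι (g • x)) rfl ?_
    show g ((c x.1 : L) / x.2.1) = (c x.1 : L) / g x.2.1
    rw [map_div₀, map_intCast]
  have hfix' : ∀ x : S, x.2.1 ^ 2 ≠ (c x.1 : L) := by
    intro x
    have := htors x.1 x.2.1 x.2.2 1 one_pos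
    rwa [mul_one, pow_one] at this
  have hfix : ∀ x : S, ι x ≠ x := by
    intro x h1
    apply hfix' x
    have h2 : (c x.1 : L) / x.2.1 = x.2.1 := congrArg (fun y : S => y.2.1) h1
    rw [div_eq_iff (hx0 x)] at h2
    rw [h2]; ring
  obtain ⟨ℓ, hℓp, hsep, hodd, hndvd⟩ := hℓ i₀
  obtain ⟨x₁, hx₁, hcard, σ₁, hσ₁, hσx₁⟩ := exists_small_block I c hc h hm hirr L hsplit hact ι hι'
    hfix' i₀ ℓ hℓp hsep hodd hndvd
  let x₀ : S := ⟨i₀, ⟨β₀, hβ₀⟩⟩
  obtain ⟨τ, hτ⟩ : ∃ τ : L ≃ₐ[ℚ] L, τ • x₁ = x₀ := by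
    subst hx₁
    obtain ⟨τ, hτ⟩ := exists_conj (hirr x₁.1) x₁.2 (⟨β₀, hβ₀⟩ : Rt L (qw (c x₁.1) (h x₁.1)))
    exact ⟨τ, hSext _ _ rfl hτ⟩
  have hcard' : (blk (L ≃ₐ[ℚ] L) ι x₀).card = 2 := by
    rw [← hτ, card_blk_smul hcomm, hcard]
  have hσ₀ : InCore ι (τ * σ₁ * τ⁻¹) := inCore_conj hcomm hσ₁ τ
  have hσx₀ : (τ * σ₁ * τ⁻¹) • x₀ ≠ x₀ := by
    intro h1
    rw [← hτ, smul_smul, inv_mul_cancel_right, mul_smul] at h1
    exact hσx₁ (MulAction.injective τ h1)
  let val : S → Lˣ := fun x => Units.mk0 x.2.1 (hx0 x)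
  have hval : ∀ (g : L ≃ₐ[ℚ] L) (x : S), ((val (g • x) : Lˣ) : L) = g (val x : L) := fun _ _ => rfl
  have hprodS : ∏ i, ∏ β ∈ roots (qw (c i) (h i)) L, β ^ n i β =
      ∏ x : S, (val x : L) ^ n x.1 x.2.1 := by
    have h1 := Fintype.prod_sigma (fun x : S => x.2.1 ^ n x.1 x.2.1)
    have h2 : ∏ x : S, (val x : L) ^ n x.1 x.2.1 = ∏ x : S, x.2.1 ^ n x.1 x.2.1 := rfl
    rw [h2, h1]
    refine Finset.prod_congr rfl fun i _ => ?_
    exact (Finset.prod_coe_sort (roots (qw (c i) (h i)) L) fun β => β ^ n i β).symm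
  rw [hprodS] at hrel
  have hW : ∀ g : L ≃ₐ[ℚ] L, ∀ m ∈ relMod val, act g m ∈ relMod val := fun g m hm =>
    act_mem val hval g m hm
  have hn := rel_mem val hval (fun x => n x.1 x.2.1) N hN e hrel
  have habs : av ι x₀ ∉ relMod val := by
    intro h1
    obtain ⟨k, hk, h2⟩ := ev_sub_mem val h1
    have h3 : β₀ ^ k = ((c i₀ : L) / β₀) ^ k := congrArg Units.val h2
    apply htors i₀ β₀ hβ₀ k (Nat.pos_of_ne_zero hk)
    have h4 : β₀ ≠ 0 := hx0 x₀
    rw [div_pow, eq_div_iff (pow_ne_zero k h4)] at h3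
    rw [← h3]; ring
  have h1 := abs_one hι hfix hcomm hW (fun x => (n x.1 x.2.1 : ℚ)) hn x₀ _ hσ₀ hσx₀ hcard' habs
  exact_mod_cast h1

end Pool.Agent.Helper19.Sign
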